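import Mathlib

set_option autoImplicit false

/-! Two interleaved lamplighter groups as a group generated by a finite-state affine automorphism
of the rooted tree. -/

namespace Q21.Aff

open Equiv

variable {d : ℕ}

/-- Infinite sequences over `ℤ/d`. -/
abbrev V (d : ℕ) : Type := ℕ → ZMod d

/-- At the places of parity `e`, add the entry two places before. -/
def Sf (e : ℕ) (x : V d) : V d
  | 0 => x 0
  | 1 => x 1
  | (j + 2) => if j % 2 = e then x (j + 2) + x j else x (j + 2)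

def Sg (e : ℕ) (x : V d) : V d
  | 0 => x 0
  | 1 => x 1
  | (j + 2) => if j % 2 = e then x (j + 2) - Sg e x j else x (j + 2)

theorem Sg_Sf (e : ℕ) (x : V d) : ∀ j, Sg e (Sf e x) j = x j
  | 0 => rfl
  | 1 => rfl
  | (j + 2) => by
    by_cases h : j % 2 = e
    · simp only [Sg, Sf, if_pos h, Sg_Sf e x j]
      ring
    · simp only [Sg, Sf, if_neg h]

theorem Sf_Sg (e : ℕ) (x : V d) : ∀ j, Sf e (Sg e x) j = x j
  | 0 => rfl
  | 1 => rfl
  | (j + 2) => by
    by_cases h : j % 2 = e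
    · simp only [Sg, Sf, if_pos h]
      ring
    · simp only [Sg, Sf, if_neg h]

theorem Sf_add (e : ℕ) (x y : V d) : Sf e (x + y) = Sf e x + Sf e y := by
  funext j
  match j with
  | 0 => rfl
  | 1 => rfl
  | (j + 2) =>
    by_cases h : j % 2 = e
    · simp only [Sf, if_pos h, Pi.add_apply]
      ring
    · simp only [Sf, if_neg h, Pi.add_apply]

theorem Sf_smul (e : ℕ) (a : ZMod d) (x : V d) : Sf e (a • x) = a • Sf e x := by
  funext j
  match j with
  | 0 => rfl
  | 1 => rfl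
  | (j + 2) =>
    by_cases h : j % 2 = e
    · simp only [Sf, if_pos h, Pi.smul_apply, smul_eq_mul]
      ring
    · simp only [Sf, if_neg h, Pi.smul_apply]

/-- Linear automorphisms of the space of sequences. -/
abbrev LA (d : ℕ) : Type := V d ≃ₗ[ZMod d] V d

/-- The linear automorphism `Sf e`. -/
def S (e : ℕ) : LA d where
  toFun := Sf e
  invFun := Sg e
  left_inv x := funext (Sg_Sf e x)
  right_inv x := funext (Sf_Sg e x)
  map_add' := Sf_add e
  map_smul' := Sf_smul e


theorem S_comm : (S 0 : LA d) * S 1 = S 1 * S 0 := by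
  ext x j
  show Sf 0 (Sf 1 x) j = Sf 1 (Sf 0 x) j
  match j with
  | 0 => rfl
  | 1 => rfl
  | 2 => simp [Sf]
  | 3 => simp [Sf]
  | (j + 4) =>
    have h : j % 2 = 0 ∨ j % 2 = 1 := by omega
    rcases h with h | h <;> simp [Sf, h]

/-- The affine map `x ↦ φ x + c`. -/
def aff (φ : LA d) (c : V d) : Perm (V d) where
  toFun x := φ x + c
  invFun x := φ.symm (x - c)
  left_inv x := by simp
  right_inv x := by simp

theorem aff_apply (φ : LA d) (c x : V d) : aff φ c x = φ x + c := rfl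

theorem aff_mul (φ ψ : LA d) (c e : V d) :
    aff φ c * aff ψ e = aff (φ * ψ) (φ e + c) := by
  ext1 x
  show φ (ψ x + e) + c = φ (ψ x) + (φ e + c)
  rw [map_add, add_assoc]

theorem aff_inj {φ ψ : LA d} {c e : V d} (h : aff φ c = aff ψ e) : φ = ψ ∧ c = e := by
  have h0 : c = e := by
    have := congrArg (fun f : Perm (V d) => f 0) h
    simpa [aff_apply] using this
  subst h0
  refine ⟨?_, rfl⟩
  ext1 x
  have := congrArg (fun f : Perm (V d) => f x) h
  simp only [aff_apply] at this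
  exact add_right_cancel this

theorem aff_one : aff (1 : LA d) 0 = 1 := by
  ext1 x
  show x + 0 = x
  rw [add_zero]

theorem aff_pow (φ : LA d) (c : V d) (n : ℕ) : ∃ e, (aff φ c) ^ n = aff (φ ^ n) e := by
  induction n with
  | zero => exact ⟨0, aff_one.symm⟩
  | succ n ih =>
    obtain ⟨e, he⟩ := ih
    exact ⟨_, by rw [pow_succ, pow_succ, he, aff_mul]⟩

theorem aff_zero_pow (φ : LA d) (n : ℕ) : (aff φ 0) ^ n = aff (φ ^ n) 0 := by
  induction n with
  | zero => exact aff_one.symm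
  | succ n ih => rw [pow_succ, pow_succ, ih, aff_mul, map_zero, add_zero]

theorem aff_inv (φ : LA d) (c : V d) : (aff φ c)⁻¹ = aff φ⁻¹ (-(φ⁻¹ c)) := by
  rw [inv_eq_iff_mul_eq_one, aff_mul, mul_inv_cancel]
  have : φ (-(φ⁻¹ c)) + c = 0 := by
    rw [map_neg]
    show -(φ (φ.symm c)) + c = 0
    rw [LinearEquiv.apply_symm_apply, neg_add_cancel]
  rw [this, aff_one]

/-- The sequence with a single one at the place `i`. -/
def E (i : ℕ) : V d := Pi.single i 1

/-- The linear automorphism `S e` moves `E e`. -/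
theorem S_pow_E (e : ℕ) (he : e < 2) (n : ℕ) :
    ((S e) ^ n) (E e : V d) (e + 2 * n) = 1 ∧ ∀ j, e + 2 * n < j → ((S e) ^ n) (E e : V d) j = 0 := by
  induction n with
  | zero =>
    refine ⟨?_, fun j hj => ?_⟩
    · show (E e : V d) e = 1
      simp [E]
    · show (E e : V d) j = 0
      simp only [E]
      exact Pi.single_eq_of_ne (by omega) _
  | succ n ih =>
    rw [pow_succ']
    have h1 : ∀ x : V d, ((S e * S e ^ n : LA d)) x = Sf e ((S e ^ n) x) := fun x => rfl
    rw [h1]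
    refine ⟨?_, fun j hj => ?_⟩
    · show Sf e _ ((e + 2 * n) + 2) = 1
      have h2 : (e + 2 * n) % 2 = e := by omega
      simp only [Sf, if_pos h2, ih.1]
      rw [ih.2 _ (by omega), zero_add]
    · obtain ⟨k, rfl⟩ : ∃ k, j = k + 2 := ⟨j - 2, by omega⟩
      simp only [Sf]
      rw [ih.2 _ (by omega), ih.2 k (by omega)]
      simp

theorem S_fix {e e' : ℕ} (hne : e ≠ e') {x : V d}
    (hx : ∀ j, j % 2 ≠ e' → x j = 0) : S e x = x := by
  funext j
  show Sf e x j = x j
  match j with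
  | 0 => rfl
  | 1 => rfl
  | (j + 2) =>
    by_cases h : j % 2 = e
    · simp only [Sf, if_pos h]
      rw [hx j (by omega), add_zero]
    · simp only [Sf, if_neg h]

theorem pow_fix {φ : LA d} {x : V d} (h : φ x = x) (n : ℕ) : (φ ^ n) x = x := by
  induction n with
  | zero => rfl
  | succ n ih =>
    rw [pow_succ]
    show (φ ^ n) (φ x) = x
    rw [h, ih]

theorem zpow_fix {φ : LA d} {x : V d} (h : φ x = x) (n : ℤ) : (φ ^ n) x = x := by
  obtain ⟨n, rfl | rfl⟩ := n.eq_nat_or_neg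
  · rw [zpow_natCast]
    exact pow_fix h n
  · rw [zpow_neg, zpow_natCast]
    show (φ ^ n).symm x = x
    rw [LinearEquiv.symm_apply_eq]
    exact (pow_fix h n).symm

/-- `S e` has infinite order, seen on `E e`. -/
theorem zpow_S (hd : 2 ≤ d) (e : ℕ) (he : e < 2) (n : ℤ) (h : ((S e) ^ n) (E e : V d) = E e) :
    n = 0 := by
  have hne : (1 : ZMod d) ≠ 0 := by
    have : Fact (1 < d) := ⟨hd⟩
    exact one_ne_zero
  have key : ∀ n : ℕ, ((S e) ^ n) (E e : V d) = E e → n = 0 := by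
    intro n hn
    by_contra h0
    have h1 := (S_pow_E (d := d) e he n).1
    rw [hn] at h1
    have h2 : (E e : V d) (e + 2 * n) = 0 := by
      simp only [E]
      exact Pi.single_eq_of_ne (by omega) _
    rw [h2] at h1
    exact hne h1.symm
  obtain ⟨n, rfl | rfl⟩ := n.eq_nat_or_neg
  · rw [zpow_natCast] at h
    rw [key n h]
    rfl
  · rw [zpow_neg, zpow_natCast] at h
    have h3 : ((S e) ^ n).symm (E e : V d) = E e := h
    rw [LinearEquiv.symm_apply_eq] at h3
    rw [key n h3.symm]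
    rfl

theorem lin_free (hd : 2 ≤ d) {a b : ℤ} (h : (S 0 : LA d) ^ a * S 1 ^ b = 1) :
    a = 0 ∧ b = 0 := by
  constructor
  · apply zpow_S hd 0 (by norm_num)
    have h1 : (S 1 : LA d) (E 0) = E 0 := by
      apply S_fix (e' := 0) (by norm_num)
      intro j hj
      exact Pi.single_eq_of_ne (by omega) _
    have h2 : (S 0 ^ a * S 1 ^ b : LA d) (E 0) = E 0 := by rw [h]; rfl
    have h3 : (S 0 ^ a * S 1 ^ b : LA d) (E 0) = ((S 0) ^ a) (((S 1) ^ b) (E 0)) := rfl
    rwa [h3, zpow_fix h1] at h2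
  · apply zpow_S hd 1 (by norm_num)
    have h1 : (S 0 : LA d) (E 1) = E 1 := by
      apply S_fix (e' := 1) (by norm_num)
      intro j hj
      exact Pi.single_eq_of_ne (by omega) _
    have hc : (S 0 : LA d) ^ a * S 1 ^ b = S 1 ^ b * S 0 ^ a :=
      ((show Commute (S 0 : LA d) (S 1) from S_comm).zpow_zpow a b)
    rw [hc] at h
    have h2 : (S 1 ^ b * S 0 ^ a : LA d) (E 1) = E 1 := by rw [h]; rfl
    have h3 : (S 1 ^ b * S 0 ^ a : LA d) (E 1) = ((S 1) ^ b) (((S 0) ^ a) (E 1)) := rfl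
    rwa [h3, zpow_fix h1] at h2

/-- The group of affine maps with linear part in the group generated by `S 0` and `S 1`. -/
def Gam (d : ℕ) : Subgroup (Perm (V d)) where
  carrier := {f | ∃ (a b : ℤ) (c : V d), f = aff (S 0 ^ a * S 1 ^ b) c}
  mul_mem' := by
    rintro _ _ ⟨a, b, c, rfl⟩ ⟨a', b', c', rfl⟩
    refine ⟨a + a', b + b', (S 0 ^ a * S 1 ^ b : LA d) c' + c, ?_⟩
    · rw [aff_mul]
      congr 1
      have hc : (S 1 : LA d) ^ b * S 0 ^ a' = S 0 ^ a' * S 1 ^ b :=
        ((show Commute (S 1 : LA d) (S 0) from S_comm.symm).zpow_zpow b a')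
      rw [zpow_add, zpow_add, mul_assoc, ← mul_assoc (S 1 ^ b), hc]
      simp only [mul_assoc]
  one_mem' := ⟨0, 0, 0, by simp [aff_one]⟩
  inv_mem' := by
    rintro _ ⟨a, b, c, rfl⟩
    refine ⟨-a, -b, -((S 0 ^ a * S 1 ^ b : LA d)⁻¹ c), ?_⟩
    · rw [aff_inv]
      congr 1
      have hc : (S 1 : LA d) ^ (-b) * S 0 ^ (-a) = S 0 ^ (-a) * S 1 ^ (-b) :=
        ((show Commute (S 1 : LA d) (S 0) from S_comm.symm).zpow_zpow _ _)
      rw [mul_inv_rev, ← zpow_neg, ← zpow_neg, hc]

/-- Torsion elements are translations. -/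
theorem torsion (hd : 2 ≤ d) {f : Perm (V d)} (hf : f ∈ Gam d) {m : ℕ} (hm : 0 < m)
    (h : f ^ m = 1) : ∃ c : V d, f = aff 1 c := by
  obtain ⟨a, b, c, rfl⟩ := hf
  obtain ⟨e, he⟩ := aff_pow (S 0 ^ a * S 1 ^ b) c m
  rw [he, ← aff_one] at h
  have h1 := (aff_inj h).1
  have hc : Commute ((S 0 : LA d) ^ a) (S 1 ^ b) :=
    ((show Commute (S 0 : LA d) (S 1) from S_comm).zpow_zpow a b)
  rw [hc.mul_pow, ← zpow_natCast, ← zpow_natCast, ← zpow_mul, ← zpow_mul] at h1
  obtain ⟨h2, h3⟩ := lin_free hd h1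
  have hm' : (m : ℤ) ≠ 0 := by exact_mod_cast hm.ne'
  have ha : a = 0 := by
    rcases mul_eq_zero.1 h2 with h | h
    · exact h
    · exact absurd h hm'
  have hb : b = 0 := by
    rcases mul_eq_zero.1 h3 with h | h
    · exact h
    · exact absurd h hm'
  subst ha hb
  exact ⟨c, by simp⟩

theorem S_supp (e : ℕ) (x : V d) (j : ℕ) (hj : j % 2 ≠ e) : (S e x - x) j = 0 := by
  show Sf e x j - x j = 0
  match j with
  | 0 => simp [Sf]
  | 1 => simp [Sf]
  | (j + 2) =>
    have h : ¬ j % 2 = e := by omega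
    simp only [Sf, if_neg h, sub_self]

theorem S_pow_supp (e : ℕ) (n : ℕ) (x : V d) (j : ℕ) (hj : j % 2 ≠ e) :
    (((S e) ^ n) x - x) j = 0 := by
  induction n with
  | zero => simp
  | succ n ih =>
    have h1 : ((S e) ^ (n + 1)) x - x =
        (S e (((S e) ^ n) x) - ((S e) ^ n) x) + (((S e) ^ n) x - x) := by
      rw [pow_succ']
      show S e (((S e) ^ n) x) - x = _
      abel
    rw [h1, Pi.add_apply, ih, S_supp e _ j hj, add_zero]

/-- The annihilation identity: `(S 0 ^ n - 1) (S 1 ^ n - 1) = 0`. -/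
theorem annih (n m : ℕ) (c : V d) :
    ((S 0) ^ n) (((S 1) ^ m) c - c) = ((S 1) ^ m) c - c := by
  apply pow_fix
  apply S_fix (e' := 1) (by norm_num)
  intro j hj
  exact S_pow_supp 1 m c j hj

end Q21.Aff
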