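import Mathlib

set_option autoImplicit false

namespace Q21.Blocks

open Equiv

variable {X ι : Type*} [DecidableEq ι]

/-- The restriction of a permutation preserving blocks to the block with label `i`. -/
def restr (blk : X → ι) (g : Perm X) (hg : ∀ x, blk (g x) = blk x) (i : ι) : Perm X where
  toFun x := if blk x = i then g x else x
  invFun x := if blk x = i then g⁻¹ x else x
  left_inv x := by
    by_cases h : blk x = i
    · simp [h, hg]
    · simp [h]
  right_inv x := by
    have hg' : ∀ x, blk (g⁻¹ x) = blk x := fun x => by
      have := hg (g⁻¹ x)
      rw [show g (g⁻¹ x) = x from g.apply_symm_apply x] at this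
      exact this.symm
    by_cases h : blk x = i
    · simp only [h, if_true]
      rw [if_pos (by rw [hg', h])]
      simp
    · simp [h]

theorem restr_apply (blk : X → ι) (g : Perm X) (hg : ∀ x, blk (g x) = blk x) (i : ι) (x : X) :
    restr blk g hg i x = if blk x = i then g x else x := rfl

/-- A permutation that preserves the blocks and is trivial outside finitely many of them is a
product of its restrictions. -/
theorem mem_of_restr (blk : X → ι) (s : Finset ι) (H : Subgroup (Perm X)) :
    ∀ (g : Perm X) (hg : ∀ x, blk (g x) = blk x), (∀ x, blk x ∉ s → g x = x) →
      (∀ i ∈ s, restr blk g hg i ∈ H) → g ∈ H := by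
  induction s using Finset.induction_on with
  | empty =>
    intro g hg hfix _
    have : g = 1 := by
      ext x
      exact hfix x (by simp)
    rw [this]
    exact H.one_mem
  | insert i s hi ih =>
    intro g hg hfix hH
    -- remove the block `i`
    have h1 : restr blk g hg i ∈ H := hH i (Finset.mem_insert_self i s)
    have hg'' : ∀ x, blk (restr blk g hg i x) = blk x := by
      intro x
      rw [restr_apply]
      split_ifs with h
      · exact hg x
      · rfl
    set r := restr blk g hg i with hr
    have hinv : ∀ x, blk (r⁻¹ x) = blk x := fun x => by
      have := hg'' (r⁻¹ x)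
      rw [show r (r⁻¹ x) = x from r.apply_symm_apply x] at this
      exact this.symm
    have hg2 : ∀ x, blk ((r⁻¹ * g) x) = blk x := by
      intro x
      rw [Perm.mul_apply, hinv, hg]
    have key : ∀ x, (r⁻¹ * g) x = if blk x = i then x else g x := by
      intro x
      rw [Perm.mul_apply]
      split_ifs with h
      · rw [Perm.inv_eq_iff_eq, hr, restr_apply, if_pos h]
      · rw [Perm.inv_eq_iff_eq, hr, restr_apply, if_neg (by rw [hg]; exact h)]
    have h2 : r⁻¹ * g ∈ H := by
      refine ih (r⁻¹ * g) hg2 ?_ ?_
      · intro x hx
        rw [key]
        split_ifs with h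
        · rfl
        · exact hfix x (by simp [h, hx])
      · intro j hj
        have hji : j ≠ i := fun h => hi (h ▸ hj)
        have : restr blk (r⁻¹ * g) hg2 j = restr blk g hg j := by
          ext x
          rw [restr_apply, restr_apply]
          split_ifs with h
          · rw [key, if_neg (by rw [h]; exact hji)]
          · rfl
        rw [this]
        exact hH j (Finset.mem_insert_of_mem hj)
    have : g = r * (r⁻¹ * g) := by group
    rw [this]
    exact H.mul_mem h1 h2

end Q21.Blocks
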