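import Pool.Agent.Q21.CSD

namespace Q21.CS

open OnePoint

/-! ### The order automorphisms `b` and `y` of the real line -/

noncomputable def bF (t : ℝ) : ℝ :=
  if t ≤ 0 then t else if t ≤ 1 / 2 then t / (1 - t) else if t ≤ 1 then 3 - 1 / t else t + 1

noncomputable def bI (t : ℝ) : ℝ :=
  if t ≤ 0 then t else if t ≤ 1 then t / (1 + t) else if t ≤ 2 then 1 / (3 - t) else t - 1

theorem bF_1 {t : ℝ} (h : t ≤ 0) : bF t = t := by simp [bF, h]

theorem bF_2 {t : ℝ} (h0 : 0 ≤ t) (h1 : t ≤ 1 / 2) : bF t = t / (1 - t) := by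
  rcases h0.eq_or_lt with h | h
  · subst h; simp [bF]
  · rw [bF, if_neg (not_le.2 h), if_pos h1]

theorem bF_3 {t : ℝ} (h0 : 1 / 2 ≤ t) (h1 : t ≤ 1) : bF t = 3 - 1 / t := by
  rcases h0.eq_or_lt with h | h
  · subst h; norm_num [bF]
  · rw [bF, if_neg (by linarith), if_neg (not_le.2 h), if_pos h1]

theorem bF_4 {t : ℝ} (h0 : 1 ≤ t) : bF t = t + 1 := by
  rcases h0.eq_or_lt with h | h
  · subst h; norm_num [bF]
  · rw [bF, if_neg (by linarith), if_neg (by linarith), if_neg (not_le.2 h)]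

theorem bI_1 {t : ℝ} (h : t ≤ 0) : bI t = t := by simp [bI, h]

theorem bI_2 {t : ℝ} (h0 : 0 ≤ t) (h1 : t ≤ 1) : bI t = t / (1 + t) := by
  rcases h0.eq_or_lt with h | h
  · subst h; simp [bI]
  · rw [bI, if_neg (not_le.2 h), if_pos h1]

theorem bI_3 {t : ℝ} (h0 : 1 ≤ t) (h1 : t ≤ 2) : bI t = 1 / (3 - t) := by
  rcases h0.eq_or_lt with h | h
  · subst h; norm_num [bI]
  · rw [bI, if_neg (by linarith), if_neg (not_le.2 h), if_pos h1]

theorem bI_4 {t : ℝ} (h0 : 2 ≤ t) : bI t = t - 1 := by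
  rcases h0.eq_or_lt with h | h
  · subst h; norm_num [bI]
  · rw [bI, if_neg (by linarith), if_neg (by linarith), if_neg (not_le.2 h)]

theorem bF_b2 {t : ℝ} (h0 : 0 ≤ t) (h1 : t ≤ 1 / 2) : 0 ≤ bF t ∧ bF t ≤ 1 := by
  rw [bF_2 h0 h1]
  have : 0 < 1 - t := by linarith
  exact ⟨div_nonneg h0 this.le, by rw [div_le_one this]; linarith⟩

theorem bF_b3 {t : ℝ} (h0 : 1 / 2 ≤ t) (h1 : t ≤ 1) : 1 ≤ bF t ∧ bF t ≤ 2 := by
  rw [bF_3 h0 h1]
  have ht : 0 < t := by linarith
  have e1 : 1 ≤ 1 / t := by rw [le_div_iff₀ ht]; linarith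
  have e2 : 1 / t ≤ 2 := by rw [div_le_iff₀ ht]; linarith
  exact ⟨by linarith, by linarith⟩

theorem bI_b2 {t : ℝ} (h0 : 0 ≤ t) (h1 : t ≤ 1) : 0 ≤ bI t ∧ bI t ≤ 1 / 2 := by
  rw [bI_2 h0 h1]
  have : 0 < 1 + t := by linarith
  exact ⟨div_nonneg h0 this.le, by rw [div_le_iff₀ this]; linarith⟩

theorem bI_b3 {t : ℝ} (h0 : 1 ≤ t) (h1 : t ≤ 2) : 1 / 2 ≤ bI t ∧ bI t ≤ 1 := by
  rw [bI_3 h0 h1]
  have : 0 < 3 - t := by linarith
  exact ⟨by rw [div_le_div_iff₀ (by norm_num) this]; linarith, by rw [div_le_one this]; linarith⟩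

theorem bF_mono : Monotone bF := by
  intro t u htu
  rcases le_total t 0 with h1 | h1
  · rw [bF_1 h1]
    rcases le_total u 0 with k1 | k1
    · rw [bF_1 k1]; exact htu
    rcases le_total u (1 / 2) with k2 | k2
    · linarith [(bF_b2 k1 k2).1]
    rcases le_total u 1 with k3 | k3
    · linarith [(bF_b3 k2 k3).1]
    rw [bF_4 k3]; linarith
  rcases le_total t (1 / 2) with h2 | h2
  · rcases le_total u (1 / 2) with k2 | k2
    · rw [bF_2 h1 h2, bF_2 (h1.trans htu) k2, div_le_div_iff₀ (by linarith) (by linarith)]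
      nlinarith
    rcases le_total u 1 with k3 | k3
    · linarith [(bF_b3 k2 k3).1, (bF_b2 h1 h2).2]
    rw [bF_4 k3]; linarith [(bF_b2 h1 h2).2]
  rcases le_total t 1 with h3 | h3
  · rcases le_total u 1 with k3 | k3
    · rw [bF_3 h2 h3, bF_3 (h2.trans htu) k3]
      have : 1 / u ≤ 1 / t := one_div_le_one_div_of_le (by linarith) htu
      linarith
    rw [bF_4 k3]; linarith [(bF_b3 h2 h3).2]
  rw [bF_4 h3, bF_4 (h3.trans htu)]; linarith

theorem bI_mono : Monotone bI := by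
  intro t u htu
  rcases le_total t 0 with h1 | h1
  · rw [bI_1 h1]
    rcases le_total u 0 with k1 | k1
    · rw [bI_1 k1]; exact htu
    rcases le_total u 1 with k2 | k2
    · linarith [(bI_b2 k1 k2).1]
    rcases le_total u 2 with k3 | k3
    · linarith [(bI_b3 k2 k3).1]
    rw [bI_4 k3]; linarith
  rcases le_total t 1 with h2 | h2
  · rcases le_total u 1 with k2 | k2
    · rw [bI_2 h1 h2, bI_2 (h1.trans htu) k2, div_le_div_iff₀ (by linarith) (by linarith)]
      nlinarith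
    rcases le_total u 2 with k3 | k3
    · linarith [(bI_b3 k2 k3).1, (bI_b2 h1 h2).2]
    rw [bI_4 k3]; linarith [(bI_b2 h1 h2).2]
  rcases le_total t 2 with h3 | h3
  · rcases le_total u 2 with k3 | k3
    · rw [bI_3 h2 h3, bI_3 (h2.trans htu) k3]
      exact one_div_le_one_div_of_le (by linarith) (by linarith)
    rw [bI_4 k3]; linarith [(bI_b3 h2 h3).2]
  rw [bI_4 h3, bI_4 (h3.trans htu)]; linarith

theorem bI_bF (t : ℝ) : bI (bF t) = t := by
  rcases le_total t 0 with h1 | h1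
  · rw [bF_1 h1, bI_1 h1]
  rcases le_total t (1 / 2) with h2 | h2
  · have := bF_b2 h1 h2
    rw [bI_2 this.1 this.2, bF_2 h1 h2]
    have : (1 : ℝ) - t ≠ 0 := by linarith
    field_simp; ring
  rcases le_total t 1 with h3 | h3
  · have := bF_b3 h2 h3
    rw [bI_3 this.1 this.2, bF_3 h2 h3]
    have : t ≠ 0 := by linarith
    field_simp; ring
  rw [bF_4 h3, bI_4 (by linarith)]; ring

theorem bF_bI (t : ℝ) : bF (bI t) = t := by
  rcases le_total t 0 with h1 | h1
  · rw [bI_1 h1, bF_1 h1]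
  rcases le_total t 1 with h2 | h2
  · have := bI_b2 h1 h2
    rw [bF_2 this.1 this.2, bI_2 h1 h2]
    have : (1 : ℝ) + t ≠ 0 := by linarith
    field_simp; ring
  rcases le_total t 2 with h3 | h3
  · have := bI_b3 h2 h3
    rw [bF_3 this.1 this.2, bI_3 h2 h3]
    have : (3 : ℝ) - t ≠ 0 := by linarith
    field_simp; ring
  rw [bI_4 h3, bF_4 (by linarith)]; ring

/-- The order automorphism `b`. -/
noncomputable def bO : ℝ ≃o ℝ :=
  Equiv.toOrderIso ⟨bF, bI, bI_bF, bF_bI⟩ bF_mono bI_mono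

theorem bO_apply (t : ℝ) : bO t = bF t := rfl
theorem bO_symm_apply (t : ℝ) : bO.symm t = bI t := rfl
theorem bO_inv_apply (t : ℝ) : bO⁻¹ t = bI t := rfl

/-- The translation by one. -/
noncomputable def tO : ℝ ≃o ℝ := OrderIso.addRight (1 : ℝ)

theorem tO_apply (t : ℝ) : tO t = t + 1 := rfl

theorem tO_inv_apply (t : ℝ) : tO⁻¹ t = t - 1 := by
  have : tO (t - 1) = t := by rw [tO_apply]; ring
  conv_lhs => rw [← this]
  exact tO.symm_apply_apply _

theorem tO_zpow_apply (n : ℤ) (t : ℝ) : (tO ^ n) t = t + n := by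
  induction n using Int.induction_on generalizing t with
  | zero => simp
  | succ k ih =>
    rw [zpow_add, zpow_one, RelIso.mul_apply, tO_apply, ih]; push_cast; ring
  | pred k ih =>
    rw [zpow_sub, zpow_one, RelIso.mul_apply, tO_inv_apply, ih]; push_cast; ring

/-! ### `y` -/

noncomputable def yF (t : ℝ) : ℝ := if t ≤ 0 then t else if t ≤ 1 then 2 * t / (1 + t) else t
noncomputable def yI (t : ℝ) : ℝ := if t ≤ 0 then t else if t ≤ 1 then t / (2 - t) else t

theorem yF_1 {t : ℝ} (h : t ≤ 0) : yF t = t := by simp [yF, h]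
theorem yF_2 {t : ℝ} (h0 : 0 ≤ t) (h1 : t ≤ 1) : yF t = 2 * t / (1 + t) := by
  rcases h0.eq_or_lt with h | h
  · subst h; simp [yF]
  · rw [yF, if_neg (not_le.2 h), if_pos h1]
theorem yF_3 {t : ℝ} (h0 : 1 ≤ t) : yF t = t := by
  rcases h0.eq_or_lt with h | h
  · subst h; norm_num [yF]
  · rw [yF, if_neg (by linarith), if_neg (not_le.2 h)]
theorem yI_1 {t : ℝ} (h : t ≤ 0) : yI t = t := by simp [yI, h]
theorem yI_2 {t : ℝ} (h0 : 0 ≤ t) (h1 : t ≤ 1) : yI t = t / (2 - t) := by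
  rcases h0.eq_or_lt with h | h
  · subst h; simp [yI]
  · rw [yI, if_neg (not_le.2 h), if_pos h1]
theorem yI_3 {t : ℝ} (h0 : 1 ≤ t) : yI t = t := by
  rcases h0.eq_or_lt with h | h
  · subst h; norm_num [yI]
  · rw [yI, if_neg (by linarith), if_neg (not_le.2 h)]

theorem yF_b2 {t : ℝ} (h0 : 0 ≤ t) (h1 : t ≤ 1) : 0 ≤ yF t ∧ yF t ≤ 1 := by
  rw [yF_2 h0 h1]
  have : 0 < 1 + t := by linarith
  exact ⟨by positivity, by rw [div_le_one this]; linarith⟩

theorem yI_b2 {t : ℝ} (h0 : 0 ≤ t) (h1 : t ≤ 1) : 0 ≤ yI t ∧ yI t ≤ 1 := by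
  rw [yI_2 h0 h1]
  have : 0 < 2 - t := by linarith
  exact ⟨div_nonneg h0 this.le, by rw [div_le_one this]; linarith⟩

theorem yF_mono : Monotone yF := by
  intro t u htu
  rcases le_total t 0 with h1 | h1
  · rw [yF_1 h1]
    rcases le_total u 0 with k1 | k1
    · rw [yF_1 k1]; exact htu
    rcases le_total u 1 with k2 | k2
    · linarith [(yF_b2 k1 k2).1]
    rw [yF_3 k2]; linarith
  rcases le_total t 1 with h2 | h2
  · rcases le_total u 1 with k2 | k2
    · rw [yF_2 h1 h2, yF_2 (h1.trans htu) k2, div_le_div_iff₀ (by linarith) (by linarith)]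
      nlinarith
    rw [yF_3 k2]; linarith [(yF_b2 h1 h2).2]
  rw [yF_3 h2, yF_3 (h2.trans htu)]; linarith

theorem yI_mono : Monotone yI := by
  intro t u htu
  rcases le_total t 0 with h1 | h1
  · rw [yI_1 h1]
    rcases le_total u 0 with k1 | k1
    · rw [yI_1 k1]; exact htu
    rcases le_total u 1 with k2 | k2
    · linarith [(yI_b2 k1 k2).1]
    rw [yI_3 k2]; linarith
  rcases le_total t 1 with h2 | h2
  · rcases le_total u 1 with k2 | k2
    · rw [yI_2 h1 h2, yI_2 (h1.trans htu) k2, div_le_div_iff₀ (by linarith) (by linarith)]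
      nlinarith
    rw [yI_3 k2]; linarith [(yI_b2 h1 h2).2]
  rw [yI_3 h2, yI_3 (h2.trans htu)]; linarith

theorem yI_yF (t : ℝ) : yI (yF t) = t := by
  rcases le_total t 0 with h1 | h1
  · rw [yF_1 h1, yI_1 h1]
  rcases le_total t 1 with h2 | h2
  · have := yF_b2 h1 h2
    rw [yI_2 this.1 this.2, yF_2 h1 h2]
    have : (1 : ℝ) + t ≠ 0 := by linarith
    field_simp; ring
  rw [yF_3 h2, yI_3 h2]

theorem yF_yI (t : ℝ) : yF (yI t) = t := by
  rcases le_total t 0 with h1 | h1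
  · rw [yI_1 h1, yF_1 h1]
  rcases le_total t 1 with h2 | h2
  · have := yI_b2 h1 h2
    rw [yF_2 this.1 this.2, yI_2 h1 h2]
    have : (2 : ℝ) - t ≠ 0 := by linarith
    field_simp; ring
  rw [yI_3 h2, yF_3 h2]

/-- The order automorphism `y`. -/
noncomputable def yO : ℝ ≃o ℝ :=
  Equiv.toOrderIso ⟨yF, yI, yI_yF, yF_yI⟩ yF_mono yI_mono

theorem yO_apply (t : ℝ) : yO t = yF t := rfl
theorem yO_inv_apply (t : ℝ) : yO⁻¹ t = yI t := rfl

/-- `s = y · τ y⁻¹ τ⁻¹`. -/
theorem sFun_eq (t : ℝ) : (yO * (tO * yO⁻¹ * tO⁻¹)) t = sFun t := by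
  rw [RelIso.mul_apply, RelIso.mul_apply, RelIso.mul_apply, tO_inv_apply, yO_inv_apply, tO_apply,
    yO_apply]
  rcases le_or_gt t 0 with h1 | h1
  · rw [yI_1 (by linarith), sFun, if_pos h1, yF_1 (by linarith)]; ring
  rcases le_or_gt t 1 with h2 | h2
  · rw [yI_1 (by linarith), sFun, if_neg (by linarith), if_pos h2]
    rw [show t - 1 + 1 = t by ring, yF_2 h1.le h2]
  rcases le_or_gt t 2 with h3 | h3
  · have := yI_b2 (t := t - 1) (by linarith) (by linarith)
    rw [yF_3 (by linarith), yI_2 (by linarith) (by linarith), sFun, if_neg (by linarith),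
      if_neg (by linarith), if_pos h3]
    have e1 : (2 : ℝ) - (t - 1) ≠ 0 := by linarith
    have e2 : (3 : ℝ) - t ≠ 0 := by linarith
    rw [show (2 : ℝ) - (t - 1) = 3 - t by ring]
    field_simp; ring
  · rw [yI_3 (by linarith), yF_3 (by linarith), sFun, if_neg (by linarith), if_neg (by linarith),
      if_neg (by linarith)]
    ring

end Q21.CS
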