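import Pool.Agent.Q21.CS1

namespace Q21.CS

/-! ### Maps that are Farey-linear on all integer intervals -/

/-- `f` maps `[i, i+1]` onto the Farey interval with ends `N i / D i` and `N (i+1) / D (i+1)`, by a
Möbius map. -/
def Lin (f : ℝ → ℝ) (N D : ℤ → ℤ) : Prop :=
  (∀ i, 0 < D i) ∧ (∀ i, N (i + 1) * D i - N i * D (i + 1) = 1) ∧
    ∀ i : ℤ, ∀ u : ℝ, 0 ≤ u → u ≤ 1 →
      f (i + u) = ((1 - u) * N i + u * N (i + 1)) / ((1 - u) * D i + u * D (i + 1))

/-- The subgroup generated by `τ` and `b`. -/
noncomputable def F0 : Subgroup (ℝ ≃o ℝ) := Subgroup.closure {tO, bO}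

theorem tO_mem : tO ∈ F0 := Subgroup.subset_closure (by simp)
theorem bO_mem : bO ∈ F0 := Subgroup.subset_closure (by simp)

theorem ear_exists {D N : ℤ → ℤ} (hD : ∀ i, 0 < D i)
    (hdet : ∀ i, N (i + 1) * D i - N i * D (i + 1) = 1) {a : ℤ} {k : ℕ}
    (h1 : ∀ i, i ≤ a → D i = 1) (h2 : ∀ i, a + k ≤ i → D i = 1) :
    (∀ i, D i = 1) ∨ ∃ i, D (i + 1) = D i + D (i + 2) ∧ N (i + 1) = N i + N (i + 2) := by
  by_contra hcon
  push Not at hcon
  obtain ⟨⟨j, hj⟩, hno⟩ := hcon
  have key : ∀ i, D (i + 1) - D i ≤ D (i + 2) - D (i + 1) := by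
    intro i
    have e1 := hdet i
    have e2 := hdet (i + 1)
    rw [show i + 1 + 1 = i + 2 by ring] at e2
    have eD : (N (i + 2) * D i - N i * D (i + 2)) * D (i + 1) = D i + D (i + 2) := by
      linear_combination D i * e2 + D (i + 2) * e1
    have eN : (N (i + 2) * D i - N i * D (i + 2)) * N (i + 1) = N i + N (i + 2) := by
      linear_combination N i * e2 + N (i + 2) * e1
    generalize N (i + 2) * D i - N i * D (i + 2) = d at eD eN
    have p0 := hD i
    have p1 := hD (i + 1)
    have p2 := hD (i + 2)
    have hd0 : 0 < d := by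
      by_contra hd
      have : d * D (i + 1) ≤ 0 := mul_nonpos_of_nonpos_of_nonneg (not_lt.1 hd) p1.le
      omega
    have hd1 : d ≠ 1 := by
      intro hd
      subst hd
      exact hno i (by omega) (by omega)
    have hd2 : 2 ≤ d := by omega
    have : 2 * D (i + 1) ≤ d * D (i + 1) := mul_le_mul_of_nonneg_right hd2 p1.le
    omega
  have mono : Monotone (fun i => D (i + 1) - D i) := by
    apply monotone_int_of_le_succ
    intro i
    have := key i
    rw [show i + 1 + 1 = i + 2 by ring]
    exact this
  have hja : a < j := by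
    by_contra hja
    exact hj (h1 j (by omega))
  have hjk : j < a + k := by
    by_contra hjk
    exact hj (h2 j (by omega))
  have up : ∀ n : ℕ, D (a + n) = 1 ∨ (a + k < a + n) := by
    intro n
    induction n with
    | zero => left; simpa using h1 a le_rfl
    | succ n ih =>
      by_cases hn : (k : ℤ) < n + 1
      · right; push_cast; omega
      left
      have hn' : D (a + n) = 1 := by
        rcases ih with h | h
        · exact h
        · omega
      have m1 := mono (show a - 1 ≤ a + n by omega)
      have m2 := mono (show a + n ≤ a + k by omega)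
      simp only at m1 m2
      rw [h2 (a + k) le_rfl, h2 (a + k + 1) (by omega)] at m2
      rw [h1 (a - 1) (by omega), show a - 1 + 1 = a by ring, h1 a le_rfl] at m1
      rw [show a + ((n + 1 : ℕ) : ℤ) = a + n + 1 by push_cast; ring]
      omega
  have := up (j - a).toNat
  rw [Int.toNat_of_nonneg (by omega)] at this
  rcases this with h | h
  · apply hj; rw [← h]; congr 1; ring
  · omega

theorem Lin.shift {f : ℝ → ℝ} {N D : ℤ → ℤ} (h : Lin f N D) (m : ℤ) :
    Lin (fun t => f (t + m)) (fun i => N (i + m)) (fun i => D (i + m)) := by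
  refine ⟨fun i => h.1 _, fun i => ?_, fun i u hu0 hu1 => ?_⟩
  · have := h.2.1 (i + m)
    rw [show i + m + 1 = i + 1 + m by ring] at this
    exact this
  · have := h.2.2 (i + m) u hu0 hu1
    rw [show i + m + 1 = i + 1 + m by ring] at this
    dsimp only
    rw [← this]
    congr 1
    push_cast; ring

theorem Lin.ear {f : ℝ → ℝ} {N D : ℤ → ℤ} (h : Lin f N D) (eD : D 1 = D 0 + D 2)
    (eN : N 1 = N 0 + N 2) :
    Lin (fun t => f (bF t)) (fun i => if i ≤ 0 then N i else N (i + 1))
      (fun i => if i ≤ 0 then D i else D (i + 1)) := by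
  obtain ⟨hD, hdet, hf⟩ := h
  have d0 := hdet 0
  have d1 := hdet 1
  norm_num at d0 d1
  refine ⟨fun i => ?_, fun i => ?_, fun i u hu0 hu1 => ?_⟩
  · dsimp only; split_ifs
    · exact hD _
    · exact hD _
  · dsimp only
    rcases lt_trichotomy i 0 with hi | hi | hi
    · rw [if_pos (by omega), if_pos (by omega), if_pos (by omega), if_pos (by omega)]
      exact hdet i
    · subst hi
      norm_num
      rw [eN, eD] at d0
      linear_combination d0
    · rw [if_neg (by omega), if_neg (by omega), if_neg (by omega), if_neg (by omega)]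
      exact hdet (i + 1)
  · dsimp only
    rcases lt_trichotomy i 0 with hi | hi | hi
    · have hi' : (i : ℝ) + 1 ≤ 0 := by exact_mod_cast hi
      rw [if_pos (by omega), if_pos (by omega), if_pos (by omega), if_pos (by omega),
        bF_1 (by linarith)]
      exact hf i u hu0 hu1
    · subst hi
      have p0 : (0 : ℝ) < D 0 := by exact_mod_cast hD 0
      have p2 : (0 : ℝ) < D 2 := by exact_mod_cast hD 2
      have eD' : (D 1 : ℝ) = D 0 + D 2 := by exact_mod_cast eD
      have eN' : (N 1 : ℝ) = N 0 + N 2 := by exact_mod_cast eN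
      norm_num
      have pos : 0 < (1 - u) * (D 0 : ℝ) + u * D 2 := by
        rcases hu0.eq_or_lt with h | h
        · rw [← h]; linarith
        · have := mul_pos h p2
          have := mul_nonneg (sub_nonneg.2 hu1) p0.le
          linarith
      rcases le_total u (1 / 2) with h2 | h2
      · have hb := bF_b2 hu0 h2
        have hh := hf 0 (bF u) hb.1 hb.2
        norm_num at hh
        rw [hh, bF_2 hu0 h2, eD', eN']
        have q : (0 : ℝ) < 1 - u := by linarith
        have e1 : (1 - u / (1 - u)) * (N 0 : ℝ) + u / (1 - u) * (N 0 + N 2)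
            = ((1 - u) * N 0 + u * N 2) / (1 - u) := by field_simp; ring
        have e2 : (1 - u / (1 - u)) * (D 0 : ℝ) + u / (1 - u) * (D 0 + D 2)
            = ((1 - u) * D 0 + u * D 2) / (1 - u) := by field_simp; ring
        rw [e1, e2, div_div_div_cancel_right₀ q.ne']
      · have hb := bF_b3 h2 hu1
        have hh := hf 1 (bF u - 1) (by linarith) (by linarith)
        norm_num at hh
        rw [hh, bF_3 h2 hu1, eD', eN']
        have q : (0 : ℝ) < u := by linarith
        have e1 : (1 - (3 - 1 / u - 1)) * ((N 0 : ℝ) + N 2) + (3 - 1 / u - 1) * N 2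
            = ((1 - u) * N 0 + u * N 2) / u := by field_simp; ring
        have e2 : (1 - (3 - 1 / u - 1)) * ((D 0 : ℝ) + D 2) + (3 - 1 / u - 1) * D 2
            = ((1 - u) * D 0 + u * D 2) / u := by field_simp; ring
        rw [e1, e2, div_div_div_cancel_right₀ q.ne']
    · have hi' : (1 : ℝ) ≤ i := by exact_mod_cast hi
      rw [if_neg (by omega), if_neg (by omega), if_neg (by omega), if_neg (by omega),
        bF_4 (by linarith)]
      have := hf (i + 1) u hu0 hu1
      rw [← this]
      congr 1
      push_cast; ring

theorem Lin.mem : ∀ (k : ℕ) (f : ℝ ≃o ℝ) (N D : ℤ → ℤ) (a : ℤ), Lin f N D →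
    (∀ i, i ≤ a → D i = 1) → (∀ i, a + k ≤ i → D i = 1) → f ∈ F0 := by
  intro k
  induction k with
  | zero =>
    intro f N D a h h1 h2
    have hall : ∀ i, D i = 1 := by
      intro i
      rcases le_total i a with hi | hi
      · exact h1 i hi
      · exact h2 i (by simpa using hi)
    have hN : ∀ i, N i = N 0 + i := by
      have st : ∀ i, N (i + 1) = N i + 1 := by
        intro i
        have := h.2.1 i
        rw [hall i, hall (i + 1)] at this
        omega
      intro i
      induction i using Int.induction_on with
      | zero => simp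
      | succ j ih => rw [st, ih]; ring
      | pred j ih =>
        have := st (-(j : ℤ) - 1)
        rw [show -(j : ℤ) - 1 + 1 = -j by ring, ih] at this
        omega
    have : f = tO ^ (N 0) := by
      ext t
      rw [tO_zpow_apply]
      have := h.2.2 ⌊t⌋ (Int.fract t) (Int.fract_nonneg t) (Int.fract_lt_one t).le
      rw [Int.floor_add_fract, hall, hall, hN, hN (⌊t⌋ + 1)] at this
      rw [this]
      push_cast
      have e := Int.floor_add_fract t
      rw [show (1 - Int.fract t) * 1 + Int.fract t * 1 = 1 by ring, div_one]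
      linear_combination e
    rw [this]
    exact Subgroup.zpow_mem _ tO_mem _
  | succ k ih =>
    intro f N D a h h1 h2
    rcases ear_exists h.1 h.2.1 h1 h2 with hall | ⟨i, eD, eN⟩
    · exact ih f N D a h h1 (fun i _ => hall i)
    · have p0 := h.1 i
      have p2 := h.1 (i + 2)
      have hia : a ≤ i := by
        by_contra hia
        have := h1 (i + 1) (by omega)
        omega
      have hik : i + 1 < a + (k + 1 : ℕ) := by
        by_contra hik
        have := h2 (i + 1) (by omega)
        omega
      have hL := (h.shift i).ear (by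
        rw [zero_add, show (1 : ℤ) + i = i + 1 by ring, show (2 : ℤ) + i = i + 2 by ring]
        exact eD) (by
        rw [zero_add, show (1 : ℤ) + i = i + 1 by ring, show (2 : ℤ) + i = i + 2 by ring]
        exact eN)
      have hmem : f * tO ^ i * bO ∈ F0 := by
        refine ih (f * tO ^ i * bO) (fun j => if j ≤ 0 then N (j + i) else N (j + 1 + i))
          (fun j => if j ≤ 0 then D (j + i) else D (j + 1 + i)) (a - i) ?_ ?_ ?_
        · have hfun : (⇑(f * tO ^ i * bO) : ℝ → ℝ) = fun t => f (bF t + i) := by
            funext t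
            rw [RelIso.mul_apply, RelIso.mul_apply, tO_zpow_apply, bO_apply]
          rw [hfun]
          exact hL
        · intro j hj
          rw [if_pos (by omega)]
          exact h1 _ (by omega)
        · intro j hj
          push_cast at hik
          rw [if_neg (by omega)]
          exact h2 _ (by push_cast; omega)
      have : f = (f * tO ^ i * bO) * bO⁻¹ * (tO ^ i)⁻¹ := by group
      rw [this]
      exact mul_mem (mul_mem hmem (inv_mem bO_mem)) (inv_mem (Subgroup.zpow_mem _ tO_mem _))

end Q21.CS
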