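import Pool.Agent.Q21.CS2

namespace Q21.CS

/-! ### Piecewise Möbius maps of the real line -/

/-- `f` is Möbius with integer coefficients on every interval avoiding `B`. -/
def Mob (f : ℝ → ℝ) (B : List ℚ) : Prop :=
  ∀ J : Set ℝ, J.OrdConnected → (∀ r ∈ B, (r : ℝ) ∉ J) →
    ∃ a b c d : ℤ, a * d - b * c = 1 ∧
      ∀ t ∈ J, (c : ℝ) * t + d ≠ 0 ∧ f t = (a * t + b) / (c * t + d)

theorem side {J : Set ℝ} (hJ : J.OrdConnected) {r : ℝ} (hr : r ∉ J) :
    (∀ t ∈ J, t < r) ∨ (∀ t ∈ J, r < t) := by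
  by_contra hcon
  push Not at hcon
  obtain ⟨⟨t, ht, ht'⟩, u, hu, hu'⟩ := hcon
  exact hr (hJ.out hu ht ⟨hu', ht'⟩)

theorem Mob.comp {f : ℝ → ℝ} {B : List ℚ} (hf : Mob f B) (h : ℝ ≃o ℝ) {B' : List ℚ}
    (hh : Mob h B') (hB : ∀ r ∈ B, ∃ r' ∈ B', (r' : ℝ) = h.symm r) :
    Mob (fun t => f (h t)) B' := by
  intro J hJ hJB
  obtain ⟨a', b', c', d', hdet', h'⟩ := hh J hJ hJB
  have hJ2 : (h '' J).OrdConnected := by
    have := hJ
    exact Set.ordConnected_image h
  obtain ⟨a, b, c, d, hdet, h2⟩ := hf (h '' J) hJ2 (by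
    rintro r hr ⟨t, ht, hrt⟩
    obtain ⟨r', hr', e⟩ := hB r hr
    apply hJB r' hr'
    rw [e, ← hrt, h.symm_apply_apply]
    exact ht)
  refine ⟨a * a' + b * c', a * b' + b * d', c * a' + d * c', c * b' + d * d', ?_, ?_⟩
  · calc _ = (a * d - b * c) * (a' * d' - b' * c') := by ring
      _ = 1 := by rw [hdet, hdet', one_mul]
  · intro t ht
    obtain ⟨e1, e2⟩ := h' t ht
    obtain ⟨e3, e4⟩ := h2 (h t) ⟨t, ht, rfl⟩
    have e5 : (c : ℝ) * h t + d = ((c * a' + d * c' : ℤ) * t + (c * b' + d * d' : ℤ)) / (c' * t + d') := by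
      rw [e2, eq_div_iff e1, add_mul, mul_assoc, div_mul_cancel₀ _ e1]; push_cast; ring
    have e6 : (a : ℝ) * h t + b = ((a * a' + b * c' : ℤ) * t + (a * b' + b * d' : ℤ)) / (c' * t + d') := by
      rw [e2, eq_div_iff e1, add_mul, mul_assoc, div_mul_cancel₀ _ e1]; push_cast; ring
    rw [e5] at e3
    have e7 : ((c * a' + d * c' : ℤ) : ℝ) * t + (c * b' + d * d' : ℤ) ≠ 0 := by
      intro h0; rw [h0, zero_div] at e3; exact e3 rfl
    refine ⟨e7, ?_⟩
    dsimp only
    rw [e4, e5, e6, div_div_div_cancel_right₀ e1]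

theorem mob_shift (m : ℤ) : Mob (tO ^ m : ℝ ≃o ℝ) [] := by
  intro J hJ _
  exact ⟨1, m, 0, 1, by ring, fun t _ => by
    rw [tO_zpow_apply]; norm_num⟩

theorem mob_bI : Mob bI [0, 1, 2] := by
  intro J hJ hB
  have h0 := side hJ (hB 0 (by simp))
  have h1 := side hJ (hB 1 (by simp))
  have h2 := side hJ (hB 2 (by simp))
  push_cast at h0 h1 h2
  rcases h0 with h0 | h0
  · exact ⟨1, 0, 0, 1, by ring, fun t ht => by
      rw [bI_1 (h0 t ht).le]; norm_num⟩
  rcases h1 with h1 | h1
  · refine ⟨1, 0, 1, 1, by ring, fun t ht => ?_⟩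
    have e0 := h0 t ht
    have e1 := h1 t ht
    rw [bI_2 e0.le e1.le]
    push_cast
    exact ⟨by linarith, by ring_nf⟩
  rcases h2 with h2 | h2
  · refine ⟨0, 1, -1, 3, by ring, fun t ht => ?_⟩
    have e0 := h1 t ht
    have e1 := h2 t ht
    rw [bI_3 e0.le e1.le]
    push_cast
    exact ⟨by linarith, by ring_nf⟩
  · exact ⟨1, -1, 0, 1, by ring, fun t ht => by
      rw [bI_4 (h2 t ht).le]; push_cast; exact ⟨by norm_num, by ring⟩⟩

/-- The rational version of `b`. -/
def phi (r : ℚ) : ℚ :=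
  if r ≤ 0 then r else if r ≤ 1 / 2 then r / (1 - r) else if r ≤ 1 then 3 - 1 / r else r + 1

theorem phi_cast (r : ℚ) : ((phi r : ℚ) : ℝ) = bF r := by
  have e1 : ((r : ℝ) ≤ 0) ↔ r ≤ 0 := by exact_mod_cast Iff.rfl
  have e2 : ((r : ℝ) ≤ 1 / 2) ↔ r ≤ 1 / 2 := by
    constructor
    · intro h
      have : (r : ℝ) ≤ ((1 / 2 : ℚ) : ℝ) := by push_cast; exact h
      exact_mod_cast this
    · intro h
      have : (r : ℝ) ≤ ((1 / 2 : ℚ) : ℝ) := by exact_mod_cast h
      push_cast at this; exact this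
  have e3 : ((r : ℝ) ≤ 1) ↔ r ≤ 1 := by exact_mod_cast Iff.rfl
  rw [phi, bF]
  simp only [e1, e2, e3]
  split_ifs <;> push_cast <;> rfl

theorem den_div_le (a b : ℤ) (hb : 0 < b) : (((a : ℚ) / (b : ℚ)).den : ℤ) ≤ b := by
  have := Rat.den_dvd a b
  rw [Rat.divInt_eq_div] at this
  exact Int.le_of_dvd hb this

theorem phi_den (r : ℚ) : (phi r).den ≤ r.den ∧ (0 < r → r < 1 → (phi r).den < r.den) := by
  have hq : (0 : ℤ) < r.den := by exact_mod_cast r.den_pos
  have hr : (r : ℚ) = (r.num : ℚ) / ((r.den : ℤ) : ℚ) := by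
    push_cast; exact (Rat.num_div_den r).symm
  rw [phi]
  split_ifs with h0 h1 h2
  · exact ⟨le_rfl, fun h => absurd h0 (not_le.2 h)⟩
  · have hp : 0 < r.num := Rat.num_pos.2 (not_le.1 h0)
    have hpq : (r.num : ℤ) < r.den := by
      have : r < 1 := by linarith
      exact Rat.num_lt_denom_iff.2 this |> fun h => h
    have e : r / (1 - r) = ((r.num : ℤ) : ℚ) / ((r.den - r.num : ℤ) : ℚ) := by
      have hq' : ((r.den : ℤ) : ℚ) ≠ 0 := by exact_mod_cast hq.ne'
      have hqp : (((r.den : ℤ) : ℚ) - (r.num : ℚ)) ≠ 0 := by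
        have : (0 : ℤ) < r.den - r.num := by omega
        have : (0 : ℚ) < ((r.den - r.num : ℤ) : ℚ) := by exact_mod_cast this
        push_cast at this ⊢
        exact this.ne'
      conv_lhs => rw [hr]
      push_cast at hqp hq' ⊢
      rw [one_sub_div hq', div_div_div_cancel_right₀ hq']
    have := den_div_le r.num (r.den - r.num) (by omega)
    rw [← e] at this
    constructor
    · omega
    · intro _ _; omega
  · have hp : 0 < r.num := Rat.num_pos.2 (not_le.1 h0)
    have e : 3 - 1 / r = ((3 * r.num - r.den : ℤ) : ℚ) / ((r.num : ℤ) : ℚ) := by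
      have hq' : ((r.den : ℤ) : ℚ) ≠ 0 := by exact_mod_cast hq.ne'
      have hp' : ((r.num : ℤ) : ℚ) ≠ 0 := by exact_mod_cast hp.ne'
      conv_lhs => rw [hr]
      push_cast at hq' ⊢
      rw [one_div_div, sub_div, mul_div_assoc, div_self hp', mul_one]
    have := den_div_le (3 * r.num - r.den) r.num hp
    rw [← e] at this
    have hle : (r.num : ℤ) ≤ r.den := by
      rcases h2.eq_or_lt with h | h
      · rw [h]; norm_num
      · exact (Rat.num_lt_denom_iff.2 h).le
    refine ⟨by omega, fun _ h => ?_⟩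
    have : (r.num : ℤ) < r.den := Rat.num_lt_denom_iff.2 h
    omega
  · have : (r + 1).den = r.den := by
      have := Rat.add_intCast_den r 1
      push_cast at this; exact this
    rw [this]
    exact ⟨le_rfl, fun _ h => absurd h.le h2⟩

/-- Measure of a list of breakpoints. -/
def mu (B : List ℚ) : ℕ := (B.map fun r => r.den - 1).sum

theorem normalize : ∀ (n : ℕ) (f : ℝ ≃o ℝ) (B : List ℚ), Mob f B → mu B ≤ n →
    ∃ g ∈ F0, ∃ B' : List ℚ, Mob (f * g : ℝ ≃o ℝ) B' ∧ ∀ r ∈ B', r.den = 1 := by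
  intro n
  induction n with
  | zero =>
    intro f B hf hB
    refine ⟨1, one_mem _, B, by rw [mul_one]; exact hf, fun r hr => ?_⟩
    have h1 : r.den - 1 ∈ B.map fun r => r.den - 1 := List.mem_map.2 ⟨r, hr, rfl⟩
    have h2 := List.single_le_sum (fun _ _ => Nat.zero_le _) _ h1
    have := r.den_pos
    unfold mu at hB
    omega
  | succ n ih =>
    intro f B hf hB
    by_cases hall : ∀ r ∈ B, r.den = 1
    · exact ⟨1, one_mem _, B, by rw [mul_one]; exact hf, hall⟩
    push Not at hall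
    obtain ⟨r0, hr0, hd0⟩ := hall
    set m := ⌊r0⌋ with hm
    have hf1 : Mob (fun t => f ((tO ^ m : ℝ ≃o ℝ) t)) (B.map fun r => r - m) := by
      refine hf.comp _ (B' := B.map fun r => r - m) ?_ ?_
      · intro J hJ _
        exact mob_shift m J hJ (by simp)
      · intro r hr
        refine ⟨r - m, List.mem_map.2 ⟨r, hr, rfl⟩, ?_⟩
        rw [OrderIso.eq_symm_apply, tO_zpow_apply]
        push_cast; ring
    have hf2 : Mob (fun t => f ((tO ^ m : ℝ ≃o ℝ) (bI t)))
        ((B.map fun r => phi (r - m)) ++ [0, 1, 2]) := by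
      have := hf1.comp (bO⁻¹) (B' := (B.map fun r => phi (r - m)) ++ [0, 1, 2]) ?_ ?_
      · exact this
      · intro J hJ hJB
        exact mob_bI J hJ (fun r hr => hJB r (List.mem_append_right _ hr))
      · intro r hr
        rw [List.mem_map] at hr
        obtain ⟨r1, hr1, rfl⟩ := hr
        refine ⟨phi (r1 - m), List.mem_append_left _ (List.mem_map.2 ⟨r1, hr1, rfl⟩), ?_⟩
        rw [phi_cast]; rfl
    have hden : ∀ r : ℚ, (r - m).den = r.den := fun r => Rat.sub_intCast_den r m
    have hmu : mu ((B.map fun r => phi (r - m)) ++ [0, 1, 2]) < mu B := by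
      unfold mu
      rw [List.map_append, List.sum_append, List.map_map]
      have h0 : (List.map (fun r : ℚ => r.den - 1) [0, 1, 2]).sum = 0 := by
        simp
      rw [h0, add_zero]
      apply List.sum_lt_sum
      · intro r _
        have := (phi_den (r - m)).1
        rw [hden] at this
        dsimp only [Function.comp]
        omega
      · refine ⟨r0, hr0, ?_⟩
        have hpos : 0 < r0 - m := by
          have h1 : (m : ℚ) ≤ r0 := Int.floor_le r0
          rcases h1.eq_or_lt with h | h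
          · exfalso
            apply hd0
            rw [← h]; exact Rat.den_intCast m
          · linarith
        have hlt : r0 - m < 1 := by
          have := Int.lt_floor_add_one r0
          linarith
        have h3 := (phi_den (r0 - m)).2 hpos hlt
        rw [hden] at h3
        have := (phi (r0 - m)).den_pos
        dsimp only [Function.comp]
        omega
    obtain ⟨g, hg, B', h1, h2⟩ := ih (f * (tO ^ m * bO⁻¹)) _ hf2 (by omega)
    refine ⟨tO ^ m * bO⁻¹ * g, mul_mem (mul_mem (Subgroup.zpow_mem _ tO_mem _)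
      (inv_mem bO_mem)) hg, B', ?_, h2⟩
    rw [← mul_assoc]
    exact h1

theorem uniq {F : ℝ} {x y x' y' : ℤ} (hy : 0 < y) (hy' : 0 < y') (h : F * y = x)
    (h' : F * y' = x') {α β α' β' : ℤ} (e : α * x + β * y = 1) (e' : α' * x' + β' * y' = 1) :
    x = x' ∧ y = y' := by
  have hc : x * y' = x' * y := by
    have : (x : ℝ) * y' = x' * y := by rw [← h, ← h']; ring
    exact_mod_cast this
  have d1 : y' ∣ y := ⟨α' * x + β' * y, by linear_combination (-y) * e' - α' * hc⟩
  have d2 : y ∣ y' := ⟨α * x' + β * y', by linear_combination (-y') * e + α * hc⟩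
  have hyy : y = y' := Int.dvd_antisymm hy.le hy'.le d2 d1
  refine ⟨?_, hyy⟩
  subst hyy
  exact mul_right_cancel₀ hy.ne' hc

theorem piece {f : ℝ ≃o ℝ} {B : List ℚ} (hf : Mob f B) (hB : ∀ r ∈ B, r.den = 1) (i : ℤ) :
    ∃ a b c d : ℤ, a * d - b * c = 1 ∧ 0 < c * i + d ∧ 0 < c * (i + 1) + d ∧
      ∀ t : ℝ, (i : ℝ) ≤ t → t ≤ i + 1 → f t * (c * t + d) = a * t + b := by
  obtain ⟨a, b, c, d, hdet, h⟩ := hf (Set.Ioo (i : ℝ) (i + 1)) Set.ordConnected_Ioo (by
    rintro r hr ⟨h1, h2⟩
    have e : (r : ℝ) = (r.num : ℤ) := by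
      have : r = r.num := (Rat.den_eq_one_iff r).1 (hB r hr) |>.symm
      rw [this]; simp
    rw [e] at h1 h2
    have h1' : i < r.num := by exact_mod_cast h1
    have h2' : r.num < i + 1 := by exact_mod_cast h2
    omega)
  have hcl : ∀ t : ℝ, (i : ℝ) ≤ t → t ≤ i + 1 → f t * (c * t + d) = a * t + b := by
    have heq : Set.EqOn (fun t : ℝ => f t * (c * t + d)) (fun t : ℝ => a * t + b)
        (Set.Ioo (i : ℝ) (i + 1)) := by
      intro t ht
      obtain ⟨e1, e2⟩ := h t ht
      dsimp only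
      rw [e2, div_mul_cancel₀ _ e1]
    have := heq.closure (f.continuous.mul (by fun_prop)) (by fun_prop)
    rw [closure_Ioo (by linarith)] at this
    intro t h1 h2
    exact this ⟨h1, h2⟩
  have hne : ∀ t : ℝ, (i : ℝ) ≤ t → t ≤ i + 1 → (c : ℝ) * t + d ≠ 0 := by
    intro t h1 h2 h0
    have k := hcl t h1 h2
    rw [h0, mul_zero] at k
    have hdet' : (a : ℝ) * d - b * c = 1 := by exact_mod_cast hdet
    have : (a : ℝ) * (c * t + d) - c * (a * t + b) = 1 := by linear_combination hdet'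
    rw [h0, ← k] at this
    norm_num at this
  have n0 : c * i + d ≠ 0 := by
    intro h0
    apply hne i le_rfl (by linarith)
    exact_mod_cast h0
  have n1 : c * (i + 1) + d ≠ 0 := by
    intro h0
    apply hne (i + 1) (by linarith) le_rfl
    exact_mod_cast h0
  -- same sign
  have same : 0 < (c * i + d) * (c * (i + 1) + d) := by
    rcases lt_or_gt_of_ne (mul_ne_zero n0 n1) with hlt | hgt
    · exfalso
      have hx : ((c * i + d : ℤ) : ℝ) * ((c * (i + 1) + d : ℤ) : ℝ) < 0 := by exact_mod_cast hlt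
      generalize hX : ((c * i + d : ℤ) : ℝ) = x at hx
      generalize hY : ((c * (i + 1) + d : ℤ) : ℝ) = y at hx
      have hxy : x - y ≠ 0 := by
        intro h0
        have : x = y := by linarith
        rw [this] at hx
        nlinarith [mul_self_nonneg y]
      have hc : (c : ℝ) = y - x := by rw [← hX, ← hY]; push_cast; ring
      have hu : 0 ≤ x / (x - y) ∧ x / (x - y) ≤ 1 := by
        rcases mul_neg_iff.1 hx with ⟨p, q⟩ | ⟨p, q⟩
        · exact ⟨div_nonneg p.le (by linarith), by rw [div_le_one (by linarith)]; linarith⟩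
        · constructor
          · exact div_nonneg_of_nonpos p.le (by linarith)
          · rw [div_le_one_of_neg (by linarith)]; linarith
      apply hne (i + x / (x - y)) (by linarith [hu.1]) (by linarith [hu.2])
      have hX' : (c : ℝ) * i + d = x := by rw [← hX]; push_cast; ring
      have : (c : ℝ) * (i + x / (x - y)) + d = ((c : ℝ) * i + d) + c * (x / (x - y)) := by ring
      rw [this, hX', hc]
      field_simp; ring
    · exact hgt
  rcases lt_or_gt_of_ne n0 with hs | hs
  · refine ⟨-a, -b, -c, -d, by linear_combination hdet, by linarith, ?_, ?_⟩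
    · have : c * (i + 1) + d < 0 := by
        by_contra hh
        have := mul_nonpos_of_nonpos_of_nonneg hs.le (not_lt.1 hh)
        omega
      linarith
    · intro t h1 h2
      have := hcl t h1 h2
      push_cast
      linear_combination -this
  · refine ⟨a, b, c, d, hdet, hs, ?_, hcl⟩
    exact (mul_pos_iff_of_pos_left hs).1 same

theorem growth_top {f : ℝ ≃o ℝ} {M : ℝ} {a b c d : ℤ} (hdet : a * d - b * c = 1)
    (h : ∀ t, M < t → (c : ℝ) * t + d ≠ 0 ∧ f t = (a * t + b) / (c * t + d)) : c = 0 := by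
  by_contra hc
  have hdet' : (a : ℝ) * d - b * c = 1 := by exact_mod_cast hdet
  have hc' : (c : ℝ) ≠ 0 := by exact_mod_cast hc
  have hc2 : (1 : ℝ) ≤ c * c := by
    have : (1 : ℤ) ≤ c * c := by
      have := mul_self_pos.2 hc
      omega
    exact_mod_cast this
  set t0 := max (M + 1) (f.symm (a / c + 1)) with ht0
  have hf0 : (a : ℝ) / c + 1 ≤ f t0 := by
    have := f.monotone (le_max_right (M + 1) (f.symm (a / c + 1)))
    rwa [f.apply_symm_apply] at this
  set t1 := max t0 (|(c : ℝ) * d| + 1) with ht1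
  have h01 : t0 ≤ t1 := le_max_left _ _
  have hM : M < t1 := by
    have : M + 1 ≤ t0 := le_max_left _ _
    linarith
  obtain ⟨e1, e2⟩ := h t1 hM
  have h1 : |(c : ℝ) * d| + 1 ≤ t1 := le_max_right _ _
  have hpos : 0 < (c : ℝ) * (c * t1 + d) := by
    have := neg_abs_le ((c : ℝ) * d)
    have ht1' : 0 ≤ t1 := by linarith [abs_nonneg ((c : ℝ) * d)]
    have : t1 ≤ c * c * t1 := by nlinarith
    nlinarith
  have e3 : f t1 = a / c - 1 / (c * (c * t1 + d)) := by
    rw [e2, div_sub_div _ _ hc' (mul_ne_zero hc' e1),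
      div_eq_div_iff e1 (mul_ne_zero hc' (mul_ne_zero hc' e1))]
    linear_combination (-(c : ℝ) * (c * t1 + d)) * hdet'
  have : 0 < 1 / ((c : ℝ) * (c * t1 + d)) := by positivity
  have h2 := f.monotone h01
  linarith

theorem growth_bot {f : ℝ ≃o ℝ} {M : ℝ} {a b c d : ℤ} (hdet : a * d - b * c = 1)
    (h : ∀ t, t < M → (c : ℝ) * t + d ≠ 0 ∧ f t = (a * t + b) / (c * t + d)) : c = 0 := by
  by_contra hc
  have hdet' : (a : ℝ) * d - b * c = 1 := by exact_mod_cast hdet
  have hc' : (c : ℝ) ≠ 0 := by exact_mod_cast hc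
  have hc2 : (1 : ℝ) ≤ c * c := by
    have : (1 : ℤ) ≤ c * c := by
      have := mul_self_pos.2 hc
      omega
    exact_mod_cast this
  set t0 := min (M - 1) (f.symm (a / c - 1)) with ht0
  have hf0 : f t0 ≤ (a : ℝ) / c - 1 := by
    have := f.monotone (min_le_right (M - 1) (f.symm (a / c - 1)))
    rwa [f.apply_symm_apply] at this
  set t1 := min t0 (-|(c : ℝ) * d| - 1) with ht1
  have h01 : t1 ≤ t0 := min_le_left _ _
  have hM : t1 < M := by
    have : t0 ≤ M - 1 := min_le_left _ _
    linarith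
  obtain ⟨e1, e2⟩ := h t1 hM
  have h1 : t1 ≤ -|(c : ℝ) * d| - 1 := min_le_right _ _
  have hneg : (c : ℝ) * (c * t1 + d) < 0 := by
    have := le_abs_self ((c : ℝ) * d)
    have ht1' : t1 ≤ 0 := by linarith [abs_nonneg ((c : ℝ) * d)]
    have : c * c * t1 ≤ t1 := by nlinarith
    nlinarith
  have e3 : f t1 = a / c - 1 / (c * (c * t1 + d)) := by
    rw [e2, div_sub_div _ _ hc' (mul_ne_zero hc' e1),
      div_eq_div_iff e1 (mul_ne_zero hc' (mul_ne_zero hc' e1))]
    linear_combination (-(c : ℝ) * (c * t1 + d)) * hdet'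
  have : 1 / ((c : ℝ) * (c * t1 + d)) < 0 := one_div_neg.2 hneg
  have h2 := f.monotone h01
  linarith

theorem mem_of_mob {f : ℝ ≃o ℝ} {B : List ℚ} (hf : Mob f B) (hB : ∀ r ∈ B, r.den = 1) :
    f ∈ F0 := by
  choose a b c d hdet hp0 hp1 hfe using piece hf hB
  set N : ℤ → ℤ := fun i => a i * i + b i with hN
  set D : ℤ → ℤ := fun i => c i * i + d i with hD
  have hbez : ∀ i, (-(c i)) * N i + a i * D i = 1 := by
    intro i
    have := hdet i
    simp only [hN, hD]
    linear_combination this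
  have hval : ∀ i : ℤ, f i * D i = N i := by
    intro i
    have := hfe i i le_rfl (by linarith)
    simp only [hN, hD]
    push_cast
    exact this
  have hnext : ∀ i : ℤ, N (i + 1) = a i * (i + 1) + b i ∧ D (i + 1) = c i * (i + 1) + d i := by
    intro i
    have h1 := hval (i + 1)
    have h2 := hfe i (i + 1) (by linarith) le_rfl
    have h3 := hbez (i + 1)
    refine uniq (F := f ((i + 1 : ℤ) : ℝ)) (hp0 (i + 1)) (hp1 i) h1 ?_ h3
      (α' := -(c i)) (β' := a i) ?_
    · push_cast
      exact h2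
    · have := hdet i
      linear_combination this
  have hone : ∀ i : ℤ, (∃ n : ℤ, f i = n) → D i = 1 := by
    rintro i ⟨n, hn⟩
    refine (uniq (F := f (i : ℝ)) (hp0 i) one_pos (hval i) (x' := n) ?_ (hbez i)
      (α' := 0) (β' := 1) (by ring)).2
    rw [hn]; push_cast; ring
  have hlin : Lin f N D := by
    refine ⟨hp0, ?_, ?_⟩
    · intro i
      have := hdet i
      rw [(hnext i).1, (hnext i).2]
      simp only [hN, hD]
      linear_combination this
    · intro i u hu0 hu1
      have h1 := hfe i (i + u) (by linarith) (by linarith)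
      have p0 : (0 : ℝ) < (c i : ℝ) * i + d i := by exact_mod_cast hp0 i
      have p1 : (0 : ℝ) < (c i : ℝ) * (i + 1) + d i := by exact_mod_cast hp1 i
      have e1 : (1 - u) * (D i : ℝ) + u * D (i + 1) = c i * (i + u) + d i := by
        rw [(hnext i).2]; simp only [hD]; push_cast; ring
      have e2 : (1 - u) * (N i : ℝ) + u * N (i + 1) = a i * (i + u) + b i := by
        rw [(hnext i).1]; simp only [hN]; push_cast; ring
      have pos : 0 < (c i : ℝ) * (i + u) + d i := by
        have : (c i : ℝ) * (i + u) + d i = (1 - u) * (c i * i + d i) + u * (c i * (i + 1) + d i) := by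
          ring
        rw [this]
        rcases hu0.eq_or_lt with h | h
        · rw [← h]; linarith
        · have := mul_pos h p1
          have := mul_nonneg (sub_nonneg.2 hu1) p0.le
          linarith
      rw [e1, e2, eq_div_iff pos.ne']
      exact h1
  -- the ends
  obtain ⟨M, hM⟩ : ∃ M : ℤ, ∀ r ∈ B, |(r : ℝ)| < M := by
    refine ⟨⌈(B.map fun r : ℚ => |(r : ℝ)|).sum⌉ + 1, fun r hr => ?_⟩
    have h1 : |(r : ℝ)| ∈ B.map fun r : ℚ => |(r : ℝ)| := List.mem_map.2 ⟨r, hr, rfl⟩
    have h2 := List.single_le_sum (l := B.map fun r : ℚ => |(r : ℝ)|) (by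
      intro x hx
      rw [List.mem_map] at hx
      obtain ⟨r', _, rfl⟩ := hx
      exact abs_nonneg _) _ h1
    have h3 := Int.le_ceil (B.map fun r : ℚ => |(r : ℝ)|).sum
    push_cast
    linarith
  have htop : ∀ i : ℤ, M < i → D i = 1 := by
    obtain ⟨a', b', c', d', hdet', h'⟩ := hf (Set.Ioi (M : ℝ)) Set.ordConnected_Ioi (by
      intro r hr h
      have := hM r hr
      have h2 := le_abs_self (r : ℝ)
      have h3 : (M : ℝ) < r := h
      linarith)
    have hc := growth_top hdet' (M := M) (fun t ht => h' t ht)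
    subst hc
    intro i hi
    apply hone
    have hi' : (M : ℝ) < i := by exact_mod_cast hi
    obtain ⟨_, e⟩ := h' i hi'
    have had : a' * d' = 1 := by linarith
    rcases Int.eq_one_or_neg_one_of_mul_eq_one' had with ⟨h1, h2⟩ | ⟨h1, h2⟩
    · refine ⟨i + b', ?_⟩
      rw [e, h1, h2]; push_cast; ring
    · refine ⟨i - b', ?_⟩
      rw [e, h1, h2]; push_cast; ring
  have hbot : ∀ i : ℤ, i < -M → D i = 1 := by
    obtain ⟨a', b', c', d', hdet', h'⟩ := hf (Set.Iio (-M : ℝ)) Set.ordConnected_Iio (by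
      intro r hr h
      have := hM r hr
      have h2 := neg_abs_le (r : ℝ)
      have h3 : (r : ℝ) < -M := h
      linarith)
    have hc := growth_bot hdet' (M := -M) (fun t ht => h' t ht)
    subst hc
    intro i hi
    apply hone
    have hi' : (i : ℝ) < -M := by exact_mod_cast hi
    obtain ⟨_, e⟩ := h' i hi'
    have had : a' * d' = 1 := by linarith
    rcases Int.eq_one_or_neg_one_of_mul_eq_one' had with ⟨h1, h2⟩ | ⟨h1, h2⟩
    · refine ⟨i + b', ?_⟩
      rw [e, h1, h2]; push_cast; ring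
    · refine ⟨i - b', ?_⟩
      rw [e, h1, h2]; push_cast; ring
  refine Lin.mem (2 * (M.toNat + 1)) f N D (-(M.toNat : ℤ) - 1) hlin (fun i hi => ?_)
    (fun i hi => ?_)
  · apply hbot
    omega
  · apply htop
    push_cast at hi
    omega

/-- Every piecewise integral Möbius order automorphism of the line is in the group generated by
`τ` and `b`. -/
theorem mem_F0 {f : ℝ ≃o ℝ} {B : List ℚ} (hf : Mob f B) : f ∈ F0 := by
  obtain ⟨g, hg, B', h1, h2⟩ := normalize _ f B hf le_rfl
  have := mul_mem (mem_of_mob h1 h2) (inv_mem hg)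
  rwa [mul_inv_cancel_right] at this

end Q21.CS
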