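import Pool.Agent.Q21.CS3

namespace Q21.CS

open OnePoint Filter Topology

/-- The group of homeomorphisms of the circle `ℝ ∪ {∞}`. -/
abbrev G := OnePoint ℝ ≃ₜ OnePoint ℝ

/-- Order automorphisms of the line as homeomorphisms of the circle. -/
noncomputable def E : (ℝ ≃o ℝ) →* G where
  toFun f := f.toHomeomorph.onePointCongr
  map_one' := by ext x; cases x using OnePoint.rec <;> rfl
  map_mul' f g := by ext x; cases x using OnePoint.rec <;> rfl

theorem E_coe (f : ℝ ≃o ℝ) (t : ℝ) : E f (t : OnePoint ℝ) = ((f t : ℝ) : OnePoint ℝ) := rfl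
theorem E_inf (f : ℝ ≃o ℝ) : E f ∞ = ∞ := rfl
theorem E_inv_coe (f : ℝ ≃o ℝ) (t : ℝ) :
    (E f)⁻¹ (t : OnePoint ℝ) = ((f⁻¹ t : ℝ) : OnePoint ℝ) := by
  rw [← map_inv, E_coe]
theorem E_inv_inf (f : ℝ ≃o ℝ) : (E f)⁻¹ ∞ = ∞ := by
  rw [← map_inv, E_inf]

/-- The function `t ↦ -1/t`. -/
noncomputable def iF (x : OnePoint ℝ) : OnePoint ℝ :=
  OnePoint.elim x ((0 : ℝ) : OnePoint ℝ)
    (fun t : ℝ => if t = 0 then (∞ : OnePoint ℝ) else ((-1 / t : ℝ) : OnePoint ℝ))

theorem iF_inf : iF ∞ = ((0 : ℝ) : OnePoint ℝ) := rfl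
theorem iF_coe (t : ℝ) : iF (t : OnePoint ℝ) =
    if t = 0 then (∞ : OnePoint ℝ) else ((-1 / t : ℝ) : OnePoint ℝ) := rfl
theorem iF_zero : iF ((0 : ℝ) : OnePoint ℝ) = ∞ := by rw [iF_coe, if_pos rfl]
theorem iF_ne {t : ℝ} (h : t ≠ 0) : iF (t : OnePoint ℝ) = ((-1 / t : ℝ) : OnePoint ℝ) := by
  rw [iF_coe, if_neg h]

theorem iF_iF (x : OnePoint ℝ) : iF (iF x) = x := by
  cases x using OnePoint.rec with
  | infty => rw [iF_inf, iF_zero]
  | coe t =>
    rcases eq_or_ne t 0 with h | h
    · subst h; rw [iF_zero, iF_inf]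
    · have h2 : (-1 : ℝ) / t ≠ 0 := div_ne_zero (by norm_num) h
      rw [iF_ne h, iF_ne h2]
      congr 1
      field_simp

theorem iF_continuous : Continuous iF := by
  rw [OnePoint.continuous_iff, Filter.coclosedCompact_eq_cocompact,
    ← Metric.cobounded_eq_cocompact]
  constructor
  · rw [iF_inf]
    have h1 : Tendsto (fun x : ℝ => -1 / x) (Bornology.cobounded ℝ) (𝓝 0) := by
      have := (tendsto_inv₀_cobounded (α := ℝ)).const_mul (-1)
      simpa [div_eq_mul_inv] using this
    have h2 := (continuous_coe.tendsto (0 : ℝ)).comp h1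
    refine h2.congr' ?_
    have : ∀ᶠ x : ℝ in Bornology.cobounded ℝ, x ≠ 0 :=
      Bornology.eventually_ne_cobounded 0
    filter_upwards [this] with x hx
    rw [Function.comp, iF_ne hx]
  · rw [continuous_iff_continuousAt]
    intro t
    rcases eq_or_ne t 0 with h | h
    · subst h
      rw [continuousAt_iff_punctured_nhds]
      have h1 : Tendsto (fun x : ℝ => -1 / x) (𝓝[≠] 0) (Bornology.cobounded ℝ) := by
        have := (tendsto_inv₀_nhdsNE_zero (α := ℝ))
        have h2 := this.comp (show Tendsto (fun x : ℝ => -x) (𝓝[≠] 0) (𝓝[≠] 0) from by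
          rw [tendsto_nhdsWithin_iff]
          refine ⟨?_, ?_⟩
          · have := (continuous_neg (G := ℝ)).tendsto 0
            rw [neg_zero] at this
            exact this.mono_left nhdsWithin_le_nhds
          · filter_upwards [self_mem_nhdsWithin] with x hx
            simpa using hx)
        refine h2.congr (fun x => ?_)
        simp [div_eq_mul_inv, inv_neg]
      have h3 : Tendsto (fun x : ℝ => (x : OnePoint ℝ)) (Bornology.cobounded ℝ) (𝓝 ∞) := by
        have := tendsto_coe_infty (X := ℝ)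
        rwa [Filter.coclosedCompact_eq_cocompact, ← Metric.cobounded_eq_cocompact] at this
      have h4 := h3.comp h1
      rw [iF_zero]
      refine h4.congr' ?_
      filter_upwards [self_mem_nhdsWithin] with x hx
      rw [Function.comp, iF_ne hx]
    · have h1 : ContinuousAt (fun x : ℝ => ((-1 / x : ℝ) : OnePoint ℝ)) t := by
        refine continuous_coe.continuousAt.comp ?_
        exact continuousAt_const.div continuousAt_id h
      refine h1.congr ?_
      filter_upwards [isOpen_ne.mem_nhds h] with x hx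
      rw [iF_ne hx]

/-- The rotation `t ↦ -1/t`. -/
noncomputable def iG : G where
  toFun := iF
  invFun := iF
  left_inv := iF_iF
  right_inv := iF_iF
  continuous_toFun := iF_continuous
  continuous_invFun := iF_continuous

theorem iG_inf : iG ∞ = ((0 : ℝ) : OnePoint ℝ) := rfl
theorem iG_zero : iG ((0 : ℝ) : OnePoint ℝ) = ∞ := iF_zero
theorem iG_ne {t : ℝ} (h : t ≠ 0) : iG (t : OnePoint ℝ) = ((-1 / t : ℝ) : OnePoint ℝ) := iF_ne h
theorem iG_coe (t : ℝ) : iG (t : OnePoint ℝ) =
    if t = 0 then (∞ : OnePoint ℝ) else ((-1 / t : ℝ) : OnePoint ℝ) := rfl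

theorem iG_sq : iG * iG = 1 := by
  ext x; exact iF_iF x

theorem iG_inv : iG⁻¹ = iG := inv_eq_of_mul_eq_one_left iG_sq

/-- The subgroup generated by `τ`, `ι` and `b`. -/
noncomputable def T0 : Subgroup G := Subgroup.closure {E tO, iG, E bO}

theorem T0_t : E tO ∈ T0 := Subgroup.subset_closure (by simp)
theorem T0_i : iG ∈ T0 := Subgroup.subset_closure (by simp)
theorem T0_b : E bO ∈ T0 := Subgroup.subset_closure (by simp)

theorem T0_F0 {f : ℝ ≃o ℝ} (hf : f ∈ F0) : E f ∈ T0 := by
  have h : F0.map E ≤ T0 := by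
    unfold F0
    rw [MonoidHom.map_closure, Subgroup.closure_le]
    rintro _ ⟨g, hg, rfl⟩
    rcases hg with rfl | hg
    · exact T0_t
    · rw [Set.mem_singleton_iff.1 hg]; exact T0_b
  exact h ⟨f, hf, rfl⟩

/-- The action of an integral matrix on the circle. -/
noncomputable def act (A : Matrix.SpecialLinearGroup (Fin 2) ℤ) (x : OnePoint ℝ) : OnePoint ℝ :=
  (Matrix.SpecialLinearGroup.mapGL ℝ A : GL (Fin 2) ℝ) • x

theorem act_mul (A B : Matrix.SpecialLinearGroup (Fin 2) ℤ) (x : OnePoint ℝ) :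
    act (A * B) x = act A (act B x) := by
  simp only [act, map_mul, mul_smul]

theorem act_one (x : OnePoint ℝ) : act 1 x = x := by
  simp only [act, map_one, one_smul]

theorem act_coe (A : Matrix.SpecialLinearGroup (Fin 2) ℤ) (t : ℝ) :
    act A (t : OnePoint ℝ) = mob (A 0 0) (A 0 1) (A 1 0) (A 1 1) t := by
  rw [act, smul_some_eq_ite, mob]
  simp only [Matrix.SpecialLinearGroup.mapGL_coe_matrix]
  rfl

theorem act_inf (A : Matrix.SpecialLinearGroup (Fin 2) ℤ) :
    act A ∞ = if (A 1 0 : ℝ) = 0 then (∞ : OnePoint ℝ) else (((A 0 0 : ℝ) / A 1 0 : ℝ) : OnePoint ℝ) := by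
  rw [act, smul_infty_eq_ite]
  simp only [Matrix.SpecialLinearGroup.mapGL_coe_matrix]
  rfl

theorem act_S (x : OnePoint ℝ) : act ModularGroup.S x = iG x := by
  cases x using OnePoint.rec with
  | infty =>
    rw [act_inf, iG_inf]
    simp [ModularGroup.S]
  | coe t =>
    rw [act_coe, iG_coe, mob]
    simp [ModularGroup.S]

theorem act_T (x : OnePoint ℝ) : act ModularGroup.T x = E tO x := by
  cases x using OnePoint.rec with
  | infty =>
    rw [act_inf, E_inf]
    simp [ModularGroup.T]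
  | coe t =>
    rw [act_coe, E_coe, mob, tO_apply]
    simp [ModularGroup.T]

theorem realize (A : Matrix.SpecialLinearGroup (Fin 2) ℤ) : ∃ h ∈ T0, ∀ x, h x = act A x := by
  have hA : A ∈ Subgroup.closure {ModularGroup.S, ModularGroup.T} := by
    rw [SpecialLinearGroup.SL2Z_generators]; trivial
  induction hA using Subgroup.closure_induction with
  | mem x hx =>
    rcases hx with rfl | hx
    · exact ⟨iG, T0_i, fun x => (act_S x).symm⟩
    · rw [Set.mem_singleton_iff.1 hx]
      exact ⟨E tO, T0_t, fun x => (act_T x).symm⟩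
  | one => exact ⟨1, one_mem _, fun x => (act_one x).symm⟩
  | mul x y _ _ ihx ihy =>
    obtain ⟨h1, m1, e1⟩ := ihx
    obtain ⟨h2, m2, e2⟩ := ihy
    refine ⟨h1 * h2, mul_mem m1 m2, fun x => ?_⟩
    rw [Homeomorph.mul_apply, e1, e2, act_mul]
  | inv x _ ih =>
    obtain ⟨h, m, e⟩ := ih
    refine ⟨h⁻¹, inv_mem m, fun z => ?_⟩
    rw [Homeomorph.inv_apply, Homeomorph.symm_apply_eq, e, ← act_mul, mul_inv_cancel, act_one]

/-- Entries to matrix. -/
def mk (a b c d : ℤ) (h : a * d - b * c = 1) : Matrix.SpecialLinearGroup (Fin 2) ℤ :=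
  ⟨!![a, b; c, d], by rw [Matrix.det_fin_two_of]; exact h⟩

theorem act_mk {a b c d : ℤ} (h : a * d - b * c = 1) (t : ℝ) :
    act (mk a b c d h) (t : OnePoint ℝ) = mob a b c d t := by
  rw [act_coe]; rfl

theorem tendsto_coe_atTop : Tendsto (fun x : ℝ => (x : OnePoint ℝ)) atTop (𝓝 ∞) := by
  have := tendsto_coe_infty (X := ℝ)
  rw [Filter.coclosedCompact_eq_cocompact] at this
  exact this.mono_left atTop_le_cocompact

theorem bound (B : Finset ℚ) : ∃ M : ℝ, 0 < M ∧ ∀ r ∈ B, (r : ℝ) < M := by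
  obtain ⟨M, hM⟩ := (B.finite_toSet.image (fun r : ℚ => (r : ℝ))).bddAbove
  refine ⟨|M| + 1, by positivity, fun r hr => ?_⟩
  have := hM ⟨r, hr, rfl⟩
  have h2 := le_abs_self M
  simp only at this
  linarith

theorem fix_case {f : G} {B : Finset ℚ}
    (hf : ∀ J : Set ℝ, J.OrdConnected → (∀ r ∈ B, (r : ℝ) ∉ J) →
      ∃ a b c d : ℤ, a * d - b * c = 1 ∧ ∀ t ∈ J, f (t : OnePoint ℝ) = mob a b c d t)
    (hinf : f ∞ = ∞) : f ∈ T0 := by
  have hne : ∀ t : ℝ, f (t : OnePoint ℝ) ≠ ∞ := by
    intro t h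
    rw [← hinf] at h
    exact coe_ne_infty t (f.injective h)
  have hex : ∀ t : ℝ, ∃ u : ℝ, f (t : OnePoint ℝ) = (u : OnePoint ℝ) := by
    intro t
    obtain ⟨u, hu⟩ := ne_infty_iff_exists.1 (hne t)
    exact ⟨u, hu.symm⟩
  choose g hg using hex
  have hinj : Function.Injective g := by
    intro t u h
    have : f (t : OnePoint ℝ) = f (u : OnePoint ℝ) := by rw [hg, hg, h]
    exact coe_injective (f.injective this)
  have hcont : Continuous g := by
    rw [isOpenEmbedding_coe.isEmbedding.continuous_iff]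
    have : ((↑) : ℝ → OnePoint ℝ) ∘ g = f ∘ ((↑) : ℝ → OnePoint ℝ) := by
      funext t; exact (hg t).symm
    rw [this]
    exact f.continuous.comp continuous_coe
  have hsurj : Function.Surjective g := by
    intro y
    obtain ⟨x, hx⟩ := f.surjective (y : OnePoint ℝ)
    cases x using OnePoint.rec with
    | infty => rw [hinf] at hx; exact absurd hx.symm (coe_ne_infty y)
    | coe t => exact ⟨t, coe_injective ((hg t).symm.trans hx)⟩
  have hmob : Mob g B.toList := by
    intro J hJ hB
    obtain ⟨a, b, c, d, hdet, h⟩ := hf J hJ (fun r hr => hB r (Finset.mem_toList.2 hr))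
    refine ⟨a, b, c, d, hdet, fun t ht => ?_⟩
    have h1 := h t ht
    rw [hg, mob] at h1
    split_ifs at h1 with h0
    · exact absurd h1 (coe_ne_infty _)
    · exact ⟨h0, coe_injective h1⟩
  have hmono : StrictMono g := by
    rcases hcont.strictMono_of_inj hinj with h | h
    · exact h
    exfalso
    obtain ⟨M, hM0, hM⟩ := bound B
    obtain ⟨a, b, c, d, hdet, h'⟩ := hmob (Set.Ioi M) Set.ordConnected_Ioi (by
      intro r hr h
      have := hM r (Finset.mem_toList.1 hr)
      exact absurd (show M < r from h) (by linarith))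
    have hdet' : (a : ℝ) * d - b * c = 1 := by exact_mod_cast hdet
    set t1 := M + |(c : ℝ) * d| + 1 with ht1
    have habs := abs_nonneg ((c : ℝ) * d)
    obtain ⟨n1, e1⟩ := h' t1 (show M < t1 by linarith)
    obtain ⟨n2, e2⟩ := h' (t1 + 1) (show M < t1 + 1 by linarith)
    have hlt := h (show t1 < t1 + 1 by linarith)
    have hpos : 0 < ((c : ℝ) * t1 + d) * (c * (t1 + 1) + d) := by
      rcases eq_or_ne c 0 with hc | hc
      · subst hc
        norm_num at n1 ⊢
        exact n1
      · have hc' : (c : ℝ) ≠ 0 := by exact_mod_cast hc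
        have hc2 : (1 : ℝ) ≤ c * c := by
          have : (1 : ℤ) ≤ c * c := by
            have := mul_self_pos.2 hc
            omega
          exact_mod_cast this
        have hn := neg_abs_le ((c : ℝ) * d)
        have p1 : 0 < (c : ℝ) * (c * t1 + d) := by
          have : t1 ≤ c * c * t1 := by nlinarith
          nlinarith
        have p2 : 0 < (c : ℝ) * (c * (t1 + 1) + d) := by
          have : t1 + 1 ≤ c * c * (t1 + 1) := by nlinarith
          nlinarith
        have p3 := mul_pos p1 p2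
        have p4 : (c : ℝ) * (c * t1 + d) * (c * (c * (t1 + 1) + d)) =
          (c * c) * (((c : ℝ) * t1 + d) * (c * (t1 + 1) + d)) := by ring
        rw [p4] at p3
        exact (mul_pos_iff_of_pos_left (by linarith)).1 p3
    have e3 : g (t1 + 1) - g t1 = 1 / (((c : ℝ) * t1 + d) * (c * (t1 + 1) + d)) := by
      rw [e1, e2, div_sub_div _ _ n2 n1, div_eq_div_iff (mul_ne_zero n2 n1) (mul_ne_zero n1 n2)]
      linear_combination ((c : ℝ) * t1 + d) * (c * (t1 + 1) + d) * hdet'
    have : 0 < 1 / (((c : ℝ) * t1 + d) * (c * (t1 + 1) + d)) := by positivity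
    linarith
  set o : ℝ ≃o ℝ := hmono.orderIsoOfSurjective g hsurj with ho
  have hog : ∀ t, o t = g t := fun t => rfl
  have hE : f = E o := by
    ext x
    cases x using OnePoint.rec with
    | infty => rw [hinf, E_inf]
    | coe t => rw [hg, E_coe, hog]
  rw [hE]
  exact T0_F0 (mem_F0 (B := B.toList) hmob)

/-- Thompson's group `T` is generated by `τ`, `ι` and `b`. -/
theorem thompson_le {f : G} (hf : f ∈ ThompsonT) : f ∈ T0 := by
  obtain ⟨B, hB⟩ := hf
  obtain ⟨M, hM0, hM⟩ := bound B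
  obtain ⟨a, b, c, d, hdet, h'⟩ := hB (Set.Ioi M) Set.ordConnected_Ioi (by
    intro r hr h
    have := hM r hr
    exact absurd (show M < r from h) (by linarith))
  obtain ⟨h, hh, he⟩ := realize (mk a b c d hdet)
  have hinf : f ∞ = h ∞ := by
    have h1 : Tendsto (fun t : ℝ => f (t : OnePoint ℝ)) atTop (𝓝 (f ∞)) :=
      (f.continuous.tendsto ∞).comp tendsto_coe_atTop
    have h2 : Tendsto (fun t : ℝ => h (t : OnePoint ℝ)) atTop (𝓝 (h ∞)) :=
      (h.continuous.tendsto ∞).comp tendsto_coe_atTop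
    refine tendsto_nhds_unique h1 (h2.congr' ?_)
    filter_upwards [eventually_gt_atTop M] with t ht
    rw [he, act_mk, h' t ht]
  have hk : h⁻¹ * f ∈ T0 := by
    refine fix_case (B := B) ?_ ?_
    · intro J hJ hJB
      obtain ⟨a', b', c', d', hdet', h2⟩ := hB J hJ hJB
      set A := (mk a b c d hdet)⁻¹ * mk a' b' c' d' hdet' with hA
      refine ⟨A 0 0, A 0 1, A 1 0, A 1 1, ?_, fun t ht => ?_⟩
      · have := A.det_coe
        rw [Matrix.det_fin_two] at this
        exact this
      · rw [Homeomorph.mul_apply, h2 t ht, ← act_mk hdet', ← act_coe, hA, act_mul,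
          Homeomorph.inv_apply, Homeomorph.symm_apply_eq, he, ← act_mul, mul_inv_cancel, act_one]
    · rw [Homeomorph.mul_apply, hinf, Homeomorph.inv_apply, Homeomorph.symm_apply_apply]
  have := mul_mem hh hk
  rwa [mul_inv_cancel_left] at this

end Q21.CS
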