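import Pool.Agent.Q21.CS4

namespace Q21.CS

open OnePoint Filter Topology

theorem T_t : E tO ∈ ThompsonT := by
  refine ⟨∅, fun J _ _ => ⟨1, 1, 0, 1, by ring, fun t _ => ?_⟩⟩
  rw [E_coe, tO_apply, mob]
  norm_num

theorem T_i : iG ∈ ThompsonT := by
  refine ⟨∅, fun J _ _ => ⟨0, -1, 1, 0, by ring, fun t _ => ?_⟩⟩
  rw [iG_coe, mob]
  norm_num

theorem mob_bF : Mob bF [0, 1 / 2, 1] := by
  intro J hJ hB
  have h0 := side hJ (hB 0 (by simp))
  have h1 := side hJ (hB (1 / 2) (by simp))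
  have h2 := side hJ (hB 1 (by simp))
  push_cast at h0 h1 h2
  rcases h0 with h0 | h0
  · exact ⟨1, 0, 0, 1, by ring, fun t ht => by
      rw [bF_1 (h0 t ht).le]; norm_num⟩
  rcases h1 with h1 | h1
  · refine ⟨1, 0, -1, 1, by ring, fun t ht => ?_⟩
    have e0 := h0 t ht
    have e1 := h1 t ht
    rw [bF_2 e0.le e1.le]
    push_cast
    exact ⟨by linarith, by ring_nf⟩
  rcases h2 with h2 | h2
  · refine ⟨3, -1, 1, 0, by ring, fun t ht => ?_⟩
    have e0 := h1 t ht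
    have e1 := h2 t ht
    have ht0 : t ≠ 0 := by linarith
    rw [bF_3 e0.le e1.le]
    push_cast
    refine ⟨by simpa using ht0, ?_⟩
    field_simp
    ring
  · exact ⟨1, 1, 0, 1, by ring, fun t ht => by
      rw [bF_4 (h2 t ht).le]; push_cast; exact ⟨by norm_num, by ring⟩⟩

theorem T_b : E bO ∈ ThompsonT := by
  refine ⟨{0, 1 / 2, 1}, fun J hJ hB => ?_⟩
  obtain ⟨a, b, c, d, hdet, h⟩ := mob_bF J hJ (by
    intro r hr
    apply hB
    simpa using hr)
  refine ⟨a, b, c, d, hdet, fun t ht => ?_⟩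
  obtain ⟨h1, h2⟩ := h t ht
  rw [E_coe, bO_apply, h2, mob, if_neg h1]

/-! ### The element `β` of order three -/

noncomputable def be : G := iG * (E tO)⁻¹

theorem be_inf : be ∞ = ((0 : ℝ) : OnePoint ℝ) := by
  rw [be, Homeomorph.mul_apply, E_inv_inf, iG_inf]

theorem be_one : be ((1 : ℝ) : OnePoint ℝ) = ∞ := by
  rw [be, Homeomorph.mul_apply, E_inv_coe, tO_inv_apply, sub_self, iG_zero]

theorem be_coe {t : ℝ} (h : t ≠ 1) : be (t : OnePoint ℝ) = ((1 / (1 - t) : ℝ) : OnePoint ℝ) := by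
  have h1 : t - 1 ≠ 0 := sub_ne_zero.2 h
  have h2 : 1 - t ≠ 0 := sub_ne_zero.2 h.symm
  rw [be, Homeomorph.mul_apply, E_inv_coe, tO_inv_apply, iG_ne h1]
  congr 1
  rw [div_eq_div_iff h1 h2]; ring

theorem be_cube (x : OnePoint ℝ) : be (be (be x)) = x := by
  cases x using OnePoint.rec with
  | infty =>
    rw [be_inf, be_coe (by norm_num)]
    norm_num
    exact be_one
  | coe t =>
    rcases eq_or_ne t 1 with h | h
    · subst h
      rw [be_one, be_inf, be_coe (by norm_num)]; norm_num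
    rcases eq_or_ne t 0 with h0 | h0
    · subst h0
      rw [be_coe (by norm_num)]
      norm_num
      rw [be_one, be_inf]
    have h2 : 1 - t ≠ 0 := sub_ne_zero.2 h.symm
    have h3 : 1 / (1 - t) ≠ 1 := by
      intro h4
      rw [div_eq_one_iff_eq h2] at h4
      exact h0 (by linarith)
    have h5 : 1 - 1 / (1 - t) ≠ 0 := sub_ne_zero.2 h3.symm
    have h6 : 1 / (1 - 1 / (1 - t)) = 1 - 1 / t := by
      have : 1 - 1 / (1 - t) = -t / (1 - t) := by field_simp; ring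
      rw [this]; field_simp; ring
    rw [be_coe h, be_coe h3, h6, be_coe (by
      intro h7
      have : 1 / t = 0 := by linarith
      rw [one_div, inv_eq_zero] at this
      exact h0 this)]
    congr 1
    field_simp; ring

theorem be_pow : be * be * be = 1 := by
  ext x; exact be_cube x

/-! ### The element `c₄` -/

noncomputable def c4 : G := be * (E bO)⁻¹

theorem c4_inf : c4 ∞ = ((0 : ℝ) : OnePoint ℝ) := by
  rw [c4, Homeomorph.mul_apply, E_inv_inf, be_inf]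

theorem c4_1 {t : ℝ} (h : t ≤ 0) : c4 (t : OnePoint ℝ) = ((1 / (1 - t) : ℝ) : OnePoint ℝ) := by
  rw [c4, Homeomorph.mul_apply, E_inv_coe, bO_inv_apply, bI_1 h, be_coe (by linarith)]

theorem c4_2 {t : ℝ} (h0 : 0 ≤ t) (h1 : t ≤ 1) :
    c4 (t : OnePoint ℝ) = ((1 + t : ℝ) : OnePoint ℝ) := by
  have hb := bI_b2 h0 h1
  rw [c4, Homeomorph.mul_apply, E_inv_coe, bO_inv_apply, be_coe (by linarith), bI_2 h0 h1]
  congr 1
  have : (1 : ℝ) + t ≠ 0 := by linarith
  have e : 1 - t / (1 + t) = 1 / (1 + t) := by field_simp; ring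
  rw [e, one_div_one_div]

theorem c4_3 {t : ℝ} (h0 : 1 ≤ t) (h1 : t < 2) :
    c4 (t : OnePoint ℝ) = (((3 - t) / (2 - t) : ℝ) : OnePoint ℝ) := by
  have e1 : (3 : ℝ) - t ≠ 0 := by linarith
  have e2 : (2 : ℝ) - t ≠ 0 := by linarith
  have hb : 1 / (3 - t) ≠ 1 := by
    intro h
    rw [div_eq_one_iff_eq e1] at h
    linarith
  rw [c4, Homeomorph.mul_apply, E_inv_coe, bO_inv_apply, bI_3 h0 h1.le, be_coe hb]
  congr 1
  have e : 1 - 1 / (3 - t) = (2 - t) / (3 - t) := by field_simp; ring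
  rw [e, one_div_div]

theorem c4_two : c4 ((2 : ℝ) : OnePoint ℝ) = ∞ := by
  rw [c4, Homeomorph.mul_apply, E_inv_coe, bO_inv_apply, bI_4 le_rfl]
  norm_num
  exact be_one

theorem c4_4 {t : ℝ} (h0 : 2 < t) : c4 (t : OnePoint ℝ) = ((-1 / (t - 2) : ℝ) : OnePoint ℝ) := by
  rw [c4, Homeomorph.mul_apply, E_inv_coe, bO_inv_apply, bI_4 h0.le, be_coe (by linarith)]
  congr 1
  have : t - 2 ≠ 0 := by linarith
  have h2 : 1 - (t - 1) ≠ 0 := by intro h; apply this; linarith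
  rw [div_eq_div_iff h2 this]; ring

/-- The relation `c₄² = τ β`. -/
theorem c4_sq : c4 * c4 = E tO * be := by
  ext x
  rw [Homeomorph.mul_apply, Homeomorph.mul_apply]
  cases x using OnePoint.rec with
  | infty =>
    rw [c4_inf, c4_1 le_rfl, be_inf, E_coe, tO_apply]; norm_num
  | coe t =>
    rcases le_or_gt t 0 with h0 | h0
    · have p : (0 : ℝ) < 1 - t := by linarith
      rw [c4_1 h0, c4_2 (by positivity) (by rw [div_le_one p]; linarith), be_coe (by linarith),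
        E_coe, tO_apply]
      congr 1; ring
    rcases lt_trichotomy t 1 with h1 | h1 | h1
    · rw [c4_2 h0.le h1.le, c4_3 (by linarith) (by linarith), be_coe h1.ne, E_coe, tO_apply]
      congr 1
      have e1 : (2 : ℝ) - (1 + t) ≠ 0 := by intro h; linarith
      have e2 : (1 : ℝ) - t ≠ 0 := by linarith
      rw [div_add_one e2, div_eq_div_iff e1 e2]; ring
    · subst h1
      rw [c4_2 h0.le le_rfl, be_one, E_inf]
      norm_num
      exact c4_two
    rcases lt_trichotomy t 2 with h2 | h2 | h2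
    · have p : (0 : ℝ) < 2 - t := by linarith
      have q : 2 < (3 - t) / (2 - t) := by rw [lt_div_iff₀ p]; linarith
      rw [c4_3 h1.le h2, c4_4 q, be_coe h1.ne', E_coe, tO_apply]
      congr 1
      have e2 : (1 : ℝ) - t ≠ 0 := by linarith
      have e3 : (3 - t) / (2 - t) - 2 = (t - 1) / (2 - t) := by field_simp; ring
      have e4 : t - 1 ≠ 0 := by linarith
      rw [e3, div_add_one e2, div_div_eq_mul_div, div_eq_div_iff e4 e2]; ring
    · subst h2
      rw [c4_two, c4_inf, be_coe (by norm_num), E_coe, tO_apply]; norm_num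
    · have p : (0 : ℝ) < t - 2 := by linarith
      have q : -1 / (t - 2) ≤ 0 := by
        rw [neg_div]; have : 0 < 1 / (t - 2) := by positivity
        linarith
      rw [c4_4 h2, c4_1 q, be_coe h1.ne', E_coe, tO_apply]
      congr 1
      have e2 : (1 : ℝ) - t ≠ 0 := by linarith
      have e3 : 1 - -1 / (t - 2) = (t - 1) / (t - 2) := by field_simp; ring
      have e4 : t - 1 ≠ 0 := by linarith
      rw [e3, div_add_one e2, one_div_div, div_eq_div_iff e4 e2]; ring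

/-! ### The element `ρ` with `ρ² = β` -/

noncomputable def zO : ℝ ≃o ℝ := bO⁻¹ * bO⁻¹ * tO * tO * bO⁻¹ * tO⁻¹ * bO

theorem zO_apply (t : ℝ) : zO t = bI (bI (bI (bF t - 1) + 1 + 1)) := rfl

theorem z1 {t : ℝ} (h : t ≤ -1) : zO t = t + 1 := by
  rw [zO_apply, bF_1 (by linarith), bI_1 (by linarith : t - 1 ≤ 0),
    bI_1 (by linarith : t - 1 + 1 + 1 ≤ 0), bI_1 (by linarith : t - 1 + 1 + 1 ≤ 0)]
  ring

theorem z2 {t : ℝ} (h0 : -1 ≤ t) (h1 : t ≤ 0) : zO t = (t + 1) / (2 * t + 3) := by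
  have e : t - 1 + 1 + 1 = t + 1 := by ring
  have hb := bI_b2 (t := t + 1) (by linarith) (by linarith)
  rw [zO_apply, bF_1 h1, bI_1 (by linarith : t - 1 ≤ 0), e, bI_2 hb.1 (by linarith),
    bI_2 (by linarith) (by linarith)]
  have e1 : 1 + (t + 1) ≠ 0 := by linarith
  have e2 : 2 * t + 3 ≠ 0 := by linarith
  have e3 : 1 + (t + 1) / (1 + (t + 1)) = (2 * t + 3) / (1 + (t + 1)) := by field_simp; ring
  rw [e3, div_div_div_cancel_right₀ e1]

theorem z3 {t : ℝ} (h0 : 0 ≤ t) (h1 : t ≤ 1 / 2) : zO t = (1 - t) / (3 - 4 * t) := by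
  have hb := bF_b2 h0 h1
  have p : (0 : ℝ) < 1 - t := by linarith
  have e : bF t - 1 + 1 + 1 = 1 / (1 - t) + 0 := by
    rw [bF_2 h0 h1]; field_simp; ring
  rw [zO_apply, bI_1 (by linarith [hb.2] : bF t - 1 ≤ 0), e, add_zero]
  have q1 : 1 ≤ 1 / (1 - t) := by rw [le_div_iff₀ p]; linarith
  have q2 : 1 / (1 - t) ≤ 2 := by rw [div_le_iff₀ p]; linarith
  have hb2 := bI_b3 q1 q2
  rw [bI_2 (by linarith [hb2.1]) hb2.2, bI_3 q1 q2]
  have e1 : (2 : ℝ) - 3 * t ≠ 0 := by intro h; linarith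
  have e2 : (3 : ℝ) - 4 * t ≠ 0 := by intro h; linarith
  have e3 : (3 : ℝ) - 1 / (1 - t) = (2 - 3 * t) / (1 - t) := by field_simp; ring
  have e4 : (1 : ℝ) + (1 - t) / (2 - 3 * t) = (3 - 4 * t) / (2 - 3 * t) := by
    rw [eq_div_iff e1, add_mul, div_mul_cancel₀ _ e1]; ring
  rw [e3, one_div_div, e4, div_div_div_cancel_right₀ e1]

theorem z4 {t : ℝ} (h0 : 1 / 2 ≤ t) (h1 : t ≤ 1) : zO t = (3 * t - 1) / (4 * t - 1) := by
  have hb := bF_b3 h0 h1
  have p : (0 : ℝ) < t := by linarith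
  have e1 : (3 : ℝ) * t - 1 ≠ 0 := by linarith
  have e2 : (4 : ℝ) * t - 1 ≠ 0 := by linarith
  have hb2 := bI_b2 (t := bF t - 1) (by linarith [hb.1]) (by linarith [hb.2])
  have e : bI (bF t - 1) = (2 * t - 1) / (3 * t - 1) := by
    rw [bI_2 (by linarith [hb.1]) (by linarith [hb.2]), bF_3 h0 h1]
    have e3 : 1 + (3 - 1 / t - 1) = (3 * t - 1) / t := by field_simp; ring
    have e4 : 3 - 1 / t - 1 = (2 * t - 1) / t := by field_simp; ring
    rw [e3, e4, div_div_div_cancel_right₀ p.ne']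
  rw [zO_apply, bI_4 (by linarith [hb2.1] : (2 : ℝ) ≤ bI (bF t - 1) + 1 + 1),
    bI_3 (by linarith [hb2.1]) (by linarith [hb2.2]), e]
  have e5 : (3 : ℝ) - ((2 * t - 1) / (3 * t - 1) + 1 + 1 - 1) = (4 * t - 1) / (3 * t - 1) := by
    field_simp; ring
  rw [e5, one_div_div]

theorem z5 {t : ℝ} (h0 : 1 ≤ t) (h1 : t ≤ 2) : zO t = (3 - t) / (5 - 2 * t) := by
  have hb := bI_b3 h0 h1
  have e1 : (3 : ℝ) - t ≠ 0 := by linarith
  have e2 : (5 : ℝ) - 2 * t ≠ 0 := by linarith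
  have e : bF t - 1 = t := by rw [bF_4 h0]; ring
  rw [zO_apply, e, bI_4 (by linarith [hb.1] : (2 : ℝ) ≤ bI t + 1 + 1),
    bI_3 (by linarith [hb.1]) (by linarith [hb.2]), bI_3 h0 h1]
  have e5 : (3 : ℝ) - (1 / (3 - t) + 1 + 1 - 1) = (5 - 2 * t) / (3 - t) := by
    field_simp; ring
  rw [e5, one_div_div]

theorem z6 {t : ℝ} (h0 : 2 ≤ t) : zO t = t - 1 := by
  have e : bF t - 1 = t := by rw [bF_4 (by linarith)]; ring
  rw [zO_apply, e, bI_4 h0, bI_4 (by linarith : (2 : ℝ) ≤ t - 1 + 1 + 1),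
    bI_4 (by linarith : (2 : ℝ) ≤ t - 1 + 1 + 1 - 1)]; ring

theorem nd (P D : ℝ) : -1 / (-P / D) = D / P := by
  rw [neg_div D P, neg_div_neg_eq, one_div_div]

noncomputable def rho : G := (E tO)⁻¹ * iG * (E tO)⁻¹ * E zO

theorem rho_inf : rho ∞ = ((-1 : ℝ) : OnePoint ℝ) := by
  rw [rho, Homeomorph.mul_apply, Homeomorph.mul_apply, Homeomorph.mul_apply, E_inf, E_inv_inf,
    iG_inf, E_inv_coe, tO_inv_apply]; norm_num

theorem rho_coe {t u : ℝ} (h : zO t - 1 ≠ 0) (hu : -1 / (zO t - 1) - 1 = u) :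
    rho (t : OnePoint ℝ) = (u : OnePoint ℝ) := by
  rw [rho, Homeomorph.mul_apply, Homeomorph.mul_apply, Homeomorph.mul_apply, E_coe, E_inv_coe,
    tO_inv_apply, iG_ne h, E_inv_coe, tO_inv_apply, hu]

theorem r1 {t : ℝ} (h : t ≤ -1) : rho (t : OnePoint ℝ) = ((-(1 + t) / t : ℝ) : OnePoint ℝ) := by
  have ht : t ≠ 0 := by linarith
  apply rho_coe
  · rw [z1 h]; intro h; apply ht; linarith
  · rw [z1 h, add_sub_cancel_right]; field_simp; ring

theorem r2 {t : ℝ} (h0 : -1 ≤ t) (h1 : t ≤ 0) :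
    rho (t : OnePoint ℝ) = (((t + 1) / (t + 2) : ℝ) : OnePoint ℝ) := by
  have e1 : t + 2 ≠ 0 := by linarith
  have e2 : 2 * t + 3 ≠ 0 := by linarith
  have e : (t + 1) / (2 * t + 3) - 1 = -(t + 2) / (2 * t + 3) := by
    rw [div_sub_one e2]; congr 1; ring
  apply rho_coe
  · rw [z2 h0 h1, e]; exact div_ne_zero (neg_ne_zero.2 e1) e2
  · rw [z2 h0 h1, e, nd, div_sub_one e1]; congr 1; ring

theorem r3 {t : ℝ} (h0 : 0 ≤ t) (h1 : t ≤ 1 / 2) :
    rho (t : OnePoint ℝ) = (((1 - t) / (2 - 3 * t) : ℝ) : OnePoint ℝ) := by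
  have e1 : 2 - 3 * t ≠ 0 := by intro h; linarith
  have e2 : 3 - 4 * t ≠ 0 := by intro h; linarith
  have e : (1 - t) / (3 - 4 * t) - 1 = -(2 - 3 * t) / (3 - 4 * t) := by
    rw [div_sub_one e2]; congr 1; ring
  apply rho_coe
  · rw [z3 h0 h1, e]; exact div_ne_zero (neg_ne_zero.2 e1) e2
  · rw [z3 h0 h1, e, nd, div_sub_one e1]; congr 1; ring

theorem r4 {t : ℝ} (h0 : 1 / 2 ≤ t) (h1 : t ≤ 1) :
    rho (t : OnePoint ℝ) = ((3 - 1 / t : ℝ) : OnePoint ℝ) := by
  have e1 : t ≠ 0 := by linarith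
  have e2 : 4 * t - 1 ≠ 0 := by linarith
  have e : (3 * t - 1) / (4 * t - 1) - 1 = -t / (4 * t - 1) := by
    rw [div_sub_one e2]; congr 1; ring
  apply rho_coe
  · rw [z4 h0 h1, e]; exact div_ne_zero (neg_ne_zero.2 e1) e2
  · rw [z4 h0 h1, e, nd]; field_simp; ring

theorem r5 {t : ℝ} (h0 : 1 ≤ t) (h1 : t < 2) :
    rho (t : OnePoint ℝ) = (((3 - t) / (2 - t) : ℝ) : OnePoint ℝ) := by
  have e1 : 2 - t ≠ 0 := by intro h; linarith
  have e2 : 5 - 2 * t ≠ 0 := by intro h; linarith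
  have e : (3 - t) / (5 - 2 * t) - 1 = -(2 - t) / (5 - 2 * t) := by
    rw [div_sub_one e2]; congr 1; ring
  apply rho_coe
  · rw [z5 h0 h1.le, e]; exact div_ne_zero (neg_ne_zero.2 e1) e2
  · rw [z5 h0 h1.le, e, nd, div_sub_one e1]; congr 1; ring

theorem r6 : rho ((2 : ℝ) : OnePoint ℝ) = ∞ := by
  rw [rho, Homeomorph.mul_apply, Homeomorph.mul_apply, Homeomorph.mul_apply, E_coe, E_inv_coe,
    tO_inv_apply, z6 le_rfl]
  norm_num
  rw [iG_zero]
  exact E_inv_inf tO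

theorem r7 {t : ℝ} (h0 : 2 < t) :
    rho (t : OnePoint ℝ) = ((-(t - 1) / (t - 2) : ℝ) : OnePoint ℝ) := by
  have e1 : t - 2 ≠ 0 := by intro h; linarith
  have e : t - 1 - 1 = t - 2 := by ring
  apply rho_coe
  · rw [z6 h0.le, e]; exact e1
  · rw [z6 h0.le, e]; field_simp; ring

theorem rho_rho (x : OnePoint ℝ) : rho (rho x) = be x := by
  cases x using OnePoint.rec with
  | infty => rw [rho_inf, r1 le_rfl, be_inf]; norm_num
  | coe t =>
    rcases le_or_gt t (-1) with h0 | h0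
    · have p : t < 0 := by linarith
      have q1 : -1 ≤ -(1 + t) / t := by rw [le_div_iff_of_neg p]; linarith
      have q2 : -(1 + t) / t ≤ 0 := by rw [div_le_iff_of_neg p]; linarith
      rw [r1 h0, r2 q1 q2, be_coe (by linarith)]
      congr 1
      have e1 : (1 : ℝ) - t ≠ 0 := by linarith
      have tne := p.ne
      have e2 : -(1 + t) / t + 1 = -1 / t := by field_simp; ring
      have e3 : -(1 + t) / t + 2 = -(1 - t) / t := by field_simp; ring
      rw [e2, e3, div_div_div_cancel_right₀ p.ne, neg_div_neg_eq]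
    rcases le_or_gt t 0 with h1 | h1
    · have p : 0 < t + 2 := by linarith
      have q1 : 0 ≤ (t + 1) / (t + 2) := div_nonneg (by linarith) p.le
      have q2 : (t + 1) / (t + 2) ≤ 1 / 2 := by
        rw [div_le_div_iff₀ p (by norm_num)]; linarith
      rw [r2 h0.le h1, r3 q1 q2, be_coe (by linarith)]
      congr 1
      have e2 : 1 - (t + 1) / (t + 2) = 1 / (t + 2) := by field_simp; ring
      have e3 : 2 - 3 * ((t + 1) / (t + 2)) = (1 - t) / (t + 2) := by field_simp; ring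
      rw [e2, e3, div_div_div_cancel_right₀ p.ne']
    rcases le_or_gt t (1 / 2) with h2 | h2
    · have p : 0 < 2 - 3 * t := by linarith
      have q1 : 1 / 2 ≤ (1 - t) / (2 - 3 * t) := by
        rw [div_le_div_iff₀ (by norm_num) p]; linarith
      have q2 : (1 - t) / (2 - 3 * t) ≤ 1 := by rw [div_le_one p]; linarith
      rw [r3 h1.le h2, r4 q1 q2, be_coe (by linarith), one_div_div]
      congr 1
      have e1 : (1 : ℝ) - t ≠ 0 := by linarith
      rw [eq_div_iff e1, sub_mul, div_mul_cancel₀ _ e1]; ring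
    rcases lt_trichotomy t 1 with h3 | h3 | h3
    · have q1 : 1 ≤ 3 - 1 / t := by
        have : 1 / t ≤ 2 := by rw [div_le_iff₀ h1]; linarith
        linarith
      have q2 : 3 - 1 / t < 2 := by
        have : 1 < 1 / t := by rw [lt_div_iff₀ h1]; linarith
        linarith
      rw [r4 h2.le h3.le, r5 q1 q2, be_coe h3.ne]
      congr 1
      have e1 : 3 - (3 - 1 / t) = 1 / t := by ring
      have e2 : 2 - (3 - 1 / t) = (1 - t) / t := by field_simp; ring
      rw [e1, e2, div_div_div_cancel_right₀ h1.ne']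
    · subst h3
      rw [r4 (by norm_num) le_rfl, be_one]
      norm_num
      exact r6
    rcases lt_trichotomy t 2 with h4 | h4 | h4
    · have p : 0 < 2 - t := by linarith
      have q : 2 < (3 - t) / (2 - t) := by rw [lt_div_iff₀ p]; linarith
      rw [r5 h3.le h4, r7 q, be_coe h3.ne']
      congr 1
      have e1 : (3 - t) / (2 - t) - 1 = 1 / (2 - t) := by field_simp; ring
      have e2 : (3 - t) / (2 - t) - 2 = (t - 1) / (2 - t) := by field_simp; ring
      have e3 : (1 : ℝ) - t ≠ 0 := by linarith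
      have e4 : t - 1 ≠ 0 := by linarith
      rw [e1, e2, ← neg_div, div_div_div_cancel_right₀ p.ne', div_eq_div_iff e4 e3]; ring
    · subst h4
      rw [r6, rho_inf, be_coe (by norm_num)]; norm_num
    · have p : 0 < t - 2 := by linarith
      have q : -(t - 1) / (t - 2) ≤ -1 := by
        rw [div_le_iff₀ p]; linarith
      rw [r7 h4, r1 q, be_coe h3.ne']
      congr 1
      have e3 : (1 : ℝ) - t ≠ 0 := by linarith
      have e4 : t - 1 ≠ 0 := by linarith
      have e1 : -(1 + -(t - 1) / (t - 2)) = 1 / (t - 2) := by field_simp; ring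
      rw [e1, div_div_div_cancel_right₀ p.ne', div_eq_div_iff (neg_ne_zero.2 e4) e3]; ring

theorem rho_sq : rho * rho = be := by
  ext x; exact rho_rho x

end Q21.CS
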