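import Pool.Agent.Q21.CS5

namespace Q21.CS

open OnePoint Filter Topology

theorem comm_of_disj {f g : G} (h : ∀ x, f x = x ∨ g x = x) : f * g = g * f := by
  ext x
  rw [Homeomorph.mul_apply, Homeomorph.mul_apply]
  rcases h x with h1 | h1
  · rw [h1]
    rcases h (g x) with h2 | h2
    · exact h2
    · have : g x = x := g.injective h2
      rw [this, h1]
  · rw [h1]
    rcases h (f x) with h2 | h2
    · have : f x = x := f.injective h2
      rw [this, h1]
    · exact h2.symm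

/-- `y` on the interval `[k, k+1]`. -/
noncomputable def Y (k : ℤ) : G := E tO ^ k * E yO * (E tO ^ k)⁻¹

theorem tk_coe (k : ℤ) (t : ℝ) : (E tO ^ k) (t : OnePoint ℝ) = ((t + k : ℝ) : OnePoint ℝ) := by
  rw [← map_zpow, E_coe, tO_zpow_apply]
theorem tk_inf (k : ℤ) : (E tO ^ k) ∞ = ∞ := by rw [← map_zpow, E_inf]
theorem tk_inv_coe (k : ℤ) (t : ℝ) :
    (E tO ^ k)⁻¹ (t : OnePoint ℝ) = ((t - k : ℝ) : OnePoint ℝ) := by
  rw [← zpow_neg, tk_coe]; push_cast; rfl
theorem tk_inv_inf (k : ℤ) : (E tO ^ k)⁻¹ ∞ = ∞ := by rw [← zpow_neg, tk_inf]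

theorem Y_inf (k : ℤ) : Y k ∞ = ∞ := by
  rw [Y, Homeomorph.mul_apply, Homeomorph.mul_apply, tk_inv_inf, E_inf, tk_inf]

theorem Y_coe (k : ℤ) (t : ℝ) :
    Y k (t : OnePoint ℝ) = ((yF (t - k) + k : ℝ) : OnePoint ℝ) := by
  rw [Y, Homeomorph.mul_apply, Homeomorph.mul_apply, tk_inv_coe, E_coe, tk_coe, yO_apply]

theorem Y_left {k : ℤ} {t : ℝ} (h : t ≤ k) : Y k (t : OnePoint ℝ) = (t : OnePoint ℝ) := by
  rw [Y_coe, yF_1 (by linarith)]; congr 1; ring

theorem Y_right {k : ℤ} {t : ℝ} (h : k + 1 ≤ t) : Y k (t : OnePoint ℝ) = (t : OnePoint ℝ) := by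
  rw [Y_coe, yF_3 (by linarith)]; congr 1; ring

theorem Y_comm {k l : ℤ} (h : k < l) : Y k * Y l = Y l * Y k := by
  apply comm_of_disj
  intro x
  cases x using OnePoint.rec with
  | infty => left; exact Y_inf k
  | coe t =>
    rcases le_total t l with h1 | h1
    · right; exact Y_left h1
    · left
      apply Y_right
      have : (k : ℝ) + 1 ≤ l := by exact_mod_cast h
      linarith

theorem Y_shift (k : ℤ) : E tO * Y k * (E tO)⁻¹ = Y (k + 1) := by
  rw [Y, Y, zpow_add, zpow_one]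
  group

/-- `s` moved to `[k, k+2]`. -/
noncomputable def s0 : G := E (yO * (tO * yO⁻¹ * tO⁻¹))

theorem s_shift (k : ℤ) : E tO ^ k * s0 * (E tO ^ k)⁻¹ = Y k * (Y (k + 1))⁻¹ := by
  rw [s0, Y, Y]
  simp only [map_mul, map_inv]
  group

/-- `b` moved to `[3, ∞)`. -/
noncomputable def t3 : G := E tO ^ (3 : ℤ) * E bO * (E tO ^ (3 : ℤ))⁻¹

theorem t3_inf : t3 ∞ = ∞ := by
  rw [t3, Homeomorph.mul_apply, Homeomorph.mul_apply, tk_inv_inf, E_inf, tk_inf]

theorem t3_coe (t : ℝ) : t3 (t : OnePoint ℝ) = ((bF (t - 3) + 3 : ℝ) : OnePoint ℝ) := by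
  rw [t3, Homeomorph.mul_apply, Homeomorph.mul_apply, tk_inv_coe, E_coe, tk_coe, bO_apply]
  norm_num

theorem t3_left {t : ℝ} (h : t ≤ 3) : t3 (t : OnePoint ℝ) = (t : OnePoint ℝ) := by
  rw [t3_coe, bF_1 (by linarith)]; congr 1; ring

theorem t3_right {t : ℝ} (h : 4 ≤ t) : t3 (t : OnePoint ℝ) = ((t + 1 : ℝ) : OnePoint ℝ) := by
  rw [t3_coe, bF_4 (by linarith)]; congr 1; ring

theorem t3_Y2 : t3 * Y 2 = Y 2 * t3 := by
  apply comm_of_disj
  intro x
  cases x using OnePoint.rec with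
  | infty => left; exact t3_inf
  | coe t =>
    rcases le_total t 3 with h1 | h1
    · left; exact t3_left h1
    · right
      apply Y_right
      push_cast; linarith

theorem t3_Y4 : t3 * Y 4 = Y 5 * t3 := by
  have h : ((E tO)⁻¹ * t3) * Y 4 = Y 4 * ((E tO)⁻¹ * t3) := by
    apply comm_of_disj
    intro x
    cases x using OnePoint.rec with
    | infty =>
      left
      rw [Homeomorph.mul_apply, t3_inf, E_inv_inf]
    | coe t =>
      rcases le_total t 4 with h1 | h1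
      · right
        apply Y_left
        push_cast; exact h1
      · left
        rw [Homeomorph.mul_apply, t3_right h1, E_inv_coe, tO_inv_apply]
        congr 1; ring
  have h5 : Y 5 = E tO * Y 4 * (E tO)⁻¹ := by rw [Y_shift]; norm_num
  rw [h5]
  calc t3 * Y 4 = E tO * (((E tO)⁻¹ * t3) * Y 4) := by group
    _ = E tO * (Y 4 * ((E tO)⁻¹ * t3)) := by rw [h]
    _ = _ := by group

/-- `A = s₂ s₃`. -/
noncomputable def A : G := Y 2 * (Y 4)⁻¹

theorem comm_inv {a b : G} (h : a * b = b * a) : a * b⁻¹ = b⁻¹ * a := by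
  have : Commute a b := h
  exact this.inv_right

theorem comm_t3_A : t3 * A * t3⁻¹ * A⁻¹ = Y 4 * (Y 5)⁻¹ := by
  have h1 : t3 * A * t3⁻¹ = Y 2 * (Y 5)⁻¹ := by
    have e2 : t3 * Y 2 * t3⁻¹ = Y 2 := by rw [t3_Y2, mul_inv_cancel_right]
    have e4 : t3 * Y 4 * t3⁻¹ = Y 5 := by rw [t3_Y4, mul_inv_cancel_right]
    calc t3 * A * t3⁻¹ = (t3 * Y 2 * t3⁻¹) * (t3 * Y 4 * t3⁻¹)⁻¹ := by rw [A]; group
      _ = _ := by rw [e2, e4]
  have c24 : Commute (Y 2) (Y 4) := Y_comm (by norm_num)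
  have c25 : Commute (Y 2) (Y 5) := Y_comm (by norm_num)
  have c45 : Commute (Y 4) (Y 5) := Y_comm (by norm_num)
  rw [h1, A, mul_inv_rev, inv_inv]
  have c1 : Commute (Y 2) ((Y 5)⁻¹ * Y 4) := (c25.inv_right).mul_right c24
  calc Y 2 * (Y 5)⁻¹ * (Y 4 * (Y 2)⁻¹) = Y 2 * ((Y 5)⁻¹ * Y 4) * (Y 2)⁻¹ := by group
    _ = ((Y 5)⁻¹ * Y 4) * Y 2 * (Y 2)⁻¹ := by rw [c1.eq]
    _ = (Y 5)⁻¹ * Y 4 := by group
    _ = Y 4 * (Y 5)⁻¹ := (c45.inv_right).eq.symm

theorem A_eq : A = (E tO ^ (2 : ℤ) * s0 * (E tO ^ (2 : ℤ))⁻¹) *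
    (E tO ^ (3 : ℤ) * s0 * (E tO ^ (3 : ℤ))⁻¹) := by
  rw [s_shift, s_shift, A]
  norm_num

/-! ### Supports -/

def D0 : Set (OnePoint ℝ) := {x | ∃ t : ℝ, 2 < t ∧ x = (t : OnePoint ℝ)}
def D1 : Set (OnePoint ℝ) := {x | ∃ t : ℝ, (-1 < t ∧ t < 0) ∧ x = (t : OnePoint ℝ)}
def D2 : Set (OnePoint ℝ) := {x | ∃ t : ℝ, (1 / 2 < t ∧ t < 1) ∧ x = (t : OnePoint ℝ)}
def R0 : Set (OnePoint ℝ) := {x | ∃ t : ℝ, t < -1 ∧ x = (t : OnePoint ℝ)}
def R1 : Set (OnePoint ℝ) := {x | ∃ t : ℝ, (0 < t ∧ t < 1 / 2) ∧ x = (t : OnePoint ℝ)}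
def R2 : Set (OnePoint ℝ) := {x | ∃ t : ℝ, (1 < t ∧ t < 2) ∧ x = (t : OnePoint ℝ)}

theorem be_D0 {x : OnePoint ℝ} (h : x ∈ D0) : be x ∈ D1 := by
  obtain ⟨t, h1, rfl⟩ := h
  refine ⟨1 / (1 - t), ⟨?_, ?_⟩, be_coe (by linarith)⟩
  · rw [lt_div_iff_of_neg (by linarith)]; linarith
  · exact one_div_neg.2 (by linarith)

theorem be_D1 {x : OnePoint ℝ} (h : x ∈ D1) : be x ∈ D2 := by
  obtain ⟨t, ⟨h1, h2⟩, rfl⟩ := h
  refine ⟨1 / (1 - t), ⟨?_, ?_⟩, be_coe (by linarith)⟩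
  · rw [lt_div_iff₀ (by linarith)]; linarith
  · rw [div_lt_one (by linarith)]; linarith

theorem be_R0 {x : OnePoint ℝ} (h : x ∈ R0) : be x ∈ R1 := by
  obtain ⟨t, h1, rfl⟩ := h
  refine ⟨1 / (1 - t), ⟨?_, ?_⟩, be_coe (by linarith)⟩
  · apply one_div_pos.2; linarith
  · rw [div_lt_div_iff₀ (by linarith) (by norm_num)]; linarith

theorem be_R1 {x : OnePoint ℝ} (h : x ∈ R1) : be x ∈ R2 := by
  obtain ⟨t, ⟨h1, h2⟩, rfl⟩ := h
  refine ⟨1 / (1 - t), ⟨?_, ?_⟩, be_coe (by linarith)⟩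
  · rw [lt_div_iff₀ (by linarith)]; linarith
  · rw [div_lt_iff₀ (by linarith)]; linarith

theorem rho_D0 {x : OnePoint ℝ} (h : x ∈ D0) : rho x ∈ R0 := by
  obtain ⟨t, h1, rfl⟩ := h
  refine ⟨-(t - 1) / (t - 2), ?_, r7 h1⟩
  rw [div_lt_iff₀ (by linarith)]; linarith

theorem rho_be (x : OnePoint ℝ) : rho (be x) = be (rho x) := by
  rw [← rho_rho, ← rho_rho]

theorem not_D1 {x : OnePoint ℝ} (h : x ∈ D0) : x ∉ D1 := by
  rintro ⟨u, ⟨h1, h2⟩, hu⟩
  obtain ⟨t, h3, rfl⟩ := h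
  have := coe_injective hu
  linarith
theorem not_D2 {x : OnePoint ℝ} (h : x ∈ D0) : x ∉ D2 := by
  rintro ⟨u, ⟨h1, h2⟩, hu⟩
  obtain ⟨t, h3, rfl⟩ := h
  have := coe_injective hu
  linarith
theorem not_R0 {x : OnePoint ℝ} (h : x ∈ D0) : x ∉ R0 := by
  rintro ⟨u, h1, hu⟩
  obtain ⟨t, h3, rfl⟩ := h
  have := coe_injective hu
  linarith
theorem not_R1 {x : OnePoint ℝ} (h : x ∈ D0) : x ∉ R1 := by
  rintro ⟨u, ⟨h1, h2⟩, hu⟩
  obtain ⟨t, h3, rfl⟩ := h
  have := coe_injective hu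
  linarith
theorem not_R2 {x : OnePoint ℝ} (h : x ∈ D0) : x ∉ R2 := by
  rintro ⟨u, ⟨h1, h2⟩, hu⟩
  obtain ⟨t, h3, rfl⟩ := h
  have := coe_injective hu
  linarith

theorem inv_fix {f : G} {x : OnePoint ℝ} (h : f x = x) : f⁻¹ x = x := by
  rw [Homeomorph.inv_apply, Homeomorph.symm_apply_eq, h]

theorem A_supp {x : OnePoint ℝ} (h : x ∉ D0) : A x = x := by
  cases x using OnePoint.rec with
  | infty => rw [A, Homeomorph.mul_apply, inv_fix (Y_inf 4), Y_inf]
  | coe t =>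
    have ht : t ≤ 2 := by
      by_contra hh
      exact h ⟨t, not_le.1 hh, rfl⟩
    have h4 : Y 4 (t : OnePoint ℝ) = (t : OnePoint ℝ) := Y_left (by push_cast; linarith)
    have h2 : Y 2 (t : OnePoint ℝ) = (t : OnePoint ℝ) := Y_left (by push_cast; exact ht)
    rw [A, Homeomorph.mul_apply, inv_fix h4, h2]

theorem t3_supp {x : OnePoint ℝ} (h : x ∉ D0) : t3 x = x := by
  cases x using OnePoint.rec with
  | infty => exact t3_inf
  | coe t =>
    have ht : t ≤ 2 := by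
      by_contra hh
      exact h ⟨t, not_le.1 hh, rfl⟩
    exact t3_left (by linarith)

noncomputable def B1 : G := be * A * be⁻¹
noncomputable def C1 : G := be * (be * A * be⁻¹) * be⁻¹

theorem be_inv_self (x : OnePoint ℝ) : be (be⁻¹ x) = x := by
  rw [Homeomorph.inv_apply, Homeomorph.apply_symm_apply]

theorem B1_supp {x : OnePoint ℝ} (h : be⁻¹ x ∉ D0) : B1 x = x := by
  rw [B1, Homeomorph.mul_apply, Homeomorph.mul_apply, A_supp h, be_inv_self]

theorem C1_supp {x : OnePoint ℝ} (h : be⁻¹ (be⁻¹ x) ∉ D0) : C1 x = x := by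
  rw [C1, Homeomorph.mul_apply, Homeomorph.mul_apply]
  have := B1_supp h
  rw [B1] at this
  rw [this, be_inv_self]

theorem A_B1 : Commute A B1 := by
  apply comm_of_disj
  intro x
  by_cases h : x ∈ D0
  · right
    apply B1_supp
    intro h2
    have := be_D0 h2
    rw [be_inv_self] at this
    exact not_D1 h this
  · left; exact A_supp h

theorem A_C1 : Commute A C1 := by
  apply comm_of_disj
  intro x
  by_cases h : x ∈ D0
  · right
    apply C1_supp
    intro h2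
    have := be_D1 (be_D0 h2)
    rw [be_inv_self, be_inv_self] at this
    exact not_D2 h this
  · left; exact A_supp h

/-- The conjugating element. -/
noncomputable def gg : G := A * B1 * C1

theorem gg_be : be * gg * be⁻¹ = gg := by
  have h3 : be * C1 * be⁻¹ = A := by
    have h := be_pow
    have e : be * C1 * be⁻¹ = (be * be * be) * A * (be * be * be)⁻¹ := by
      rw [C1]; group
    rw [e, h]; group
  have h1 : be * A * be⁻¹ = B1 := rfl
  have h2 : be * B1 * be⁻¹ = C1 := rfl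
  calc be * gg * be⁻¹ = (be * A * be⁻¹) * (be * B1 * be⁻¹) * (be * C1 * be⁻¹) := by
        rw [gg]; group
    _ = B1 * C1 * A := by rw [h1, h2, h3]
    _ = A * (B1 * C1) := ((A_B1.mul_right A_C1).eq).symm
    _ = gg := by rw [gg, mul_assoc]

/-- The second generator. -/
noncomputable def yy : G := gg * rho * gg⁻¹

theorem yy_sq : yy * yy = be := by
  have h : gg * be * gg⁻¹ = be := by
    have : be * gg = gg * be := by
      have := gg_be
      calc be * gg = (be * gg * be⁻¹) * be := by group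
        _ = gg * be := by rw [this]
    rw [← this]; group
  calc yy * yy = gg * (rho * rho) * gg⁻¹ := by rw [yy]; group
    _ = be := by rw [rho_sq, h]

noncomputable def RR : G := B1 * C1 * (rho * gg⁻¹ * rho⁻¹)

theorem RR_fix {x : OnePoint ℝ} (h : x ∈ D0) : RR x = x := by
  set z := rho⁻¹ x with hz
  have hzx : rho z = x := by rw [hz, Homeomorph.inv_apply, Homeomorph.apply_symm_apply]
  have hA : A z = z := by
    apply A_supp
    intro h2
    have := rho_D0 h2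
    rw [hzx] at this
    exact not_R0 h this
  have hB : B1 z = z := by
    apply B1_supp
    intro h2
    have := be_R0 (rho_D0 h2)
    rw [← rho_be, be_inv_self, hzx] at this
    exact not_R1 h this
  have hC : C1 z = z := by
    apply C1_supp
    intro h2
    have := be_R1 (be_R0 (rho_D0 h2))
    rw [← rho_be, ← rho_be, be_inv_self, be_inv_self, hzx] at this
    exact not_R2 h this
  have hg : gg z = z := by
    rw [gg, Homeomorph.mul_apply, Homeomorph.mul_apply, hC, hB, hA]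
  have hB' : B1 x = x := by
    apply B1_supp
    intro h2
    have := be_D0 h2
    rw [be_inv_self] at this
    exact not_D1 h this
  have hC' : C1 x = x := by
    apply C1_supp
    intro h2
    have := be_D1 (be_D0 h2)
    rw [be_inv_self, be_inv_self] at this
    exact not_D2 h this
  rw [RR, Homeomorph.mul_apply, Homeomorph.mul_apply, Homeomorph.mul_apply, Homeomorph.mul_apply,
    ← hz, inv_fix hg, hzx, hC', hB']

theorem ww_eq : yy * rho⁻¹ = A * RR := by
  rw [yy, RR, gg]; group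

theorem t3_RR : Commute t3 RR := by
  apply comm_of_disj
  intro x
  by_cases h : x ∈ D0
  · right; exact RR_fix h
  · left; exact t3_supp h

theorem comm_w : t3 * (yy * rho⁻¹) * t3⁻¹ * (yy * rho⁻¹)⁻¹ =
    E tO ^ (4 : ℤ) * s0 * (E tO ^ (4 : ℤ))⁻¹ := by
  have h1 : RR * t3⁻¹ * RR⁻¹ = t3⁻¹ := by
    have := t3_RR.inv_left.eq
    rw [← this]; group
  calc t3 * (yy * rho⁻¹) * t3⁻¹ * (yy * rho⁻¹)⁻¹
      = t3 * A * (RR * t3⁻¹ * RR⁻¹) * A⁻¹ := by rw [ww_eq]; group
    _ = t3 * A * t3⁻¹ * A⁻¹ := by rw [h1]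
    _ = Y 4 * (Y 5)⁻¹ := comm_t3_A
    _ = _ := by rw [s_shift]; norm_num

theorem rho_mem : rho ∈ T0 := by
  have hz : zO ∈ F0 := by
    unfold zO
    exact mul_mem (mul_mem (mul_mem (mul_mem (mul_mem (mul_mem (inv_mem bO_mem) (inv_mem bO_mem))
      tO_mem) tO_mem) (inv_mem bO_mem)) (inv_mem tO_mem)) bO_mem
  exact mul_mem (mul_mem (mul_mem (inv_mem T0_t) T0_i) (inv_mem T0_t)) (T0_F0 hz)

/-- The group `S` is generated by two elements. -/
theorem two_gen : Subgroup.closure {c4, yy} = Subgroup.closure (ThompsonT ∪ {s0}) := by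
  apply le_antisymm
  · rw [Subgroup.closure_le]
    set S := Subgroup.closure (ThompsonT ∪ {s0}) with hS
    have mt : E tO ∈ S := Subgroup.subset_closure (Or.inl T_t)
    have mi : iG ∈ S := Subgroup.subset_closure (Or.inl T_i)
    have mb : E bO ∈ S := Subgroup.subset_closure (Or.inl T_b)
    have ms : s0 ∈ S := Subgroup.subset_closure (Or.inr rfl)
    have mT0 : T0 ≤ S := by
      unfold T0
      rw [Subgroup.closure_le]
      rintro x (rfl | rfl | rfl)
      · exact mt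
      · exact mi
      · exact mb
    have mbe : be ∈ S := mul_mem mi (inv_mem mt)
    have mA : A ∈ S := by
      rw [A_eq]
      exact mul_mem (mul_mem (mul_mem (zpow_mem mt _) ms) (inv_mem (zpow_mem mt _)))
        (mul_mem (mul_mem (zpow_mem mt _) ms) (inv_mem (zpow_mem mt _)))
    have mB : B1 ∈ S := mul_mem (mul_mem mbe mA) (inv_mem mbe)
    have mC : C1 ∈ S := mul_mem (mul_mem mbe mB) (inv_mem mbe)
    have mg : gg ∈ S := mul_mem (mul_mem mA mB) mC
    rintro x (rfl | rfl)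
    · exact mul_mem mbe (inv_mem mb)
    · exact mul_mem (mul_mem mg (mT0 rho_mem)) (inv_mem mg)
  · rw [Subgroup.closure_le]
    set H := Subgroup.closure {c4, yy} with hH
    have mc : c4 ∈ H := Subgroup.subset_closure (by simp)
    have my : yy ∈ H := Subgroup.subset_closure (by simp)
    have mbe : be ∈ H := by rw [← yy_sq]; exact mul_mem my my
    have mt : E tO ∈ H := by
      have : E tO = c4 * c4 * be⁻¹ := by rw [c4_sq]; group
      rw [this]
      exact mul_mem (mul_mem mc mc) (inv_mem mbe)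
    have mi : iG ∈ H := by
      have : iG = be * E tO := by rw [be]; group
      rw [this]
      exact mul_mem mbe mt
    have mb : E bO ∈ H := by
      have : E bO = c4⁻¹ * be := by rw [c4]; group
      rw [this]
      exact mul_mem (inv_mem mc) mbe
    have mT0 : T0 ≤ H := by
      unfold T0
      rw [Subgroup.closure_le]
      rintro x (rfl | rfl | rfl)
      · exact mt
      · exact mi
      · exact mb
    have mt3 : t3 ∈ H := mul_mem (mul_mem (zpow_mem mt _) mb) (inv_mem (zpow_mem mt _))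
    have mw : yy * rho⁻¹ ∈ H := mul_mem my (inv_mem (mT0 rho_mem))
    have ms4 : E tO ^ (4 : ℤ) * s0 * (E tO ^ (4 : ℤ))⁻¹ ∈ H := by
      rw [← comm_w]
      exact mul_mem (mul_mem (mul_mem mt3 mw) (inv_mem mt3)) (inv_mem mw)
    have ms : s0 ∈ H := by
      have : s0 = (E tO ^ (4 : ℤ))⁻¹ * (E tO ^ (4 : ℤ) * s0 * (E tO ^ (4 : ℤ))⁻¹) *
          E tO ^ (4 : ℤ) := by group
      rw [this]
      exact mul_mem (mul_mem (inv_mem (zpow_mem mt _)) ms4) (zpow_mem mt _)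
    rintro x (hx | hx)
    · exact mT0 (thompson_le hx)
    · rw [Set.mem_singleton_iff.1 hx]; exact ms

theorem s0_inf : s0 ∞ = ∞ := E_inf _
theorem s0_coe (t : ℝ) : s0 (t : OnePoint ℝ) = ((sFun t : ℝ) : OnePoint ℝ) := by
  rw [s0, E_coe, sFun_eq]

end Q21.CS
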