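import Mathlib

/-!
# Thompson's group `T` of piecewise `PSL₂(ℤ)` homeomorphisms of the circle and the map `s`
-/

namespace Q21.CS

open OnePoint

/-- The value at the real number `t` of the Möbius map `t ↦ (a t + b) / (c t + d)`, as a point of
the circle `ℝ ∪ {∞}`. -/
noncomputable def mob (a b c d : ℤ) (t : ℝ) : OnePoint ℝ :=
  if (c : ℝ) * t + d = 0 then ∞ else (((a * t + b) / (c * t + d) : ℝ) : OnePoint ℝ)

/-- A homeomorphism of the circle `ℝ ∪ {∞}` is piecewise `PSL₂(ℤ)`: there is a finite set `B` of
rational numbers such that on every interval `J` of the real line containing no point of `B` the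
map agrees with one Möbius map given by an integer matrix of determinant one.  (The possible
breakpoints are the points of `B` and `∞`.) -/
def PiecewisePSL2Z (f : OnePoint ℝ ≃ₜ OnePoint ℝ) : Prop :=
  ∃ B : Finset ℚ, ∀ J : Set ℝ, J.OrdConnected → (∀ r ∈ B, (r : ℝ) ∉ J) →
    ∃ a b c d : ℤ, a * d - b * c = 1 ∧ ∀ t ∈ J, f (t : OnePoint ℝ) = mob a b c d t

/-- Thompson's group `T` as the set of piecewise `PSL₂(ℤ)` homeomorphisms of the circle. -/
def ThompsonT : Set (OnePoint ℝ ≃ₜ OnePoint ℝ) := {f | PiecewisePSL2Z f}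

/-- The map `s` on the real line. -/
noncomputable def sFun (t : ℝ) : ℝ :=
  if t ≤ 0 then t else if t ≤ 1 then 2 * t / (1 + t) else if t ≤ 2 then 2 / (3 - t) else t

end Q21.CS
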