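import Mathlib
import Pool.Agent.Q21.SS.Aut

set_option autoImplicit false

/-! Groups of finite type acting on a rooted tree: the level stabiliser `St_G(D-1)` has torsion
abelianisation. -/

namespace Q21.FT

open Equiv Q21.SS

/-- The vertices of the finite tree `T^[D]`. -/
abbrev Tr (X : Type) (D : ℕ) : Type := {w : List X // w.length ≤ D}

variable {X : Type}

/-- The group of finite type given by a group `P` of permutations of `T^[D]`. -/
def GP {D : ℕ} (P : Subgroup (Perm (Tr X D))) : Subgroup (Perm (List X)) where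
  carrier := {g | IsAut g ∧ ∀ v : List X, ∃ p ∈ P, ∀ w : Tr X D, g (v ++ w.1) = g v ++ (p w).1}
  mul_mem' := by
    rintro g h ⟨hg, hg'⟩ ⟨hh, hh'⟩
    refine ⟨hg.mul hh, fun v => ?_⟩
    obtain ⟨q, hq, hq'⟩ := hh' v
    obtain ⟨p, hp, hp'⟩ := hg' (h v)
    refine ⟨p * q, P.mul_mem hp hq, fun w => ?_⟩
    show g (h (v ++ w.1)) = g (h v) ++ (p (q w)).1
    rw [hq', hp']
  one_mem' := ⟨IsAut.one, fun v => ⟨1, P.one_mem, fun w => rfl⟩⟩
  inv_mem' := by
    rintro g ⟨hg, hg'⟩
    refine ⟨hg.inv, fun v => ?_⟩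
    obtain ⟨p, hp, hp'⟩ := hg' (g⁻¹ v)
    refine ⟨p⁻¹, P.inv_mem hp, fun w => ?_⟩
    have h1 := hp' (p⁻¹ w)
    rw [show g (g⁻¹ v) = v from g.apply_symm_apply v,
      show p (p⁻¹ w) = w from p.apply_symm_apply w] at h1
    rw [← h1]
    exact g.symm_apply_apply _

/-- The stabiliser in `G` of the levels up to `n`. -/
def StL (G : Subgroup (Perm (List X))) (n : ℕ) : Subgroup (Perm (List X)) where
  carrier := {g | g ∈ G ∧ ∀ w : List X, w.length ≤ n → g w = w}
  mul_mem' := by
    rintro g h ⟨hg, hg'⟩ ⟨hh, hh'⟩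
    refine ⟨G.mul_mem hg hh, fun w hw => ?_⟩
    show g (h w) = w
    rw [hh' w hw, hg' w hw]
  one_mem' := ⟨G.one_mem, fun w _ => rfl⟩
  inv_mem' := by
    rintro g ⟨hg, hg'⟩
    refine ⟨G.inv_mem hg, fun w hw => ?_⟩
    have := hg' w hw
    conv_lhs => rw [← this]
    exact g.symm_apply_apply _

variable {D : ℕ} {P : Subgroup (Perm (Tr X D))}

theorem GP.isAut {g : Perm (List X)} (hg : g ∈ GP P) : IsAut g := hg.1

theorem GP.sec_mem {g : Perm (List X)} (hg : g ∈ GP P) (v : List X) :
    sec g hg.1 v ∈ GP P := by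
  refine ⟨sec_isAut hg.1 v, fun u => ?_⟩
  obtain ⟨p, hp, hp'⟩ := hg.2 (v ++ u)
  refine ⟨p, hp, fun w => ?_⟩
  have h1 := hp' w
  rw [List.append_assoc, sec_spec hg.1, sec_spec hg.1, List.append_assoc] at h1
  exact List.append_cancel_left h1

theorem selfSim_GP : SelfSim (GP P) := by
  intro g hg
  obtain ⟨σ, h⟩ := hg.1.exists_mk
  exact ⟨σ, _, h, fun x => GP.sec_mem hg [x]⟩

section
variable [DecidableEq X]

omit [DecidableEq X] in
theorem psi_mem (hD : 1 ≤ D) {t : X → Perm (List X)} (ht : ∀ x, t x ∈ StL (GP P) (D - 1)) :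
    ψ t ∈ StL (GP P) (D - 1) := by
  refine ⟨⟨?_, ?_⟩, ?_⟩
  · intro a b
    rw [ψ_apply]
    cases a with
    | nil => simp [mk_nil]
    | cons y a =>
      cases b with
      | nil => simp [mk_nil, mk_cons]
      | cons z b =>
        rw [mk_cons, mk_cons, List.cons_prefix_cons, List.cons_prefix_cons]
        simp only [Perm.coe_one, id_eq]
        constructor
        · rintro ⟨rfl, h2⟩
          exact ⟨rfl, ((ht y).1.1 a b).1 h2⟩
        · rintro ⟨rfl, h2⟩
          exact ⟨rfl, ((ht y).1.1 a b).2 h2⟩
  · intro u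
    cases u with
    | nil =>
      refine ⟨1, P.one_mem, fun w => ?_⟩
      obtain ⟨w, hw⟩ := w
      rw [ψ_apply, mk_nil, List.nil_append, List.nil_append]
      cases w with
      | nil => rfl
      | cons y w =>
        rw [mk_cons]
        show y :: _ = y :: w
        rw [(ht y).2]
        simp at hw
        omega
    | cons y u =>
      obtain ⟨p, hp, hp'⟩ := (ht y).1.2 u
      refine ⟨p, hp, fun w => ?_⟩
      rw [ψ_apply, List.cons_append, mk_cons, mk_cons, hp']
      rfl
  · intro w hw
    rw [ψ_apply]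
    cases w with
    | nil => rfl
    | cons y w =>
      rw [mk_cons]
      show y :: _ = y :: w
      rw [(ht y).2]
      simp at hw
      omega

/-- (F1) -/
theorem at_mem (hD : 1 ≤ D) (v : List X) {k : Perm (List X)} (hk : k ∈ StL (GP P) (D - 1)) :
    at_ v k ∈ StL (GP P) (D - 1) := by
  induction v with
  | nil => exact hk
  | cons x v ih =>
    rw [at_cons]
    apply psi_mem hD
    intro y
    by_cases hy : y = x
    · subst hy
      rwa [Pi.mulSingle_eq_same]
    · rw [Pi.mulSingle_eq_of_ne hy]
      exact Subgroup.one_mem _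

/-- Conjugation of a rigid element. -/
theorem conj_at {f : Perm (List X)} (u u' : List X) (h : Perm (List X))
    (hs : ∀ w, f (u ++ w) = u' ++ h w) (k : Perm (List X)) :
    f * at_ u k * f⁻¹ = at_ u' (h * k * h⁻¹) := by
  ext1 w
  show f (at_ u k (f⁻¹ w)) = _
  by_cases hw : u' <+: w
  · obtain ⟨w', rfl⟩ := hw
    have h1 : f⁻¹ (u' ++ w') = u ++ h⁻¹ w' := by
      have h2 := hs (h⁻¹ w')
      rw [show h (h⁻¹ w') = w' from h.apply_symm_apply w'] at h2
      rw [← h2]
      exact f.symm_apply_apply _
    rw [h1, at_apply_append, hs, at_apply_append]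
    rfl
  · rw [at_apply_of_not u' _ w hw, at_apply_of_not u]
    · exact f.apply_symm_apply w
    · rintro ⟨w', hw'⟩
      apply hw
      have h3 := hs w'
      rw [hw', show f (f⁻¹ w) = w from f.apply_symm_apply w] at h3
      exact ⟨_, h3.symm⟩

end

/-- (F2) -/
theorem pow_fix {h : Perm (List X)} (hh : h ∈ GP P) (w : List X) (hw : w.length ≤ D) :
    (h ^ Monoid.exponent P) w = w := by
  obtain ⟨p, hp, hp'⟩ := hh.2 []
  have h1 : ∀ w : Tr X D, h w.1 = (p w).1 := fun w => by
    have := hp' w
    rw [List.nil_append, hh.1.nil, List.nil_append] at this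
    exact this
  have h2 : ∀ (n : ℕ) (w : Tr X D), (h ^ n) w.1 = ((p ^ n) w).1 := by
    intro n
    induction n with
    | zero => intro w; rfl
    | succ n ih =>
      intro w
      rw [pow_succ, pow_succ]
      show (h ^ n) (h w.1) = ((p ^ n) (p w)).1
      rw [h1, ih]
  have h3 : p ^ Monoid.exponent P = 1 := by
    have := Monoid.pow_exponent_eq_one (⟨p, hp⟩ : P)
    exact congrArg Subtype.val this
  have h4 := h2 (Monoid.exponent P) ⟨w, hw⟩
  rw [h3] at h4
  exact h4

theorem pow_mem {h : Perm (List X)} (hh : h ∈ GP P) :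
    h ^ Monoid.exponent P ∈ StL (GP P) (D - 1) :=
  ⟨(GP P).pow_mem hh _, fun w hw => pow_fix hh w (by omega)⟩

section
variable [DecidableEq X]

/-- The homomorphism `t ↦ at_ u (ψ t)` on the group of functions from `X` to `K`. -/
def atψ (hD : 1 ≤ D) (u : List X) :
    (X → StL (GP P) (D - 1)) →* StL (GP P) (D - 1) where
  toFun t := ⟨at_ u (ψ fun x => (t x : Perm (List X))), at_mem hD u (psi_mem hD fun x => (t x).2)⟩
  map_one' := by
    apply Subtype.ext
    show at_ u (ψ 1) = 1
    rw [map_one, at_one]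
  map_mul' s t := by
    apply Subtype.ext
    show at_ u (ψ ((fun x => (s x : Perm (List X))) * fun x => (t x : Perm (List X)))) = _
    rw [map_mul, at_mul]
    rfl

theorem atψ_mulSingle (hD : 1 ≤ D) (u : List X) (x : X) (k : StL (GP P) (D - 1)) :
    (atψ hD u (Pi.mulSingle x k) : Perm (List X)) = at_ (u ++ [x]) k := by
  rw [at_append]
  show at_ u (ψ fun y => ((Pi.mulSingle x k : X → StL (GP P) (D - 1)) y : Perm (List X))) = _
  congr 2
  funext y
  by_cases hy : y = x
  · subst hy
    simp [at_nil]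
  · simp [Pi.mulSingle_eq_of_ne hy]

theorem map_atψ {A : Type} [CommGroup A] [Fintype X] (hD : 1 ≤ D) (u : List X)
    (φ : StL (GP P) (D - 1) →* A) (t : X → StL (GP P) (D - 1)) :
    φ (atψ hD u t) = ∏ x, φ ⟨at_ (u ++ [x]) (t x), at_mem hD _ (t x).2⟩ := by
  have h1 : φ.comp (atψ hD u) = ∏ x, (φ.comp ((atψ hD u).comp (MonoidHom.mulSingle _ x))).comp
      (Pi.evalMonoidHom _ x) := by
    apply MonoidHom.pi_ext
    intro i k
    rw [MonoidHom.finsetProd_apply, Finset.prod_eq_single i]
    · simp
    · intro j _ hj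
      simp [Pi.mulSingle_eq_of_ne hj]
    · simp
  have h2 := congrArg (fun θ : (X → StL (GP P) (D - 1)) →* A => θ t) h1
  simp only [MonoidHom.comp_apply, MonoidHom.finsetProd_apply] at h2
  rw [h2]
  refine Finset.prod_congr rfl fun x _ => ?_
  congr 1
  exact Subtype.ext (atψ_mulSingle hD u x (t x))

omit [DecidableEq X] in
theorem prod_orbit {A : Type} [CommGroup A] [Fintype X] (τ : Perm X) (a : X → A)
    (h1 : ∀ x, a (τ x) = a x) (h2 : ∀ x, a x ^ Function.minimalPeriod τ x = 1) :
    ∏ x, a x = 1 := by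
  classical
  refine Finset.prod_cancels_of_partition_cancels (MulAction.orbitRel (Subgroup.zpowers τ) X) ?_
  intro x _
  have h3 : ∀ y, MulAction.orbitRel (Subgroup.zpowers τ) X y x → a y = a x := by
    rintro y ⟨⟨g, hg⟩, rfl⟩
    obtain ⟨n, rfl⟩ := Subgroup.mem_zpowers_iff.1 hg
    show a ((τ ^ n) x) = a x
    induction n using Int.induction_on with
    | zero => rfl
    | succ n ih =>
      rw [add_comm, zpow_add, zpow_one, Perm.mul_apply, h1, ih ⟨_, rfl⟩]
    | pred n ih =>
      rw [← h1, ← Perm.mul_apply, ← zpow_one_add, ← ih ⟨_, rfl⟩]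
      congr 3
      ring
  rw [Finset.prod_congr rfl (g := fun _ => a x)
    (fun y hy => h3 y (Finset.mem_filter.1 hy).2), Finset.prod_const]
  have h4 : (Finset.univ.filter fun y => MulAction.orbitRel (Subgroup.zpowers τ) X y x).card =
      Function.minimalPeriod τ x := by
    have h5 := MulAction.minimalPeriod_eq_card (a := τ) (b := x)
    have h6 : Function.minimalPeriod (τ • ·) x = Function.minimalPeriod τ x := rfl
    rw [← h6, h5]
    rw [← Fintype.card_coe]
    apply Fintype.card_congr
    exact Equiv.subtypeEquivRight fun y => by simp [MulAction.orbitRel_apply]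
  rw [h4, h2]

/-- The main claim. -/
theorem claim [Fintype X] (hD : 1 ≤ D) (n : ℕ) : ∀ (u : List X) (h f : Perm (List X))
    (hh : h ∈ GP P) (_ : f ∈ StL (GP P) (D - 1)) (_ : ∀ w, f (u ++ w) = u ++ h w)
    (A : Type) [CommGroup A] (φ : StL (GP P) (D - 1) →* A)
    (_ : ∀ k : StL (GP P) (D - 1),
      (∀ w : List X, w.length ≤ n + u.length → (k : Perm (List X)) w = w) → φ k = 1),
    φ ⟨at_ u (h ^ Monoid.exponent P), at_mem hD u (pow_mem hh)⟩ = 1 := by
  induction n with
  | zero =>
    intro u h f hh hf hs A _ φ hφ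
    apply hφ
    intro w hw
    show at_ u (h ^ Monoid.exponent P) w = w
    by_cases huw : u <+: w
    · have h1 : u = w := huw.eq_of_length (le_antisymm huw.length_le (by omega))
      subst h1
      have h2 := at_apply_append u (h ^ Monoid.exponent P) []
      rw [pow_fix hh [] (by simp)] at h2
      simpa using h2
    · exact at_apply_of_not u _ w huw
  | succ n ih =>
    intro u h f hh hf hs A _ φ hφ
    obtain ⟨τ, s, rfl, hsG⟩ := selfSim_GP.exists hh
    set m := Monoid.exponent P with hm
    -- the power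
    obtain ⟨τ', t, ht, htG⟩ := selfSim_GP.exists ((GP P).pow_mem hh m)
    have hτ' : τ' = 1 := by
      ext x
      have h1 := pow_fix hh [x] (by simpa using hD)
      rw [ht, mk_cons] at h1
      exact (List.cons.inj h1).1
    subst hτ'
    have ht' : mk τ s ^ m = ψ t := ht
    have htK : ∀ x, t x ∈ StL (GP P) (D - 1) := by
      intro x
      refine ⟨htG x, fun w hw => ?_⟩
      have h1 := pow_fix hh (x :: w) (by simp; omega)
      rw [ht, mk_cons] at h1
      exact (List.cons.inj h1).2
    -- invariance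
    have hinv : ∀ x, t (τ x) = s x * t x * (s x)⁻¹ := by
      intro x
      have h1 : mk τ s * ψ t * (mk τ s)⁻¹ = ψ t := by
        rw [← ht', ← pow_succ', pow_succ, mul_inv_cancel_right]
      rw [conj_ψ] at h1
      have h2 := congrFun (ψ_injective h1) (τ x)
      simp only [show τ⁻¹ (τ x) = x from τ.symm_apply_apply x] at h2
      exact h2.symm
    have h0 : (⟨at_ u (mk τ s ^ m), at_mem hD u (pow_mem hh)⟩ : StL (GP P) (D - 1)) =
        atψ hD u (fun x => ⟨t x, htK x⟩) := by
      apply Subtype.ext
      show at_ u (mk τ s ^ m) = at_ u (ψ fun x => t x)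
      rw [ht']
    rw [h0, map_atψ]
    apply prod_orbit τ
    · -- invariance
      intro x
      have hfx : ∀ w, f ((u ++ [x]) ++ w) = (u ++ [τ x]) ++ s x w := by
        intro w
        rw [List.append_assoc, hs, List.singleton_append, mk_cons, List.append_assoc,
          List.singleton_append]
      have h1 := conj_at (u ++ [x]) (u ++ [τ x]) (s x) hfx (t x)
      rw [← hinv] at h1
      have h2 : (⟨at_ (u ++ [τ x]) (t (τ x)), at_mem hD _ (htK _)⟩ : StL (GP P) (D - 1)) =
          ⟨f, hf⟩ * ⟨at_ (u ++ [x]) (t x), at_mem hD _ (htK _)⟩ * ⟨f, hf⟩⁻¹ := by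
        apply Subtype.ext
        exact h1.symm
      show φ ⟨at_ (u ++ [τ x]) (t (τ x)), _⟩ = φ ⟨at_ (u ++ [x]) (t x), _⟩
      rw [h2, map_mul, map_mul, map_inv]
      rw [mul_comm (φ _) (φ _), mul_inv_cancel_right]
    · intro x
      set r := Function.minimalPeriod τ x with hr
      have hpx : ∀ j : ℕ, (mk τ s ^ j) [x] = [(τ ^ j) x] := by
        intro j
        induction j with
        | zero => rfl
        | succ j ihj =>
          rw [pow_succ', pow_succ']
          show mk τ s ((mk τ s ^ j) [x]) = _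
          rw [ihj, mk_cons, (hsG _).1.nil]
          rfl
      have hrx : (τ ^ r) x = x := by
        have h1 := Function.iterate_minimalPeriod (f := τ) (x := x)
        rwa [Perm.iterate_eq_pow] at h1
      have hrm : r ∣ m := by
        apply Function.IsPeriodicPt.minimalPeriod_dvd
        have h1 := hpx m
        rw [ht, mk_cons] at h1
        have h2 := (List.cons.inj h1).1
        show τ^[m] x = x
        rw [Perm.iterate_eq_pow]
        exact h2.symm
      obtain ⟨k, hk⟩ := hrm
      have hhr : mk τ s ^ r ∈ GP P := (GP P).pow_mem hh r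
      set c := sec (mk τ s ^ r) hhr.1 [x] with hc
      have hcG : c ∈ GP P := GP.sec_mem hhr [x]
      have hsec : ∀ w, (mk τ s ^ r) (x :: w) = x :: c w := by
        intro w
        have h1 := sec_spec hhr.1 [x] w
        rw [hpx, hrx] at h1
        exact h1
      have hsec' : ∀ (j : ℕ) (w : List X), ((mk τ s ^ r) ^ j) (x :: w) = x :: (c ^ j) w := by
        intro j
        induction j with
        | zero => intro w; rfl
        | succ j ihj =>
          intro w
          rw [pow_succ, pow_succ]
          show ((mk τ s ^ r) ^ j) ((mk τ s ^ r) (x :: w)) = x :: (c ^ j) (c w)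
          rw [hsec, ihj]
      have htx : t x = c ^ k := by
        ext1 w
        have h1 := hsec' k w
        rw [← pow_mul, ← hk, ht, mk_cons] at h1
        exact (List.cons.inj h1).2
      have hfr : f ^ r ∈ StL (GP P) (D - 1) := Subgroup.pow_mem _ hf r
      have hfrs : ∀ w, (f ^ r) ((u ++ [x]) ++ w) = (u ++ [x]) ++ c w := by
        have h1 : ∀ (j : ℕ) (w : List X), (f ^ j) (u ++ w) = u ++ (mk τ s ^ j) w := by
          intro j
          induction j with
          | zero => intro w; rfl
          | succ j ihj =>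
            intro w
            rw [pow_succ, pow_succ]
            show (f ^ j) (f (u ++ w)) = u ++ (mk τ s ^ j) (mk τ s w)
            rw [hs, ihj]
        intro w
        rw [List.append_assoc, h1, List.singleton_append, hsec, List.append_assoc,
          List.singleton_append]
      have h3 := ih (u ++ [x]) c (f ^ r) hcG hfr hfrs A φ (by
        intro k hk
        apply hφ
        intro w hw
        apply hk
        simp only [List.length_append, List.length_singleton]
        omega)
      rw [← h3, ← map_pow]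
      congr 1
      apply Subtype.ext
      show (at_ (u ++ [x]) (t x)) ^ r = at_ (u ++ [x]) (c ^ Monoid.exponent P)
      rw [← hm, htx, hk, mul_comm r k, pow_mul]
      exact (map_pow (atH (u ++ [x])) (c ^ k) r).symm

/-- The conclusion. -/
theorem main [Finite X] (hD : 1 ≤ D) {g : Perm (List X)} (hg : g ∈ StL (GP P) (D - 1)) (n : ℕ) :
    ∃ c ∈ ⁅StL (GP P) (D - 1), StL (GP P) (D - 1)⁆, ∀ w : List X, w.length ≤ n →
      (g ^ Monoid.exponent P) w = c w := by
  let _ := Fintype.ofFinite X
  set K := StL (GP P) (D - 1) with hK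
  let N : Subgroup K :=
    { carrier := {k | ∀ w : List X, w.length ≤ n → (k : Perm (List X)) w = w}
      mul_mem' := by
        intro a b ha hb w hw
        show (a : Perm (List X)) ((b : Perm (List X)) w) = w
        rw [hb w hw, ha w hw]
      one_mem' := fun w _ => rfl
      inv_mem' := by
        intro a ha w hw
        show (a : Perm (List X)).symm w = w
        rw [Equiv.symm_apply_eq, ha w hw] }
  let M : Subgroup (Abelianization K) := N.map Abelianization.of
  let φ : K →* Abelianization K ⧸ M := (QuotientGroup.mk' M).comp Abelianization.of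
  have h1 := claim (P := P) hD n [] g g hg.1 hg (fun w => rfl) _ φ (by
    intro k hk
    show QuotientGroup.mk' M (Abelianization.of k) = 1
    rw [← MonoidHom.mem_ker, QuotientGroup.ker_mk']
    exact ⟨k, fun w hw => hk w (by simpa using hw), rfl⟩)
  have h2 : Abelianization.of (⟨g ^ Monoid.exponent P, pow_mem hg.1⟩ : K) ∈ M := by
    rw [← QuotientGroup.ker_mk' M, MonoidHom.mem_ker]
    exact h1
  obtain ⟨s, hs, hs2⟩ := h2
  have h3 : s⁻¹ * ⟨g ^ Monoid.exponent P, pow_mem hg.1⟩ ∈ commutator K := by
    rw [← Abelianization.ker_of, MonoidHom.mem_ker, map_mul, map_inv, hs2, inv_mul_cancel]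
  refine ⟨((s⁻¹ * ⟨g ^ Monoid.exponent P, pow_mem hg.1⟩ : K) : Perm (List X)), ?_,
    fun w hw => ?_⟩
  · rw [← Subgroup.map_subtype_commutator]
    exact ⟨_, h3, rfl⟩
  · show _ = (s : Perm (List X)).symm ((g ^ Monoid.exponent P) w)
    rw [eq_comm, Equiv.symm_apply_eq]
    refine (hs _ ?_).symm
    have h4 : IsAut (g ^ Monoid.exponent P) := ((GP P).pow_mem hg.1 _).1
    rw [h4.len_eq]
    exact hw

end

end Q21.FT
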