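import Mathlib

set_option autoImplicit false

namespace Pool.Agent.Q21.FX

open Finset

/-- A set `P` of positions (the 1-entries) is a `d`-dimensional `k × ... × k` permutation matrix:
every cross section contains exactly one 1-entry. -/
def IsPermMatrix {d k : ℕ} (P : Finset (Fin d → Fin k)) : Prop :=
  ∀ (l : Fin d) (i : Fin k), ∃! p, p ∈ P ∧ p l = i

/-- The `d`-dimensional `n × ... × n` matrix with 1-entries `A` contains the matrix with 1-entries `P`. -/
def Contains {d n k : ℕ} (A : Finset (Fin d → Fin n)) (P : Finset (Fin d → Fin k)) : Prop :=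
  ∃ j : Fin d → Fin k → Fin n, (∀ l, StrictMono (j l)) ∧ ∀ p ∈ P, (fun l => j l (p l)) ∈ A

open Classical in
/-- `f(n, P, d)`: the largest number of 1-entries of a `d`-dimensional `n × ... × n` matrix avoiding `P`. -/
noncomputable def exf (n : ℕ) {d k : ℕ} (P : Finset (Fin d → Fin k)) : ℕ :=
  (Finset.univ.filter (fun A : Finset (Fin d → Fin n) => ¬ Contains A P)).sup Finset.card

end Pool.Agent.Q21.FX
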