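import Mathlib
import Pool.Agent.Q21.FXD

set_option autoImplicit false

namespace Pool.Agent.Q21.FX

open Finset

/-- parent-closed finite sets of positive integers (heap indexing of the binary tree) -/
def PC (T : Finset ℕ) : Prop := (∀ v ∈ T, 1 ≤ v) ∧ ∀ v ∈ T, 2 ≤ v → v / 2 ∈ T

/-- rank of an element -/
def rk (T : Finset ℕ) (v : ℕ) : ℕ := (T.filter (· < v)).card

theorem rk_lt {T : Finset ℕ} {v w : ℕ} (hv : v ∈ T) (h : v < w) : rk T v < rk T w := by
  apply Finset.card_lt_card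
  constructor
  · intro x hx
    simp only [mem_filter] at hx ⊢
    exact ⟨hx.1, hx.2.trans h⟩
  · intro hs
    have : v ∈ T.filter (· < w) := by simp [hv, h]
    have := hs this
    simp at this

theorem rk_inj {T : Finset ℕ} {v w : ℕ} (hv : v ∈ T) (hw : w ∈ T) (h : rk T v = rk T w) : v = w := by
  rcases lt_trichotomy v w with h1 | h1 | h1
  · have := rk_lt hv h1; omega
  · exact h1
  · have := rk_lt hw h1; omega

theorem rk_lt_card {T : Finset ℕ} {v : ℕ} (hv : v ∈ T) : rk T v < T.card := by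
  apply Finset.card_lt_card
  constructor
  · exact filter_subset _ _
  · intro hs
    have := hs hv
    simp at this

theorem one_mem {T : Finset ℕ} (hT : PC T) : ∀ v, v ∈ T → 1 ∈ T := by
  intro v
  induction v using Nat.strong_induction_on with
  | _ v ih =>
    intro hv
    rcases Nat.lt_or_ge v 2 with h | h
    · have := hT.1 v hv
      have h1 : v = 1 := by omega
      rwa [h1] at hv
    · exact ih (v / 2) (by omega) (hT.2 v hv h)

open Classical in
/-- the code of a parent-closed set -/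
noncomputable def code (r : ℕ) (T : Finset ℕ) : Fin r → Bool × Bool := fun i =>
  (decide (∃ v ∈ T, rk T v = i.1 ∧ 2 * v ∈ T), decide (∃ v ∈ T, rk T v = i.1 ∧ 2 * v + 1 ∈ T))

theorem code_inj {r : ℕ} {T T' : Finset ℕ} (hT : PC T) (hT' : PC T') (hr : T.card = r) (hr' : T'.card = r)
    (h : code r T = code r T') : T = T' := by
  have key : ∀ {T T' : Finset ℕ}, PC T → PC T' → T.card = r → T'.card = r → code r T = code r T' →
      ∀ v, (∀ u < v, (u ∈ T ↔ u ∈ T')) → v ∈ T → v ∈ T' := by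
    intro T T' hT hT' hr hr' h v ih hv
    rcases Nat.lt_or_ge v 2 with h2 | h2
    · have h1 : v = 1 := by have := hT.1 v hv; omega
      subst h1
      have : 0 < T.card := Finset.card_pos.2 ⟨_, hv⟩
      have : 0 < T'.card := by omega
      obtain ⟨w, hw⟩ := Finset.card_pos.1 this
      exact one_mem hT' w hw
    · have hu := hT.2 v hv h2
      have hu' := (ih (v / 2) (by omega)).1 hu
      have hrk : rk T (v / 2) = rk T' (v / 2) := by
        unfold rk
        congr 1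
        ext x
        simp only [mem_filter]
        constructor
        · rintro ⟨h3, h4⟩
          exact ⟨(ih x (by omega)).1 h3, h4⟩
        · rintro ⟨h3, h4⟩
          exact ⟨(ih x (by omega)).2 h3, h4⟩
      have hlt : rk T (v / 2) < r := by rw [← hr]; exact rk_lt_card hu
      have hc := congrFun h ⟨_, hlt⟩
      unfold code at hc
      simp only [Prod.mk.injEq, decide_eq_decide] at hc
      rcases Nat.even_or_odd' v with ⟨w, hw | hw⟩
      · have hw' : v / 2 = w := by omega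
        rw [hw'] at hu hu' hrk hc
        obtain ⟨z, hz, hz1, hz2⟩ := hc.1.1 ⟨w, hu, rfl, by rwa [← hw]⟩
        rw [hrk] at hz1
        have := rk_inj hz hu' hz1
        subst this
        rwa [hw]
      · have hw' : v / 2 = w := by omega
        rw [hw'] at hu hu' hrk hc
        obtain ⟨z, hz, hz1, hz2⟩ := hc.2.1 ⟨w, hu, rfl, by rwa [← hw]⟩
        rw [hrk] at hz1
        have := rk_inj hz hu' hz1
        subst this
        rwa [hw]
  ext v
  induction v using Nat.strong_induction_on with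
  | _ v ih =>
    exact ⟨key hT hT' hr hr' h v ih, key hT' hT hr' hr h.symm v (fun u hu => (ih u hu).symm)⟩

theorem card_PC {r : ℕ} (F : Finset (Finset ℕ)) (hF : ∀ T ∈ F, PC T ∧ T.card = r) : F.card ≤ 4 ^ r := by
  have h1 : F.card ≤ (Finset.univ : Finset (Fin r → Bool × Bool)).card := by
    apply Finset.card_le_card_of_injOn (code r)
    · intro T _
      simp
    · intro T hT T' hT' h
      exact code_inj (hF T hT).1 (hF T' hT').1 (hF T hT).2 (hF T' hT').2 h
  refine h1.trans (le_of_eq ?_)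
  simp

theorem prune {r : ℕ} : ∀ (n : ℕ) (T : Finset ℕ), PC T → T.card = r + n → ∃ T' ⊆ T, PC T' ∧ T'.card = r := by
  intro n
  induction n with
  | zero => intro T hT h; exact ⟨T, Subset.refl _, hT, by simpa using h⟩
  | succ n ih =>
    intro T hT h
    have hne : T.Nonempty := by rw [← Finset.card_pos]; omega
    have hm := T.max'_mem hne
    have hPC : PC (T.erase (T.max' hne)) := by
      constructor
      · intro v hv; exact hT.1 v (mem_of_mem_erase hv)
      · intro v hv h2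
        have hv' := mem_of_mem_erase hv
        have := T.le_max' v hv'
        refine mem_erase.2 ⟨by omega, hT.2 v hv' h2⟩
    obtain ⟨T', h1, h2, h3⟩ := ih _ hPC (by rw [card_erase_of_mem hm]; omega)
    exact ⟨T', h1.trans (erase_subset _ _), h2, h3⟩

/-- the tree nodes which contain one of the intervals `[l a, h a]` -/
def nodes (t r : ℕ) (l h : ℕ → ℕ) : Finset ℕ :=
  ((Finset.range r ×ˢ Finset.range (t + 1)).filter
    (fun p => (2 ^ t + l p.1) / 2 ^ p.2 = (2 ^ t + h p.1) / 2 ^ p.2)).image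
    (fun p => (2 ^ t + l p.1) / 2 ^ p.2)

theorem mem_nodes {t r : ℕ} {l h : ℕ → ℕ} {v : ℕ} : v ∈ nodes t r l h ↔
    ∃ a < r, ∃ s ≤ t, (2 ^ t + l a) / 2 ^ s = v ∧ (2 ^ t + h a) / 2 ^ s = v := by
  unfold nodes
  simp only [mem_image, mem_filter, mem_product, mem_range, Prod.exists]
  constructor
  · rintro ⟨a, s, ⟨⟨h1, h2⟩, h3⟩, h4⟩
    exact ⟨a, h1, s, by omega, h4, by rw [← h3]; exact h4⟩
  · rintro ⟨a, h1, s, h2, h3, h4⟩
    exact ⟨a, s, ⟨⟨h1, by omega⟩, by rw [h3, h4]⟩, h3⟩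

theorem div_top {t x : ℕ} (hx : x < 2 ^ t) : (2 ^ t + x) / 2 ^ t = 1 := by
  rw [Nat.div_eq_iff (by positivity)]
  omega

theorem div_ge {t x s : ℕ} (hs : s ≤ t) : 2 ^ (t - s) ≤ (2 ^ t + x) / 2 ^ s := by
  rw [Nat.le_div_iff_mul_le (by positivity), ← pow_add, Nat.sub_add_cancel hs]
  omega

theorem div_lt {t x s : ℕ} (hs : s ≤ t) (hx : x < 2 ^ t) : (2 ^ t + x) / 2 ^ s < 2 ^ (t - s + 1) := by
  rw [Nat.div_lt_iff_lt_mul (by positivity), ← pow_add]
  have : t - s + 1 + s = t + 1 := by omega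
  rw [this, pow_succ]
  omega

theorem nodes_PC {t r : ℕ} {l h : ℕ → ℕ} (hl : ∀ a < r, l a < 2 ^ t) : PC (nodes t r l h) := by
  constructor
  · intro v hv
    obtain ⟨a, ha, s, hs, h1, h2⟩ := mem_nodes.1 hv
    have := div_ge (x := l a) hs
    have h3 : 0 < 2 ^ (t - s) := by positivity
    omega
  · intro v hv h2v
    obtain ⟨a, ha, s, hs, h1, h2⟩ := mem_nodes.1 hv
    have hst : s ≠ t := by
      rintro rfl
      have := div_top (hl a ha)
      omega
    refine mem_nodes.2 ⟨a, ha, s + 1, by omega, ?_, ?_⟩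
    · rw [pow_succ, ← Nat.div_div_eq_div_mul, h1]
    · rw [pow_succ, ← Nat.div_div_eq_div_mul, h2]

theorem nodes_card {t r : ℕ} {l h : ℕ → ℕ} (hlh : ∀ a < r, l a ≤ h a) (hh : ∀ a < r, h a < 2 ^ t)
    (hdis : ∀ a b, a < b → b < r → h a < l b) : r ≤ (nodes t r l h).card := by
  classical
  have hex : ∀ a < r, ∃ s, s ≤ t ∧ (2 ^ t + l a) / 2 ^ s = (2 ^ t + h a) / 2 ^ s := by
    intro a ha
    exact ⟨t, le_refl _, by rw [div_top (hh a ha), div_top ((hlh a ha).trans_lt (hh a ha))]⟩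
  -- minimal level
  have hmin : ∀ a : ℕ, ∃ s : ℕ, a < r → (s ≤ t ∧ (2 ^ t + l a) / 2 ^ s = (2 ^ t + h a) / 2 ^ s ∧
      ∀ s' < s, (2 ^ t + l a) / 2 ^ s' ≠ (2 ^ t + h a) / 2 ^ s') := by
    intro a
    by_cases ha : a < r
    · refine ⟨Nat.find (hex a ha), fun _ => ⟨(Nat.find_spec (hex a ha)).1, (Nat.find_spec (hex a ha)).2, ?_⟩⟩
      intro s' hs' heq
      exact Nat.find_min (hex a ha) hs' ⟨by have := (Nat.find_spec (hex a ha)).1; omega, heq⟩
    · exact ⟨0, fun h => absurd h ha⟩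
  choose S hS using hmin
  have hinj : ∀ a b, a < b → b < r → (2 ^ t + l a) / 2 ^ S a ≠ (2 ^ t + l b) / 2 ^ S b := by
    intro a b hab hb heq
    have ha : a < r := by omega
    obtain ⟨ha1, ha2, ha3⟩ := hS a ha
    obtain ⟨hb1, hb2, hb3⟩ := hS b hb
    have hla : l a < 2 ^ t := (hlh a ha).trans_lt (hh a ha)
    have hlb : l b < 2 ^ t := (hlh b hb).trans_lt (hh b hb)
    have hSS : S a = S b := by
      rcases lt_trichotomy (S a) (S b) with h1 | h1 | h1
      · exfalso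
        have h2 := div_ge (x := l a) ha1
        have h3 := div_lt hb1 hlb
        have h4 : 2 ^ (t - S b + 1) ≤ 2 ^ (t - S a) := Nat.pow_le_pow_right (by norm_num) (by omega)
        omega
      · exact h1
      · exfalso
        have h2 := div_ge (x := l b) hb1
        have h3 := div_lt ha1 hla
        have h4 : 2 ^ (t - S a + 1) ≤ 2 ^ (t - S b) := Nat.pow_le_pow_right (by norm_num) (by omega)
        omega
    rw [← hSS] at heq hb2 hb3
    have hd := hdis a b hab hb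
    rcases Nat.eq_zero_or_pos (S a) with h0 | h0
    · rw [h0] at heq
      simp only [pow_zero, Nat.div_one] at heq
      have := hlh a ha
      omega
    · obtain ⟨s, hs⟩ : ∃ s, S a = s + 1 := ⟨S a - 1, by omega⟩
      rw [hs] at heq ha2 hb2 ha3 hb3
      have e1 := ha3 s (by omega)
      have e2 := hb3 s (by omega)
      rw [pow_succ, ← Nat.div_div_eq_div_mul, ← Nat.div_div_eq_div_mul] at heq ha2 hb2
      have m1 : (2 ^ t + l a) / 2 ^ s ≤ (2 ^ t + h a) / 2 ^ s := Nat.div_le_div_right (by have := hlh a ha; omega)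
      have m2 : (2 ^ t + h a) / 2 ^ s ≤ (2 ^ t + l b) / 2 ^ s := Nat.div_le_div_right (by omega)
      have m3 : (2 ^ t + l b) / 2 ^ s ≤ (2 ^ t + h b) / 2 ^ s := Nat.div_le_div_right (by have := hlh b hb; omega)
      omega
  have : (Finset.range r).card ≤ (nodes t r l h).card := by
    apply Finset.card_le_card_of_injOn (fun a => (2 ^ t + l a) / 2 ^ S a)
    · intro a ha
      have ha' : a < r := by simpa using ha
      obtain ⟨ha1, ha2, ha3⟩ := hS a ha'
      exact mem_nodes.2 ⟨a, ha', S a, ha1, rfl, ha2.symm⟩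
    · intro a ha b hb hab
      have ha' : a < r := by simpa using ha
      have hb' : b < r := by simpa using hb
      rcases lt_trichotomy a b with h1 | h1 | h1
      · exact absurd hab (hinj a b h1 hb')
      · exact h1
      · exact absurd hab.symm (hinj b a h1 ha')
  simpa using this

/-- number of functions which do not vanish on `S` -/
theorem count_nz {ι : Type*} [Fintype ι] [DecidableEq ι] (m : ℕ) (S : Finset ι) :
    ((Finset.univ.filter (fun w : ι → Fin (m + 1) => ∀ p ∈ S, w p ≠ 0)).card : ℝ) =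
      ((m : ℝ) / (m + 1)) ^ S.card * ((m : ℝ) + 1) ^ Fintype.card ι := by
  have h1 : Finset.univ.filter (fun w : ι → Fin (m + 1) => ∀ p ∈ S, w p ≠ 0) =
      Fintype.piFinset (fun p => if p ∈ S then Finset.univ.erase (0 : Fin (m + 1)) else Finset.univ) := by
    ext w
    simp only [mem_filter, mem_univ, true_and, Fintype.mem_piFinset]
    constructor
    · intro h p
      by_cases hp : p ∈ S
      · simp [hp, h p hp]
      · simp [hp]
    · intro h p hp
      have := h p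
      simpa [hp] using this
  rw [h1, Fintype.card_piFinset]
  have h2 : ∀ p : ι, ((if p ∈ S then Finset.univ.erase (0 : Fin (m + 1)) else Finset.univ).card) =
      if p ∈ S then m else m + 1 := by
    intro p
    by_cases hp : p ∈ S
    · simp [hp, Finset.card_erase_of_mem]
    · simp [hp]
  rw [Finset.prod_congr rfl (fun p _ => h2 p), Finset.prod_ite]
  simp only [prod_const]
  have h3 : (Finset.univ.filter (fun p => p ∈ S)) = S := by ext; simp
  have h4 : (Finset.univ.filter (fun p => p ∉ S)) = Sᶜ := by ext; simp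
  rw [h3, h4, Finset.card_compl]
  have h5 : S.card ≤ Fintype.card ι := Finset.card_le_univ S
  have hm : (m : ℝ) + 1 ≠ 0 := by positivity
  rw [div_pow, div_mul_eq_mul_div, eq_div_iff (by positivity)]
  push_cast
  rw [mul_assoc, ← pow_add, Nat.sub_add_cancel h5]

/-- a cell survives when none of the pairs of tree nodes above it is killed -/
def alive {t m : ℕ} (w : Fin (2 ^ (t + 1)) × Fin (2 ^ (t + 1)) → Fin (m + 1)) (x y : ℕ) : Prop :=
  ∀ p : Fin (2 ^ (t + 1)) × Fin (2 ^ (t + 1)), (∃ s ≤ t, (2 ^ t + x) / 2 ^ s = p.1.1) →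
    (∃ s ≤ t, (2 ^ t + y) / 2 ^ s = p.2.1) → w p ≠ 0

/-- no all-ones interval minor of size `r` -/
def NoMinor (t r : ℕ) (A : Finset (Fin (2 ^ t) × Fin (2 ^ t))) : Prop :=
  ¬ ∃ l h l' h' : ℕ → ℕ, (∀ a < r, l a ≤ h a ∧ h a < 2 ^ t ∧ l' a ≤ h' a ∧ h' a < 2 ^ t) ∧
    (∀ a b, a < b → b < r → h a < l b ∧ h' a < l' b) ∧
    ∀ a < r, ∀ b < r, ∃ z ∈ A, l a ≤ z.1.1 ∧ z.1.1 ≤ h a ∧ l' b ≤ z.2.1 ∧ z.2.1 ≤ h' b

open Classical in
theorem exists_matrix (t r m : ℕ)
    (hpos : (16 : ℝ) ^ r * ((m : ℝ) / (m + 1)) ^ (r ^ 2) < ((m : ℝ) / (m + 1)) ^ ((t + 1) ^ 2)) :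
    ∃ A : Finset (Fin (2 ^ t) × Fin (2 ^ t)), NoMinor t r A ∧
      ((2 : ℝ) ^ t) ^ 2 * (((m : ℝ) / (m + 1)) ^ ((t + 1) ^ 2) - 16 ^ r * ((m : ℝ) / (m + 1)) ^ (r ^ 2)) ≤
        (A.card : ℝ) := by
  set β : ℝ := (m : ℝ) / (m + 1) with hβ
  have hβ0 : 0 ≤ β := by positivity
  have hβ1 : β ≤ 1 := by rw [hβ, div_le_one (by positivity)]; linarith
  set n1 := 2 ^ (t + 1) with hn1
  let Ω := Fin n1 × Fin n1 → Fin (m + 1)
  let AA : Ω → Finset (Fin (2 ^ t) × Fin (2 ^ t)) := fun w => Finset.univ.filter (fun z => alive w z.1.1 z.2.1)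
  -- families of subtrees
  let FF : Finset (Finset ℕ) := (Finset.range n1).powerset.filter (fun T => PC T ∧ T.card = r)
  have hFF : FF.card ≤ 4 ^ r := card_PC FF (fun T hT => (mem_filter.1 hT).2)
  let emb : Finset ℕ → Finset (Fin n1) := fun T => Finset.univ.filter (fun v => v.1 ∈ T)
  have hemb : ∀ T ∈ FF, (emb T).card = r := by
    intro T hT
    have hT' := mem_filter.1 hT
    rw [← hT'.2.2]
    apply Finset.card_bij (fun v _ => v.1)
    · intro v hv; simpa [emb] using hv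
    · intro v _ w _ h; exact Fin.ext h
    · intro v hv
      have : v < n1 := by simpa using (mem_powerset.1 hT'.1) hv
      exact ⟨⟨v, this⟩, by simpa [emb] using hv, rfl⟩
  let bad : Ω → Prop := fun w => ∃ q ∈ FF ×ˢ FF, ∀ p ∈ (emb q.1) ×ˢ (emb q.2), w p ≠ 0
  -- total number
  set tot : ℝ := ((m : ℝ) + 1) ^ Fintype.card (Fin n1 × Fin n1) with htot
  have htot0 : 0 < tot := by positivity
  have hbad : ((Finset.univ.filter bad).card : ℝ) ≤ 16 ^ r * β ^ (r ^ 2) * tot := by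
    have h1 : Finset.univ.filter bad ⊆ (FF ×ˢ FF).biUnion
        (fun q => Finset.univ.filter (fun w : Ω => ∀ p ∈ (emb q.1) ×ˢ (emb q.2), w p ≠ 0)) := by
      intro w hw
      obtain ⟨q, hq, h⟩ := (mem_filter.1 hw).2
      exact mem_biUnion.2 ⟨q, hq, mem_filter.2 ⟨mem_univ _, h⟩⟩
    have h2 := (Finset.card_le_card h1).trans Finset.card_biUnion_le
    have h3 : ((Finset.univ.filter bad).card : ℝ) ≤ ∑ q ∈ FF ×ˢ FF,
        ((Finset.univ.filter (fun w : Ω => ∀ p ∈ (emb q.1) ×ˢ (emb q.2), w p ≠ 0)).card : ℝ) := by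
      exact_mod_cast h2
    have h4 : ∀ q ∈ FF ×ˢ FF,
        ((Finset.univ.filter (fun w : Ω => ∀ p ∈ (emb q.1) ×ˢ (emb q.2), w p ≠ 0)).card : ℝ) =
        β ^ (r ^ 2) * tot := by
      intro q hq
      have hq' := mem_product.1 hq
      have := count_nz m ((emb q.1) ×ˢ (emb q.2))
      rw [Finset.card_product, hemb _ hq'.1, hemb _ hq'.2, ← pow_two] at this
      exact this
    rw [Finset.sum_congr rfl h4, Finset.sum_const, nsmul_eq_mul, Finset.card_product] at h3
    refine h3.trans ?_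
    have h5 : ((FF.card * FF.card : ℕ) : ℝ) ≤ 16 ^ r := by
      have : FF.card * FF.card ≤ 4 ^ r * 4 ^ r := Nat.mul_le_mul hFF hFF
      have h6 : (4 : ℕ) ^ r * 4 ^ r = 16 ^ r := by rw [← mul_pow]; norm_num
      rw [h6] at this
      exact_mod_cast this
    have h7 : 0 ≤ β ^ (r ^ 2) * tot := by positivity
    calc ((FF.card * FF.card : ℕ) : ℝ) * (β ^ (r ^ 2) * tot) ≤ 16 ^ r * (β ^ (r ^ 2) * tot) :=
          mul_le_mul_of_nonneg_right h5 h7
      _ = _ := by ring
  have halive : ∀ z : Fin (2 ^ t) × Fin (2 ^ t),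
      β ^ ((t + 1) ^ 2) * tot ≤ ((Finset.univ.filter (fun w : Ω => alive w z.1.1 z.2.1)).card : ℝ) := by
    intro z
    let C : ℕ → Finset (Fin n1) := fun x => Finset.univ.filter (fun v => ∃ s ≤ t, (2 ^ t + x) / 2 ^ s = v.1)
    have hC : ∀ x, (C x).card ≤ t + 1 := by
      intro x
      have h1 : (C x).card ≤ ((Finset.range (t + 1)).image (fun s => (2 ^ t + x) / 2 ^ s)).card := by
        apply Finset.card_le_card_of_injOn (fun v => v.1)
        · intro v hv
          obtain ⟨s, hs, h⟩ := (mem_filter.1 hv).2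
          exact mem_coe.2 (mem_image.2 ⟨s, by simp; omega, h⟩)
        · intro v _ w _ h; exact Fin.ext h
      exact h1.trans (Finset.card_image_le.trans (by simp))
    have h1 := count_nz m ((C z.1.1) ×ˢ (C z.2.1))
    have h2 : (Finset.univ.filter (fun w : Ω => alive w z.1.1 z.2.1)) =
        Finset.univ.filter (fun w : Ω => ∀ p ∈ (C z.1.1) ×ˢ (C z.2.1), w p ≠ 0) := by
      ext w
      constructor
      · intro hw
        have h := (mem_filter.1 hw).2
        refine mem_filter.2 ⟨mem_univ _, fun p hp => ?_⟩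
        have hp' := mem_product.1 hp
        exact h p (mem_filter.1 hp'.1).2 (mem_filter.1 hp'.2).2
      · intro hw
        have h := (mem_filter.1 hw).2
        refine mem_filter.2 ⟨mem_univ _, fun p hp hp' => ?_⟩
        exact h p (mem_product.2 ⟨mem_filter.2 ⟨mem_univ _, hp⟩, mem_filter.2 ⟨mem_univ _, hp'⟩⟩)
    rw [h2]
    have h3 : ((Finset.univ.filter (fun w : Ω => ∀ p ∈ (C z.1.1) ×ˢ (C z.2.1), w p ≠ 0)).card : ℝ) =
        β ^ ((C z.1.1) ×ˢ (C z.2.1)).card * tot := h1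
    rw [h3]
    apply mul_le_mul_of_nonneg_right _ htot0.le
    apply pow_le_pow_of_le_one hβ0 hβ1
    rw [Finset.card_product, pow_two]
    exact Nat.mul_le_mul (hC _) (hC _)
  -- averaging
  have hsum : ∑ w : Ω, ((AA w).card : ℝ) = ∑ z : Fin (2 ^ t) × Fin (2 ^ t),
      ((Finset.univ.filter (fun w : Ω => alive w z.1.1 z.2.1)).card : ℝ) := by
    have h1 : ∀ w : Ω, ((AA w).card : ℝ) = ∑ z : Fin (2 ^ t) × Fin (2 ^ t),
        if alive w z.1.1 z.2.1 then (1 : ℝ) else 0 := by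
      intro w
      simp only [AA, Finset.card_filter]
      push_cast
      rfl
    have h2 : ∀ z : Fin (2 ^ t) × Fin (2 ^ t),
        ((Finset.univ.filter (fun w : Ω => alive w z.1.1 z.2.1)).card : ℝ) =
        ∑ w : Ω, if alive w z.1.1 z.2.1 then (1 : ℝ) else 0 := by
      intro z
      simp only [Finset.card_filter]
      push_cast
      rfl
    rw [Finset.sum_congr rfl (fun w _ => h1 w), Finset.sum_congr rfl (fun z _ => h2 z), Finset.sum_comm]
  have hbig : ∑ w : Ω, (((2 : ℝ) ^ t) ^ 2 * (β ^ ((t + 1) ^ 2) - 16 ^ r * β ^ (r ^ 2))) ≤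
      ∑ w : Ω, (((AA w).card : ℝ) - ((2 : ℝ) ^ t) ^ 2 * (if bad w then 1 else 0)) := by
    rw [Finset.sum_const, nsmul_eq_mul, Finset.sum_sub_distrib, ← Finset.mul_sum, hsum]
    have h1 : ∑ w : Ω, (if bad w then (1 : ℝ) else 0) = ((Finset.univ.filter bad).card : ℝ) := by
      simp only [Finset.card_filter]
      push_cast
      rfl
    rw [h1]
    have h2 : ((Finset.univ : Finset Ω).card : ℝ) = tot := by
      simp only [Finset.card_univ, Ω, Fintype.card_fun, Fintype.card_fin, htot]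
      push_cast
      rfl
    rw [h2]
    have h3 : ∑ z : Fin (2 ^ t) × Fin (2 ^ t), (β ^ ((t + 1) ^ 2) * tot) ≤
        ∑ z : Fin (2 ^ t) × Fin (2 ^ t),
          ((Finset.univ.filter (fun w : Ω => alive w z.1.1 z.2.1)).card : ℝ) :=
      Finset.sum_le_sum (fun z _ => halive z)
    rw [Finset.sum_const, nsmul_eq_mul] at h3
    have h4 : ((Finset.univ : Finset (Fin (2 ^ t) × Fin (2 ^ t))).card : ℝ) = ((2 : ℝ) ^ t) ^ 2 := by
      simp only [Finset.card_univ, Fintype.card_prod, Fintype.card_fin]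
      push_cast
      ring
    rw [h4] at h3
    have h5 : 0 ≤ ((2 : ℝ) ^ t) ^ 2 := by positivity
    nlinarith [mul_le_mul_of_nonneg_left hbad h5]
  obtain ⟨w, _, hw⟩ := Finset.exists_le_of_sum_le (s := (Finset.univ : Finset Ω))
    ⟨fun _ => 0, mem_univ _⟩ hbig
  have hgood : ¬ bad w := by
    intro hb
    rw [if_pos hb] at hw
    have h1 : ((AA w).card : ℝ) ≤ ((2 : ℝ) ^ t) ^ 2 := by
      have : (AA w).card ≤ (Finset.univ : Finset (Fin (2 ^ t) × Fin (2 ^ t))).card := Finset.card_le_univ _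
      simp only [Finset.card_univ, Fintype.card_prod, Fintype.card_fin] at this
      have h2 : (((AA w).card : ℕ) : ℝ) ≤ ((2 ^ t * 2 ^ t : ℕ) : ℝ) := by exact_mod_cast this
      refine h2.trans (le_of_eq ?_)
      push_cast; ring
    have h3 : 0 < ((2 : ℝ) ^ t) ^ 2 * (β ^ ((t + 1) ^ 2) - 16 ^ r * β ^ (r ^ 2)) := by
      apply mul_pos (by positivity)
      linarith
    linarith
  rw [if_neg hgood] at hw
  refine ⟨AA w, ?_, by linarith⟩
  rintro ⟨l, h, l', h', h1, h2, h3⟩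
  apply hgood
  -- the two trees
  have key : ∀ (l h : ℕ → ℕ), (∀ a < r, l a ≤ h a ∧ h a < 2 ^ t) → (∀ a b, a < b → b < r → h a < l b) →
      ∃ T ∈ FF, T ⊆ nodes t r l h := by
    intro l h e1 e2
    have hc := nodes_card (t := t) (r := r) (l := l) (h := h) (fun a ha => (e1 a ha).1) (fun a ha => (e1 a ha).2) e2
    have hp : PC (nodes t r l h) := nodes_PC (fun a ha => (e1 a ha).1.trans_lt (e1 a ha).2)
    obtain ⟨T, hT1, hT2, hT3⟩ := prune (r := r) ((nodes t r l h).card - r) _ hp (by omega)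
    refine ⟨T, mem_filter.2 ⟨mem_powerset.2 ?_, hT2, hT3⟩, hT1⟩
    intro v hv
    obtain ⟨a, ha, s, hs, h5, h6⟩ := mem_nodes.1 (hT1 hv)
    have h7 := div_lt hs ((e1 a ha).1.trans_lt (e1 a ha).2)
    have h8 : 2 ^ (t - s + 1) ≤ 2 ^ (t + 1) := Nat.pow_le_pow_right (by norm_num) (by omega)
    rw [Finset.mem_range, hn1]
    omega
  obtain ⟨T, hT, hTs⟩ := key l h (fun a ha => ⟨(h1 a ha).1, (h1 a ha).2.1⟩) (fun a b hab hb => (h2 a b hab hb).1)
  obtain ⟨T', hT', hTs'⟩ := key l' h' (fun a ha => ⟨(h1 a ha).2.2.1, (h1 a ha).2.2.2⟩)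
    (fun a b hab hb => (h2 a b hab hb).2)
  refine ⟨(T, T'), mem_product.2 ⟨hT, hT'⟩, ?_⟩
  rintro ⟨v, v'⟩ hp
  rw [mem_product] at hp
  have hv : v.1 ∈ T := by simpa [emb] using hp.1
  have hv' : v'.1 ∈ T' := by simpa [emb] using hp.2
  obtain ⟨a, ha, s, hs, h5, h6⟩ := mem_nodes.1 (hTs hv)
  obtain ⟨b, hb, s', hs', h7, h8⟩ := mem_nodes.1 (hTs' hv')
  obtain ⟨z, hz, g1, g2, g3, g4⟩ := h3 a ha b hb
  have hal : alive w z.1.1 z.2.1 := (mem_filter.1 hz).2
  apply hal (v, v')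
  · refine ⟨s, hs, le_antisymm ?_ ?_⟩
    · rw [← h6]; exact Nat.div_le_div_right (by omega)
    · rw [← h5]; exact Nat.div_le_div_right (by omega)
  · refine ⟨s', hs', le_antisymm ?_ ?_⟩
    · rw [← h8]; exact Nat.div_le_div_right (by omega)
    · rw [← h7]; exact Nat.div_le_div_right (by omega)

theorem le_exf {n d k : ℕ} {P : Finset (Fin d → Fin k)} {A : Finset (Fin d → Fin n)} (h : ¬ Contains A P) :
    A.card ≤ exf n P := by
  classical
  exact Finset.le_sup (f := Finset.card) (mem_filter.2 ⟨mem_univ _, h⟩)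

/-- the involution of `Fin k` transposing the first `R * R` indices -/
def sig {k R : ℕ} (hk : R * R ≤ k) (i : Fin k) : Fin k :=
  if h : i.1 < R * R then ⟨(i.1 % R) * R + i.1 / R, by
    have h1 : i.1 / R < R := Nat.div_lt_of_lt_mul h
    have hR : 0 < R := Nat.pos_of_ne_zero (by rintro rfl; simp at h)
    have h2 : i.1 % R < R := Nat.mod_lt _ hR
    have : (i.1 % R) * R + i.1 / R < R * R := by nlinarith
    omega⟩ else i

theorem sig_val {k R : ℕ} (hk : R * R ≤ k) {a b : ℕ} (ha : a < R) (hb : b < R) (h : a * R + b < k) :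
    (sig hk ⟨a * R + b, h⟩).1 = b * R + a := by
  have h1 : a * R + b < R * R := by nlinarith
  have hR : 0 < R := by omega
  have h2 : (a * R + b) % R = b := by
    rw [Nat.mul_add_mod', Nat.mod_eq_of_lt hb]
  have h3 : (a * R + b) / R = a := by
    rw [Nat.mul_comm a R, Nat.mul_add_div hR, Nat.div_eq_of_lt hb, add_zero]
  unfold sig
  rw [dif_pos h1]
  simp only [h2, h3]

theorem sig_sig {k R : ℕ} (hk : R * R ≤ k) (i : Fin k) : sig hk (sig hk i) = i := by
  by_cases h : i.1 < R * R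
  · have hR : 0 < R := Nat.pos_of_ne_zero (by rintro rfl; simp at h)
    have h1 : i.1 / R < R := Nat.div_lt_of_lt_mul h
    have h2 : i.1 % R < R := Nat.mod_lt _ hR
    have h3 : i.1 = (i.1 / R) * R + i.1 % R := (Nat.div_add_mod' i.1 R).symm
    have h4 : (i.1 / R) * R + i.1 % R < k := by omega
    have h5 : i = ⟨(i.1 / R) * R + i.1 % R, h4⟩ := Fin.ext h3
    have h6 : (sig hk i).1 = (i.1 % R) * R + i.1 / R := by
      conv_lhs => rw [h5]
      exact sig_val hk h1 h2 h4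
    have h7 : (i.1 % R) * R + i.1 / R < k := by rw [← h6]; exact (sig hk i).2
    have h8 : sig hk i = ⟨(i.1 % R) * R + i.1 / R, h7⟩ := Fin.ext h6
    apply Fin.ext
    rw [h8, sig_val hk h2 h1 h7, ← h3]
  · have : sig hk i = i := by unfold sig; rw [dif_neg h]
    rw [this, this]

/-- the permutation matrix -/
def PP (d : ℕ) {k R : ℕ} (hk : R * R ≤ k) : Finset (Fin d → Fin k) :=
  Finset.univ.image (fun i : Fin k => fun l : Fin d => if l.1 = 1 then sig hk i else i)

theorem PP_perm (d : ℕ) {k R : ℕ} (hk : R * R ≤ k) : IsPermMatrix (PP d hk) := by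
  intro l j
  by_cases hl : l.1 = 1
  · refine ⟨fun l : Fin d => if l.1 = 1 then sig hk (sig hk j) else sig hk j, ⟨?_, ?_⟩, ?_⟩
    · exact mem_image.2 ⟨sig hk j, mem_univ _, rfl⟩
    · simp [hl, sig_sig]
    · rintro p ⟨hp, hpl⟩
      obtain ⟨i, _, rfl⟩ := mem_image.1 hp
      simp only [hl, if_true] at hpl
      rw [← hpl]
      simp [sig_sig]
  · refine ⟨fun l : Fin d => if l.1 = 1 then sig hk j else j, ⟨?_, ?_⟩, ?_⟩
    · exact mem_image.2 ⟨j, mem_univ _, rfl⟩
    · simp [hl]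
    · rintro p ⟨hp, hpl⟩
      obtain ⟨i, _, rfl⟩ := mem_image.1 hp
      simp only [hl, if_false] at hpl
      rw [← hpl]

/-- plane version of an interval minor, for a general side length -/
def NoMinor' (n R : ℕ) (A : Finset (Fin n × Fin n)) : Prop :=
  ¬ ∃ l h l' h' : ℕ → ℕ, (∀ a < R, l a ≤ h a ∧ h a < n ∧ l' a ≤ h' a ∧ h' a < n) ∧
    (∀ a b, a < b → b < R → h a < l b ∧ h' a < l' b) ∧
    ∀ a < R, ∀ b < R, ∃ z ∈ A, l a ≤ z.1.1 ∧ z.1.1 ≤ h a ∧ l' b ≤ z.2.1 ∧ z.2.1 ≤ h' b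

/-- lifting a plane matrix to `d = e + 2` dimensions -/
def lift2 (e : ℕ) {n : ℕ} (A : Finset (Fin n × Fin n)) : Finset (Fin (e + 2) → Fin n) :=
  Finset.univ.filter (fun x => (x 0, x 1) ∈ A)

theorem card_lift2 (e : ℕ) {n : ℕ} (A : Finset (Fin n × Fin n)) : A.card * n ^ e ≤ (lift2 e A).card := by
  have h1 : (A ×ˢ (Finset.univ : Finset (Fin e → Fin n))).card ≤ (lift2 e A).card := by
    apply Finset.card_le_card_of_injOn
      (fun q => (Fin.cons q.1.1 (Fin.cons q.1.2 q.2 : Fin (e + 1) → Fin n) : Fin (e + 2) → Fin n))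
    · intro q hq
      have := (mem_product.1 (mem_coe.1 hq)).1
      exact mem_coe.2 (mem_filter.2 ⟨mem_univ _, by simpa using this⟩)
    · rintro ⟨⟨a, b⟩, c⟩ _ ⟨⟨a', b'⟩, c'⟩ _ h
      have h1 := Fin.cons_injective2 h
      have h2 := Fin.cons_injective2 h1.2
      simp only [Prod.mk.injEq]
      exact ⟨⟨h1.1, h2.1⟩, h2.2⟩
  rw [Finset.card_product] at h1
  simpa using h1

theorem lift2_avoid (e : ℕ) {n k R : ℕ} (hk : R * R ≤ k) {A : Finset (Fin n × Fin n)} (hA : NoMinor' n R A) :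
    ¬ Contains (lift2 e A) (PP (e + 2) hk) := by
  rintro ⟨j, hj, hP⟩
  apply hA
  have hlt : ∀ a < R, ∀ b < R, a * R + b < k := by intro a ha b hb; nlinarith
  let g : Fin (e + 2) → ℕ → ℕ := fun l i => if h : i < k then (j l ⟨i, h⟩).1 else 0
  have hg : ∀ l i i', i < i' → i' < k → g l i < g l i' := by
    intro l i i' h1 h2
    simp only [g]
    rw [dif_pos (h1.trans h2), dif_pos h2]
    exact hj l (by exact h1)
  have hgle : ∀ l i i', i ≤ i' → i' < k → g l i ≤ g l i' := by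
    intro l i i' h1 h2
    rcases h1.lt_or_eq with h3 | h3
    · exact (hg l i i' h3 h2).le
    · rw [h3]
  have hgn : ∀ l i, i < k → g l i < n := by
    intro l i h1
    simp only [g]
    rw [dif_pos h1]
    exact (j l ⟨i, h1⟩).2
  have hstep : ∀ a b, a < b → a * R + R ≤ b * R := by intro a b h; nlinarith
  refine ⟨fun a => g 0 (a * R), fun a => g 0 (a * R + (R - 1)), fun a => g 1 (a * R), fun a => g 1 (a * R + (R - 1)),
    ?_, ?_, ?_⟩
  · intro a ha
    have h1 := hlt a ha (R - 1) (by omega)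
    exact ⟨hgle _ _ _ (by omega) h1, hgn _ _ h1, hgle _ _ _ (by omega) h1, hgn _ _ h1⟩
  · intro a b hab hb
    have h1 := hlt b hb 0 (by omega)
    have h2 := hstep a b hab
    have hR : 0 < R := by omega
    exact ⟨hg _ _ _ (by omega) (by simpa using h1), hg _ _ _ (by omega) (by simpa using h1)⟩
  · intro a ha b hb
    have h1 := hlt a ha b hb
    have h2 := hlt b hb a ha
    have h3 := hP _ (mem_image.2 ⟨⟨a * R + b, h1⟩, mem_univ _, rfl⟩)
    have h4 := (mem_filter.1 h3).2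
    refine ⟨_, h4, ?_⟩
    have e0 : ((0 : Fin (e + 2)).1 = 1) = False := by simp
    have e1 : ((1 : Fin (e + 2)).1 = 1) = True := by simp
    simp only [e0, e1, if_false, if_true]
    have h5 : (j 0 ⟨a * R + b, h1⟩).1 = g 0 (a * R + b) := by simp only [g]; rw [dif_pos h1]
    have h6 : (j 1 (sig hk ⟨a * R + b, h1⟩)).1 = g 1 (b * R + a) := by
      simp only [g]
      rw [dif_pos h2]
      congr 2
      exact Fin.ext (sig_val hk ha hb h1)
    rw [h5, h6]
    exact ⟨hgle _ _ _ (by omega) h1, hgle _ _ _ (by omega) (hlt a ha (R - 1) (by omega)),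
      hgle _ _ _ (by omega) h2, hgle _ _ _ (by omega) (hlt b hb (R - 1) (by omega))⟩

open Classical in
/-- block diagonal matrix of side `n` with blocks of side `N` -/
noncomputable def blk (n : ℕ) {N : ℕ} (A : Finset (Fin N × Fin N)) : Finset (Fin n × Fin n) :=
  Finset.univ.filter (fun z => z.1.1 / N = z.2.1 / N ∧ ∃ y ∈ A, y.1.1 = z.1.1 % N ∧ y.2.1 = z.2.1 % N)

theorem card_blk (n : ℕ) {N : ℕ} (hN : 0 < N) (A : Finset (Fin N × Fin N)) :
    A.card * (n / N) ≤ (blk n A).card := by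
  classical
  have hb : ∀ (y : Fin N) (s : Fin (n / N)), s.1 * N + y.1 < n := by
    intro y s
    have h1 := y.2
    have h2 : (s.1 + 1) * N ≤ n / N * N := Nat.mul_le_mul_right _ s.2
    have h3 := Nat.div_mul_le_self n N
    have h4 : (s.1 + 1) * N = s.1 * N + N := by ring
    omega
  have h1 : (A ×ˢ (Finset.univ : Finset (Fin (n / N)))).card ≤ (blk n A).card := by
    apply Finset.card_le_card_of_injOn
      (fun q => ((⟨q.2.1 * N + q.1.1.1, hb _ _⟩ : Fin n), (⟨q.2.1 * N + q.1.2.1, hb _ _⟩ : Fin n)))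
    · intro q hq
      have := (mem_product.1 (mem_coe.1 hq)).1
      refine mem_coe.2 (mem_filter.2 ⟨mem_univ _, ?_, q.1, this, ?_, ?_⟩)
      · simp only
        rw [Nat.mul_comm, Nat.mul_add_div hN, Nat.mul_add_div hN, Nat.div_eq_of_lt q.1.1.2,
          Nat.div_eq_of_lt q.1.2.2]
      · simp only
        rw [Nat.mul_add_mod', Nat.mod_eq_of_lt q.1.1.2]
      · simp only
        rw [Nat.mul_add_mod', Nat.mod_eq_of_lt q.1.2.2]
    · rintro ⟨⟨a, b⟩, c⟩ _ ⟨⟨a', b'⟩, c'⟩ _ h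
      simp only [Prod.mk.injEq, Fin.mk.injEq] at h
      have e1 : c.1 = c'.1 := by
        have : (c.1 * N + a.1) / N = (c'.1 * N + a'.1) / N := by rw [h.1]
        rw [Nat.mul_comm, Nat.mul_add_div hN, Nat.mul_comm c'.1, Nat.mul_add_div hN, Nat.div_eq_of_lt a.2,
          Nat.div_eq_of_lt a'.2] at this
        simpa using this
      rw [e1] at h
      have e2 : a = a' := Fin.ext (by omega)
      have e3 : b = b' := Fin.ext (by omega)
      have e4 : c = c' := Fin.ext e1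
      rw [e2, e3, e4]
  rw [Finset.card_product] at h1
  simpa using h1

theorem blk_noMinor (n r : ℕ) {N : ℕ} (hN : 0 < N) {A : Finset (Fin N × Fin N)} (hA : NoMinor' N r A) :
    NoMinor' n (r + 1) (blk n A) := by
  classical
  rintro ⟨l, h, l', h', h1, h2, h3⟩
  apply hA
  obtain ⟨z0, hz0, p1, p2, p3, p4⟩ := h3 0 (by omega) r (by omega)
  have hz0' := (mem_filter.1 hz0).2.1
  set β := z0.1.1 / N with hβ
  have key : ∀ a < r, ∀ b < r, ∃ y ∈ A, l (a + 1) ≤ y.1.1 + β * N ∧ y.1.1 + β * N ≤ h (a + 1) ∧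
      l' b ≤ y.2.1 + β * N ∧ y.2.1 + β * N ≤ h' b := by
    intro a ha b hb
    obtain ⟨z, hz, q1, q2, q3, q4⟩ := h3 (a + 1) (by omega) b (by omega)
    obtain ⟨hz1, y, hy, hy1, hy2⟩ := (mem_filter.1 hz).2
    have g1 := (h2 0 (a + 1) (by omega) (by omega)).1
    have g2 := (h2 b r hb (by omega)).2
    have g3 : β ≤ z.1.1 / N := Nat.div_le_div_right (by omega)
    have g4 : z.2.1 / N ≤ β := by rw [hz0']; exact Nat.div_le_div_right (by omega)
    have g5 : z.1.1 / N = β := by omega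
    have g6 : z.2.1 / N = β := by omega
    have g7 := Nat.div_add_mod' z.1.1 N
    have g8 := Nat.div_add_mod' z.2.1 N
    rw [g5, ← hy1] at g7
    rw [g6, ← hy2] at g8
    exact ⟨y, hy, by omega, by omega, by omega, by omega⟩
  have hr : 0 < r := by
    rcases Nat.eq_zero_or_pos r with h0 | h0
    · exfalso
      apply hA
      subst h0
      exact ⟨fun _ => 0, fun _ => 0, fun _ => 0, fun _ => 0, by simp, by simp, by simp⟩
    · exact h0
  refine ⟨fun a => max (l (a + 1)) (β * N) - β * N, fun a => min (h (a + 1)) (β * N + N - 1) - β * N,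
    fun b => max (l' b) (β * N) - β * N, fun b => min (h' b) (β * N + N - 1) - β * N, ?_, ?_, ?_⟩
  · intro a ha
    obtain ⟨y, hy, q1, q2, q3, q4⟩ := key a ha 0 hr
    obtain ⟨y', hy', q1', q2', q3', q4'⟩ := key 0 hr a ha
    have b1 : y.1.1 < N := y.1.2
    have b2 : y'.2.1 < N := y'.2.2
    simp only
    omega
  · intro a b hab hb
    obtain ⟨y, hy, q1, q2, q3, q4⟩ := key a (by omega) 0 hr
    obtain ⟨y', hy', q1', q2', q3', q4'⟩ := key 0 hr a (by omega)
    have b1 : y.1.1 < N := y.1.2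
    have b2 : y'.2.1 < N := y'.2.2
    have g1 := (h2 (a + 1) (b + 1) (by omega) (by omega)).1
    have g2 := (h2 a b hab (by omega)).2
    simp only
    omega
  · intro a ha b hb
    obtain ⟨y, hy, q1, q2, q3, q4⟩ := key a ha b hb
    refine ⟨y, hy, ?_⟩
    have b1 : y.1.1 < N := y.1.2
    have b2 : y.2.1 < N := y.2.2
    simp only
    omega

theorem noMinor_iff (t r : ℕ) (A : Finset (Fin (2 ^ t) × Fin (2 ^ t))) : NoMinor t r A ↔ NoMinor' (2 ^ t) r A :=
  Iff.rfl

theorem bern (u : ℕ) (hu : 1 ≤ u) : (1 / 2 : ℝ) ≤ (1 - 1 / (8 * u)) ^ (4 * u) := by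
  have h1 : (0 : ℝ) < u := by exact_mod_cast hu
  have h2 : (-2 : ℝ) ≤ -(1 / (8 * u)) := by
    have : (1 : ℝ) / (8 * u) ≤ 2 := by
      rw [div_le_iff₀ (by positivity)]
      have : (1 : ℝ) ≤ u := by exact_mod_cast hu
      nlinarith
    linarith
  have h3 := one_add_mul_le_pow h2 (4 * u)
  have h4 : (1 : ℝ) + ((4 * u : ℕ) : ℝ) * -(1 / (8 * u)) = 1 / 2 := by
    push_cast
    field_simp
    ring
  rw [h4] at h3
  calc (1 / 2 : ℝ) ≤ (1 + -(1 / (8 * u))) ^ (4 * u) := h3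
    _ = _ := by rw [sub_eq_add_neg]

theorem expo (u : ℕ) (hu : 1 ≤ u) : ((1 : ℝ) - 1 / (8 * u)) ^ (8 * u) ≤ 3 / 8 := by
  have h1 : (0 : ℝ) < u := by exact_mod_cast hu
  have h0 : (0 : ℝ) ≤ 1 - 1 / (8 * u) := by
    have : (1 : ℝ) / (8 * u) ≤ 1 := by
      rw [div_le_one (by positivity)]
      have : (1 : ℝ) ≤ u := by exact_mod_cast hu
      nlinarith
    linarith
  have h2 : (1 : ℝ) - 1 / (8 * u) ≤ Real.exp (-(1 / (8 * u))) := by
    have := Real.add_one_le_exp (-(1 / (8 * (u : ℝ))))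
    linarith
  have h3 := pow_le_pow_left₀ h0 h2 (8 * u)
  rw [← Real.exp_nat_mul] at h3
  have h4 : ((8 * u : ℕ) : ℝ) * -(1 / (8 * (u : ℝ))) = -1 := by
    push_cast
    field_simp
  rw [h4, Real.exp_neg] at h3
  have h5 := Real.exp_one_gt_d9
  refine h3.trans ?_
  rw [inv_le_comm₀ (by positivity) (by norm_num)]
  norm_num
  linarith

theorem numbers (u : ℕ) (hu : 1 ≤ u) :
    (16 : ℝ) ^ (32 * u) * (1 - 1 / (8 * u)) ^ ((32 * u) ^ 2) ≤ (1 / 4) ^ u ∧
      (1 / 2 : ℝ) ^ u ≤ (1 - 1 / (8 * u)) ^ ((2 * u) ^ 2) := by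
  have h1 : (0 : ℝ) < u := by exact_mod_cast hu
  have h0 : (0 : ℝ) ≤ 1 - 1 / (8 * u) := by
    have : (1 : ℝ) / (8 * u) ≤ 1 := by
      rw [div_le_one (by positivity)]
      have : (1 : ℝ) ≤ u := by exact_mod_cast hu
      nlinarith
    linarith
  constructor
  · have e1 : (32 * u) ^ 2 = (8 * u) * (128 * u) := by ring
    rw [e1, pow_mul (1 - 1 / (8 * (u : ℝ)))]
    have h2 := pow_le_pow_left₀ (pow_nonneg h0 (8 * u)) (expo u hu) (128 * u)
    calc (16 : ℝ) ^ (32 * u) * ((1 - 1 / (8 * u)) ^ (8 * u)) ^ (128 * u) ≤ 16 ^ (32 * u) * (3 / 8) ^ (128 * u) :=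
          mul_le_mul_of_nonneg_left h2 (by positivity)
      _ = (16 ^ 32 * (3 / 8) ^ 128 : ℝ) ^ u := by rw [mul_pow, ← pow_mul, ← pow_mul]
      _ ≤ (1 / 4) ^ u := by
          apply pow_le_pow_left₀ (by positivity)
          norm_num
  · have e1 : (2 * u) ^ 2 = (4 * u) * u := by ring
    rw [e1, pow_mul]
    exact pow_le_pow_left₀ (by norm_num) (bern u hu) u

/-- plane matrices of side `2 ^ (2 u - 1)` -/
theorem plane (u : ℕ) (hu : 1 ≤ u) : ∃ A : Finset (Fin (2 ^ (2 * u - 1)) × Fin (2 ^ (2 * u - 1))),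
    NoMinor' (2 ^ (2 * u - 1)) (32 * u) A ∧ (2 : ℝ) ^ u * 2 ^ (2 * u - 1) ≤ 4 * (A.card : ℝ) := by
  obtain ⟨h1, h2⟩ := numbers u hu
  have hu' : (0 : ℝ) < u := by exact_mod_cast hu
  have hβ : ((8 * u - 1 : ℕ) : ℝ) / (((8 * u - 1 : ℕ) : ℝ) + 1) = 1 - 1 / (8 * u) := by
    have : ((8 * u - 1 : ℕ) : ℝ) = 8 * u - 1 := by
      rw [Nat.cast_sub (by omega)]
      push_cast; ring
    rw [this]
    field_simp
    ring
  have h3 : (1 / 4 : ℝ) ^ u ≤ (1 / 2) ^ u / 2 := by
    have : (1 / 4 : ℝ) ^ u = (1 / 2) ^ u * (1 / 2) ^ u := by rw [← mul_pow]; norm_num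
    rw [this]
    have h4 : (1 / 2 : ℝ) ^ u ≤ 1 / 2 := by
      calc (1 / 2 : ℝ) ^ u ≤ (1 / 2) ^ 1 := pow_le_pow_of_le_one (by norm_num) (by norm_num) hu
        _ = 1 / 2 := by norm_num
    have h5 : (0 : ℝ) < (1 / 2) ^ u := by positivity
    nlinarith
  have h5 : (0 : ℝ) < (1 / 2) ^ u := by positivity
  have et : 2 * u - 1 + 1 = 2 * u := by omega
  obtain ⟨A, hA1, hA2⟩ := exists_matrix (2 * u - 1) (32 * u) (8 * u - 1) (by
    rw [hβ, et]
    linarith)
  refine ⟨A, hA1, ?_⟩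
  rw [hβ, et] at hA2
  have h6 : ((2 : ℝ) ^ (2 * u - 1)) ^ 2 * ((1 / 2) ^ u / 2) ≤ (A.card : ℝ) := by
    refine le_trans ?_ hA2
    apply mul_le_mul_of_nonneg_left _ (by positivity)
    linarith
  have h7 : (2 : ℝ) ^ (2 * u - 1) * 2 = 2 ^ u * 2 ^ u := by
    rw [← pow_succ, et, ← pow_add]
    congr 1; omega
  have h8 : (2 : ℝ) ^ u * (1 / 2) ^ u = 1 := by rw [← mul_pow]; norm_num
  have h9 : (2 : ℝ) ^ u * 2 ^ (2 * u - 1) = 4 * (((2 : ℝ) ^ (2 * u - 1)) ^ 2 * ((1 / 2) ^ u / 2)) := by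
    have : ((2 : ℝ) ^ (2 * u - 1)) ^ 2 * 2 = (2 ^ u * 2 ^ u) * 2 ^ (2 * u - 1) := by rw [← h7]; ring
    calc (2 : ℝ) ^ u * 2 ^ (2 * u - 1) = (2 : ℝ) ^ u * 2 ^ (2 * u - 1) * ((2 : ℝ) ^ u * (1 / 2) ^ u) := by
          rw [h8, mul_one]
      _ = ((2 ^ u * 2 ^ u) * 2 ^ (2 * u - 1)) * (1 / 2) ^ u := by ring
      _ = _ := by rw [← this]; ring
  linarith

theorem mainN (e u k N : ℕ) (hN0 : 0 < N) (A : Finset (Fin N × Fin N)) (hA1 : NoMinor' N (32 * u) A)
    (hA2 : (2 : ℝ) ^ u * (N : ℝ) ≤ 4 * (A.card : ℝ)) (hk : (32 * u + 1) * (32 * u + 1) ≤ k) (n : ℕ)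
    (hn : N ≤ n) :
    (2 : ℝ) ^ u * (n : ℝ) ^ (e + 1) ≤ 8 * (exf n (PP (e + 2) hk) : ℝ) := by
  have h1 := le_exf (lift2_avoid e hk (blk_noMinor n (32 * u) hN0 hA1))
  have h2 := card_lift2 e (blk n A)
  have h3 := card_blk n hN0 A
  have h4 : (A.card * (n / N)) * n ^ e ≤ exf n (PP (e + 2) hk) :=
    (Nat.mul_le_mul_right _ h3).trans (h2.trans h1)
  have h5 : ((A.card : ℝ) * ((n / N : ℕ) : ℝ)) * (n : ℝ) ^ e ≤ (exf n (PP (e + 2) hk) : ℝ) := by
    exact_mod_cast h4
  have h6 : (n : ℝ) ≤ 2 * N * ((n / N : ℕ) : ℝ) := by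
    have g1 : 1 ≤ n / N := (Nat.one_le_div_iff hN0).2 hn
    have g2 := Nat.div_add_mod n N
    have g3 := Nat.mod_lt n hN0
    have g4 : n ≤ 2 * N * (n / N) := by nlinarith
    exact_mod_cast g4
  have hne : (0 : ℝ) ≤ (n : ℝ) ^ e := by positivity
  have h2u : (0 : ℝ) < 2 ^ u := by positivity
  calc (2 : ℝ) ^ u * (n : ℝ) ^ (e + 1) = (2 ^ u * (n : ℝ)) * (n : ℝ) ^ e := by rw [pow_succ]; ring
    _ ≤ (2 ^ u * (2 * N * ((n / N : ℕ) : ℝ))) * (n : ℝ) ^ e := by
        apply mul_le_mul_of_nonneg_right _ hne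
        exact mul_le_mul_of_nonneg_left h6 h2u.le
    _ = (2 * (2 ^ u * N) * ((n / N : ℕ) : ℝ)) * (n : ℝ) ^ e := by ring
    _ ≤ (2 * (4 * (A.card : ℝ)) * ((n / N : ℕ) : ℝ)) * (n : ℝ) ^ e := by
        apply mul_le_mul_of_nonneg_right _ hne
        apply mul_le_mul_of_nonneg_right _ (by positivity)
        linarith
    _ = 8 * (((A.card : ℝ) * ((n / N : ℕ) : ℝ)) * (n : ℝ) ^ e) := by ring
    _ ≤ _ := by linarith

theorem main (e u k : ℕ) (hu : 1 ≤ u) (hk : (32 * u + 1) * (32 * u + 1) ≤ k) (n : ℕ)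
    (hn : 2 ^ (2 * u - 1) ≤ n) :
    (2 : ℝ) ^ u * (n : ℝ) ^ (e + 1) ≤ 8 * (exf n (PP (e + 2) hk) : ℝ) := by
  obtain ⟨A, hA1, hA2⟩ := plane u hu
  refine mainN e u k _ (by positivity) A hA1 ?_ hk n hn
  refine le_trans (le_of_eq ?_) hA2
  push_cast
  rfl

end Pool.Agent.Q21.FX
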