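import Mathlib
import Pool.Agent.H205R3.Horo

/-!
# Countable compact systems have finite orbits; horofunctions
-/

set_option autoImplicit false

open Filter Topology

namespace Pool.Agent.Q21.HB

section Orbit

variable {Y H : Type} [TopologicalSpace Y] [T2Space Y] [Group H]

/-- A nonempty countable compact set which is invariant under a group of homeomorphisms contains a
point with a finite orbit. -/
theorem exists_finite_orbit (φ : H → Y → Y)
    (hm : ∀ g h y, φ (g * h) y = φ g (φ h y)) (hc : ∀ g, Continuous (φ g))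
    (K : Set Y) (h1 : ∀ y ∈ K, φ 1 y = y) (hK : IsCompact K) (hne : K.Nonempty) (hcount : K.Countable)
    (hinv : ∀ g, ∀ y ∈ K, φ g y ∈ K) :
    ∃ y ∈ K, (Set.range fun g => φ g y).Finite := by
  classical
  -- a minimal nonempty closed invariant subset
  let 𝓒 : Set (Set Y) := {C | C ⊆ K ∧ C.Nonempty ∧ IsClosed C ∧ ∀ g, ∀ y ∈ C, φ g y ∈ C}
  have hK𝓒 : K ∈ 𝓒 := ⟨subset_rfl, hne, hK.isClosed, hinv⟩
  obtain ⟨M, hMK, hM⟩ : ∃ M, M ⊆ K ∧ Minimal (fun C => C ∈ 𝓒) M := by
    refine zorn_superset_nonempty 𝓒 ?_ K hK𝓒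
    intro c hc𝓒 hchain hcne
    refine ⟨⋂₀ c, ?_, fun s hs => Set.sInter_subset_of_mem hs⟩
    obtain ⟨C₀, hC₀⟩ := hcne
    refine ⟨(Set.sInter_subset_of_mem hC₀).trans (hc𝓒 hC₀).1, ?_, ?_, ?_⟩
    · have : Nonempty c := ⟨⟨C₀, hC₀⟩⟩
      refine IsCompact.nonempty_sInter_of_directed_nonempty_isCompact_isClosed
        ?_ (fun U hU => (hc𝓒 hU).2.1)
        (fun U hU => hK.of_isClosed_subset (hc𝓒 hU).2.2.1 (hc𝓒 hU).1)
        (fun U hU => (hc𝓒 hU).2.2.1)
      intro a ha b hb
      rcases hchain.total ha hb with h | h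
      · exact ⟨a, ha, subset_rfl, h⟩
      · exact ⟨b, hb, h, subset_rfl⟩
    · exact isClosed_sInter fun s hs => (hc𝓒 hs).2.2.1
    · intro g y hy
      exact Set.mem_sInter.2 fun s hs => (hc𝓒 hs).2.2.2 g y (Set.mem_sInter.1 hy s hs)
  obtain ⟨hM𝓒, hmin⟩ := hM
  obtain ⟨-, hMne, hMcl, hMinv⟩ := hM𝓒
  have hMc : IsCompact M := hK.of_isClosed_subset hMcl hMK
  -- an isolated point of `M`
  obtain ⟨x, hxM, U, hU, hxU, hUM⟩ : ∃ x ∈ M, ∃ U : Set Y, IsOpen U ∧ x ∈ U ∧
      ∀ y ∈ M, y ∈ U → y = x := by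
    have : CompactSpace M := isCompact_iff_compactSpace.1 hMc
    have : Countable M := (hcount.mono hMK).to_subtype
    have : Nonempty M := hMne.to_subtype
    obtain ⟨x, hx⟩ := nonempty_interior_of_iUnion_of_closed (X := M) (f := fun x : M => {x})
      (fun _ => isClosed_singleton) (by ext z; simp)
    obtain ⟨z, hz⟩ := hx
    obtain ⟨V, hV, hVo, hzV⟩ := mem_interior.1 hz
    obtain ⟨U, hU, rfl⟩ := isOpen_induced_iff.1 hVo
    have hzx : z = x := hV hzV
    subst hzx
    exact ⟨z, z.2, U, hU, hzV, fun y hy hyU => congrArg Subtype.val (hV (show (⟨y, hy⟩ : M) ∈ _ from hyU))⟩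
  have hcov : ∀ y ∈ M, ∃ g, φ g y ∈ U := by
    by_contra hcon
    push Not at hcon
    obtain ⟨y, hy, hyU⟩ := hcon
    have h𝓒 : {y | y ∈ M ∧ ∀ g, φ g y ∉ U} ∈ 𝓒 := by
      refine ⟨fun z hz => hMK hz.1, ⟨y, hy, hyU⟩, ?_, ?_⟩
      · have : {y | y ∈ M ∧ ∀ g, φ g y ∉ U} = M ∩ ⋂ g, (φ g) ⁻¹' Uᶜ := by
          ext z; simp
        rw [this]
        exact hMcl.inter (isClosed_iInter fun g => hU.isClosed_compl.preimage (hc g))
      · intro g z hz
        refine ⟨hMinv g z hz.1, fun h => ?_⟩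
        rw [← hm]
        exact hz.2 _
    have := hmin h𝓒 (fun z hz => hz.1) hxM
    exact this.2 1 (by rw [h1 x (hMK hxM)]; exact hxU)
  have hfin : M.Finite := by
    obtain ⟨T, hT⟩ := hMc.elim_finite_subcover (fun g : H => (φ g) ⁻¹' U)
      (fun g => hU.preimage (hc g)) (fun y hy => by
        obtain ⟨g, hg⟩ := hcov y hy
        exact Set.mem_iUnion.2 ⟨g, hg⟩)
    refine (T.finite_toSet.image fun g => φ g⁻¹ x).subset fun y hy => ?_
    obtain ⟨g, hg, hgU⟩ := Set.mem_iUnion₂.1 (hT hy)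
    refine ⟨g, hg, ?_⟩
    have : φ g y = x := hUM _ (hMinv g y hy) hgU
    change φ g⁻¹ x = y
    rw [← this, ← hm, inv_mul_cancel, h1 y (hMK hy)]
  exact ⟨x, hMK hxM, hfin.subset (by rintro _ ⟨g, rfl⟩; exact hMinv g x hxM)⟩

end Orbit

section Horo

variable {G : Type} [Group G]

/-- The word length. -/
noncomputable def len (S : Finset G) (g : G) : ℕ :=
  sInf {m : ℕ | ∃ l : List G, l.length = m ∧ (∀ s ∈ l, s ∈ S) ∧ l.prod = g}

variable {S : Finset G}

theorem len_le (l : List G) (hl : ∀ s ∈ l, s ∈ S) : len S l.prod ≤ l.length :=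
  Nat.sInf_le ⟨l, rfl, hl, rfl⟩

theorem exists_geod (hs : ∀ s ∈ S, s⁻¹ ∈ S) (hS : Subgroup.closure (S : Set G) = ⊤) (g : G) :
    ∃ l : List G, l.length = len S g ∧ (∀ s ∈ l, s ∈ S) ∧ l.prod = g := by
  have hne : {n : ℕ | ∃ l : List G, l.length = n ∧ (∀ s ∈ l, s ∈ S) ∧ l.prod = g}.Nonempty := by
    have hg : g ∈ (Subgroup.closure (S : Set G)).toSubmonoid := by rw [hS]; trivial
    rw [Subgroup.closure_toSubmonoid] at hg
    obtain ⟨l, hl, hp⟩ := Submonoid.exists_list_of_mem_closure hg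
    refine ⟨l.length, l, rfl, fun s h => ?_, hp⟩
    rcases hl s h with h | h
    · exact h
    · have := hs s⁻¹ (Set.mem_inv.1 h)
      rwa [inv_inv] at this
  exact Nat.sInf_mem hne

theorem len_mul_le (hs : ∀ s ∈ S, s⁻¹ ∈ S) (hS : Subgroup.closure (S : Set G) = ⊤) (x y : G) :
    len S (x * y) ≤ len S x + len S y := by
  obtain ⟨l, h1, h2, h3⟩ := exists_geod hs hS x
  obtain ⟨l', h1', h2', h3'⟩ := exists_geod hs hS y
  have := len_le (S := S) (l ++ l') (by
    intro s hsl
    rcases List.mem_append.1 hsl with h | h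
    · exact h2 s h
    · exact h2' s h)
  rw [List.prod_append, h3, h3', List.length_append, h1, h1'] at this
  exact this

theorem len_inv_le (hs : ∀ s ∈ S, s⁻¹ ∈ S) (hS : Subgroup.closure (S : Set G) = ⊤) (x : G) :
    len S x⁻¹ ≤ len S x := by
  obtain ⟨l, h1, h2, h3⟩ := exists_geod hs hS x
  have := len_le (S := S) (l.map fun a => a⁻¹).reverse (by
    intro s hsl
    rw [List.mem_reverse, List.mem_map] at hsl
    obtain ⟨a, ha, rfl⟩ := hsl
    exact hs a (h2 a ha))
  rw [← List.prod_inv_reverse, h3, List.length_reverse, List.length_map, h1] at this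
  exact this

/-- The normalised distance function of `x`. -/
noncomputable def bz (S : Finset G) (x y : G) : ℤ := (len S (x⁻¹ * y) : ℤ) - (len S x⁻¹ : ℤ)

/-- The integer valued horofunctions. -/
def bd (S : Finset G) : Set (G → ℤ) :=
  {f | ∀ (F : Finset G) (R : ℕ), ∃ x : G, R ≤ len S x⁻¹ ∧ ∀ y ∈ F, f y = bz S x y}

/-- The action. -/
def act (g : G) (f : G → ℤ) : G → ℤ := fun y => f (g⁻¹ * y) - f g⁻¹

theorem act_mul (g h : G) (f : G → ℤ) : act (g * h) f = act g (act h f) := by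
  funext y
  simp only [act, mul_inv_rev, mul_assoc]
  ring

theorem act_continuous (g : G) : Continuous (act (G := G) g) := by
  refine continuous_pi fun y => ?_
  exact (continuous_apply _).sub (continuous_apply _)

theorem bd_one {f : G → ℤ} (hf : f ∈ bd S) : f 1 = 0 := by
  obtain ⟨x, -, hx⟩ := hf {1} 0
  rw [hx 1 (by simp)]
  simp [bz]

theorem act_one {f : G → ℤ} (hf : f ∈ bd S) : act 1 f = f := by
  funext y; simp [act, bd_one hf]

theorem bz_bound (hs : ∀ s ∈ S, s⁻¹ ∈ S) (hS : Subgroup.closure (S : Set G) = ⊤) (x y : G) :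
    bz S x y ∈ Set.Icc (-(len S y : ℤ)) (len S y : ℤ) := by
  have a1 := len_mul_le hs hS x⁻¹ y
  have a2 := len_mul_le hs hS (x⁻¹ * y) y⁻¹
  have a3 := len_inv_le hs hS y
  rw [mul_inv_cancel_right] at a2
  simp only [bz, Set.mem_Icc]
  constructor <;> omega

/-- The set cut out by one finite condition. -/
def cell (S : Finset G) (F : Finset G) (R : ℕ) : Set (G → ℤ) :=
  {f | ∃ x : G, R ≤ len S x⁻¹ ∧ ∀ y ∈ F, f y = bz S x y}

theorem cell_closed (F : Finset G) (R : ℕ) : IsClosed (cell S F R) := by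
  rw [← isOpen_compl_iff, isOpen_iff_mem_nhds]
  intro f hf
  have hopen : IsOpen (⋂ y ∈ F, (fun g : G → ℤ => g y) ⁻¹' {f y}) := by
    refine isOpen_biInter_finset fun y _ => ?_
    exact (isOpen_discrete _).preimage (continuous_apply y)
  refine Filter.mem_of_superset (hopen.mem_nhds (by simp)) ?_
  intro g hg hgc
  apply hf
  obtain ⟨x, hx, hxy⟩ := hgc
  refine ⟨x, hx, fun y hy => ?_⟩
  have : g y = f y := Set.mem_iInter₂.1 hg y hy
  rw [← this]
  exact hxy y hy

/-- The box. -/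
def box (S : Finset G) : Set (G → ℤ) :=
  Set.pi Set.univ fun y => Set.Icc (-(len S y : ℤ)) (len S y : ℤ)

theorem box_compact : IsCompact (box S) :=
  isCompact_univ_pi fun y => (Set.finite_Icc _ _).isCompact

theorem bd_eq : bd S = ⋂ p : Finset G × ℕ, cell S p.1 p.2 := by
  ext f
  simp only [bd, cell, Set.mem_ofPred_eq, Set.mem_iInter, Prod.forall]

theorem bd_closed : IsClosed (bd S) := by
  rw [bd_eq]
  exact isClosed_iInter fun p => cell_closed _ _

theorem bd_box (hs : ∀ s ∈ S, s⁻¹ ∈ S) (hS : Subgroup.closure (S : Set G) = ⊤) :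
    bd S ⊆ box S := by
  intro f hf y _
  obtain ⟨x, -, hx⟩ := hf {y} 0
  rw [hx y (by simp)]
  exact bz_bound hs hS x y

theorem bd_compact (hs : ∀ s ∈ S, s⁻¹ ∈ S) (hS : Subgroup.closure (S : Set G) = ⊤) :
    IsCompact (bd S) :=
  box_compact.of_isClosed_subset bd_closed (bd_box hs hS)

theorem exists_far [Infinite G] (hs : ∀ s ∈ S, s⁻¹ ∈ S)
    (hS : Subgroup.closure (S : Set G) = ⊤) (R : ℕ) : ∃ g : G, R ≤ len S g := by
  by_contra hcon
  push Not at hcon
  have hfin : ({l : List S | l.length < R}).Finite := List.finite_length_lt S R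
  have : (Set.univ : Set G).Finite := by
    refine (hfin.image fun l : List S => (l.map Subtype.val).prod).subset fun g _ => ?_
    obtain ⟨l, h1, h2, h3⟩ := exists_geod hs hS g
    have : ∃ l' : List S, l'.map Subtype.val = l := by
      refine ⟨l.pmap (fun a h => (⟨a, h⟩ : S)) h2, ?_⟩
      rw [List.map_pmap]
      simp
    obtain ⟨l', hl'⟩ := this
    refine ⟨l', ?_, ?_⟩
    · have : l'.length = l.length := by rw [← hl']; simp
      change l'.length < R
      rw [this, h1]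
      exact hcon g
    · change (l'.map Subtype.val).prod = g
      rw [hl', h3]
  exact Set.infinite_univ this

theorem bd_nonempty [Infinite G] (hs : ∀ s ∈ S, s⁻¹ ∈ S)
    (hS : Subgroup.closure (S : Set G) = ⊤) : (bd S).Nonempty := by
  classical
  have key : (⋂ p : Finset G × ℕ, cell S p.1 p.2 ∩ box S).Nonempty := by
    refine IsCompact.nonempty_iInter_of_directed_nonempty_isCompact_isClosed _ ?_ ?_ ?_ ?_
    · intro p q
      refine ⟨(p.1 ∪ q.1, max p.2 q.2), ?_, ?_⟩
      · rintro f ⟨⟨x, hx, hxy⟩, hb⟩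
        exact ⟨⟨x, (le_max_left _ _).trans hx, fun y hy => hxy y (Finset.mem_union_left _ hy)⟩, hb⟩
      · rintro f ⟨⟨x, hx, hxy⟩, hb⟩
        exact ⟨⟨x, (le_max_right _ _).trans hx, fun y hy => hxy y (Finset.mem_union_right _ hy)⟩, hb⟩
    · intro p
      obtain ⟨g, hg⟩ := exists_far hs hS p.2
      exact ⟨bz S g⁻¹, ⟨g⁻¹, by rwa [inv_inv], fun y _ => rfl⟩, fun y _ => bz_bound hs hS _ y⟩
    · intro p
      exact box_compact.inter_left (cell_closed _ _)
    · intro p
      exact (cell_closed _ _).inter box_compact.isClosed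
  obtain ⟨f, hf⟩ := key
  refine ⟨f, ?_⟩
  rw [bd_eq]
  exact Set.mem_iInter.2 fun p => (Set.mem_iInter.1 hf p).1

theorem act_mem (hs : ∀ s ∈ S, s⁻¹ ∈ S) (hS : Subgroup.closure (S : Set G) = ⊤) (g : G)
    (f : G → ℤ) (hf : f ∈ bd S) : act g f ∈ bd S := by
  classical
  intro F R
  obtain ⟨x, hx, hxy⟩ := hf (insert g⁻¹ (F.image fun y => g⁻¹ * y)) (R + len S g)
  refine ⟨g * x, ?_, fun y hy => ?_⟩
  · have := len_mul_le hs hS (g * x)⁻¹ g
    rw [mul_inv_rev, inv_mul_cancel_right] at this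
    rw [mul_inv_rev]
    omega
  · simp only [act]
    rw [hxy g⁻¹ (Finset.mem_insert_self _ _),
      hxy (g⁻¹ * y) (Finset.mem_insert_of_mem (Finset.mem_image_of_mem _ hy))]
    simp only [bz, mul_inv_rev, mul_assoc]
    ring

theorem wl_eq (hs : ∀ s ∈ S, s⁻¹ ∈ S) (g : G) : Pool.Agent.H205R3.Horo.wl S g = len S g := by
  have h : ∀ s, (s ∈ S ∨ s⁻¹ ∈ S) ↔ s ∈ S := fun s =>
    ⟨fun h => h.elim id fun h => by have := hs _ h; rwa [inv_inv] at this, Or.inl⟩
  simp only [Pool.Agent.H205R3.Horo.wl, len, h]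

theorem bd_countable (hs : ∀ s ∈ S, s⁻¹ ∈ S)
    (hcl : (closure (Set.range (Pool.Agent.H205R3.Horo.mf S))).Countable) :
    (bd S).Countable := by
  classical
  have hinj : Function.Injective (fun f : G → ℤ => fun y => ((f y : ℤ) : ℝ)) := by
    intro f g h
    funext y
    have : ((f y : ℤ) : ℝ) = ((g y : ℤ) : ℝ) := congrFun h y
    exact_mod_cast this
  refine Set.countable_of_injective_of_countable_image hinj.injOn (hcl.mono ?_)
  rintro _ ⟨f, hf, rfl⟩
  have hx : ∀ F : Finset G, ∃ x : G, ∀ y ∈ F, f y = bz S x y := fun F => by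
    obtain ⟨x, -, h⟩ := hf F 0
    exact ⟨x, h⟩
  choose x hx using hx
  refine mem_closure_of_tendsto (f := fun F : Finset G => Pool.Agent.H205R3.Horo.mf S (x F))
    (b := atTop) ?_ (Eventually.of_forall fun F => ⟨_, rfl⟩)
  rw [tendsto_pi_nhds]
  intro y
  refine tendsto_const_nhds.congr' ?_
  filter_upwards [eventually_ge_atTop ({y} : Finset G)] with F hF
  have := hx F y (hF (Finset.mem_singleton_self y))
  rw [this]
  simp [Pool.Agent.H205R3.Horo.mf, wl_eq hs, bz]

/-- Word metrics with a countable space of normalised distance functions have a horofunction with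
a finite orbit. -/
theorem main [Infinite G] (hs : ∀ s ∈ S, s⁻¹ ∈ S) (hS : Subgroup.closure (S : Set G) = ⊤)
    (hcl : (closure (Set.range (Pool.Agent.H205R3.Horo.mf S))).Countable) :
    ∃ f ∈ bd S, (Set.range fun g => act g f).Finite :=
  exists_finite_orbit act act_mul act_continuous (bd S) (fun _ h => act_one h)
    (bd_compact hs hS) (bd_nonempty hs hS) (bd_countable hs hcl) (act_mem hs hS)

/-- Integer valued horofunctions are limits along sequences. -/
theorem exists_seq [Countable G] {f : G → ℤ} (hf : f ∈ bd S) :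
    ∃ x : ℕ → G, Tendsto (fun n => ((len S (x n)⁻¹ : ℕ) : ℝ)) atTop atTop ∧
      ∀ y, Tendsto (fun n => ((len S ((x n)⁻¹ * y) : ℕ) : ℝ) - ((len S (x n)⁻¹ : ℕ) : ℝ)) atTop
        (nhds ((f y : ℤ) : ℝ)) := by
  classical
  obtain ⟨e, he⟩ := exists_surjective_nat G
  choose x h1 h2 using fun n : ℕ => hf ((Finset.range n).image e) n
  refine ⟨x, ?_, fun y => ?_⟩
  · refine tendsto_atTop_mono (fun n => ?_) tendsto_natCast_atTop_atTop
    exact_mod_cast h1 n
  · obtain ⟨k, rfl⟩ := he y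
    refine tendsto_const_nhds.congr' ?_
    filter_upwards [eventually_gt_atTop k] with n hn
    rw [h2 n (e k) (Finset.mem_image_of_mem _ (Finset.mem_range.2 hn))]
    simp [bz]

end Horo

end Pool.Agent.Q21.HB
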