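import Mathlib
import Pool.Agent.Q21.Blocks

set_option autoImplicit false

namespace Q21.Swap

open Equiv

abbrev W : Type := List Bool

/-- Automorphisms of the rooted binary tree, in terms of the initial-segment order. -/
def IsAut (g : Perm W) : Prop := ∀ v w : W, v <+: w ↔ g v <+: g w

theorem IsAut.one : IsAut 1 := fun _ _ => Iff.rfl
theorem IsAut.mul {g h : Perm W} (hg : IsAut g) (hh : IsAut h) : IsAut (g * h) :=
  fun v w => (hh v w).trans (hg _ _)
theorem IsAut.inv {g : Perm W} (hg : IsAut g) : IsAut g⁻¹ := fun v w => by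
  have := hg (g⁻¹ v) (g⁻¹ w)
  rw [show g (g⁻¹ v) = v from g.apply_symm_apply v,
    show g (g⁻¹ w) = w from g.apply_symm_apply w] at this
  exact this.symm

theorem len_le {g : Perm W} (hg : IsAut g) (v : W) : v.length ≤ (g v).length := by
  induction v using List.reverseRecOn with
  | nil => simp
  | append_singleton v x ih =>
    have h1 : g v <+: g (v ++ [x]) := (hg _ _).1 (List.prefix_append _ _)
    have h2 : g v ≠ g (v ++ [x]) := fun h => by
      have := g.injective h
      simp at this
    have h3 : (g v).length < (g (v ++ [x])).length := by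
      rcases lt_or_eq_of_le h1.length_le with h | h
      · exact h
      · exact absurd (h1.eq_of_length h) h2
    simp only [List.length_append, List.length_singleton]
    omega

theorem len_eq {g : Perm W} (hg : IsAut g) (v : W) : (g v).length = v.length := by
  refine le_antisymm ?_ (len_le hg v)
  have := len_le hg.inv (g v)
  rwa [show g⁻¹ (g v) = v from g.symm_apply_apply v] at this

/-- The group `L`. -/
def L : Subgroup (Perm W) where
  carrier := {g | IsAut g ∧ ∃ a b : Bool, ∀ x y : Bool, g [x, y] = [xor x a, xor y b]}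
  mul_mem' := by
    rintro g h ⟨hg, a, b, hab⟩ ⟨hh, a', b', hab'⟩
    refine ⟨hg.mul hh, xor a' a, xor b' b, fun x y => ?_⟩
    rw [Perm.mul_apply, hab', hab]
    simp
  one_mem' := ⟨IsAut.one, false, false, fun x y => by simp⟩
  inv_mem' := by
    rintro g ⟨hg, a, b, hab⟩
    refine ⟨hg.inv, a, b, fun x y => ?_⟩
    rw [Perm.inv_eq_iff_eq, hab]
    simp

theorem mem_L {g : Perm W} : g ∈ L ↔ IsAut g ∧ ∃ a b : Bool, ∀ x y : Bool,
    g [x, y] = [xor x a, xor y b] := Iff.rfl

def aa (g : Perm W) : Bool := (g [false, false]).getD 0 false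
def bb (g : Perm W) : Bool := (g [false, false]).getD 1 false

theorem lev2 {g : Perm W} (hg : g ∈ L) (x y : Bool) : g [x, y] = [xor x (aa g), xor y (bb g)] := by
  obtain ⟨h1, a, b, hab⟩ := hg
  have h2 : aa g = a := by simp [aa, hab]
  have h3 : bb g = b := by simp [bb, hab]
  rw [h2, h3, hab]

theorem aa_mul {g h : Perm W} (hg : g ∈ L) (hh : h ∈ L) : aa (g * h) = xor (aa h) (aa g) := by
  have : (g * h) [false, false] = [xor (aa h) (aa g), xor (bb h) (bb g)] := by
    rw [Perm.mul_apply, lev2 hh, lev2 hg]; simp
  simp [aa] at this ⊢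
  simp [this]

theorem bb_mul {g h : Perm W} (hg : g ∈ L) (hh : h ∈ L) : bb (g * h) = xor (bb h) (bb g) := by
  have : (g * h) [false, false] = [xor (aa h) (aa g), xor (bb h) (bb g)] := by
    rw [Perm.mul_apply, lev2 hh, lev2 hg]; simp
  simp [bb] at this ⊢
  simp [this]

theorem bb_one : bb 1 = false := rfl

theorem lev0 {g : Perm W} (hg : g ∈ L) : g [] = [] := by
  have := len_eq hg.1 []
  exact List.length_eq_zero_iff.1 this

theorem lev1 {g : Perm W} (hg : g ∈ L) (x : Bool) : g [x] = [xor x (aa g)] := by
  have h1 : g [x] <+: g [x, false] := (hg.1 _ _).1 ⟨[false], rfl⟩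
  rw [lev2 hg] at h1
  have h2 := len_eq hg.1 [x]
  obtain ⟨z, hz⟩ := List.length_eq_one_iff.1 h2
  rw [hz] at h1 ⊢
  rw [List.cons_prefix_cons] at h1
  rw [h1.1]

theorem form {g : Perm W} (hg : g ∈ L) (x y : Bool) (w : W) :
    ∃ w' : W, g (x :: y :: w) = xor x (aa g) :: xor y (bb g) :: w' := by
  have h1 : g [x, y] <+: g (x :: y :: w) := (hg.1 _ _).1 ⟨w, rfl⟩
  rw [lev2 hg] at h1
  obtain ⟨w', hw⟩ := h1
  exact ⟨w', hw.symm⟩

/-- Swap of the first two letters. -/
def sw : W → W
  | x :: y :: w => y :: x :: w
  | w => w

def φf (g : W → W) (b : Bool) : W → W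
  | [] => []
  | [x] => [xor x b]
  | x :: y :: w => sw (g (y :: x :: w))

theorem φf_comp {g h : Perm W} (hg : g ∈ L) (hh : h ∈ L) (v : W) :
    φf g (bb g) (φf h (bb h) v) = φf (⇑(g * h)) (bb (g * h)) v := by
  match v with
  | [] => rfl
  | [x] => simp [φf, bb_mul hg hh]
  | x :: y :: w =>
    obtain ⟨w', hw⟩ := form hh y x w
    simp only [φf, hw, sw, Perm.mul_apply]

theorem φf_one (v : W) : φf (⇑(1 : Perm W)) (bb 1) v = v := by
  match v with
  | [] => rfl
  | [x] => simp [φf, bb_one]
  | x :: y :: w => simp [φf, sw]

/-- The image permutation. -/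
def φp (g : Perm W) (hg : g ∈ L) : Perm W where
  toFun := φf g (bb g)
  invFun := φf (⇑(g⁻¹)) (bb g⁻¹)
  left_inv v := by
    rw [φf_comp (L.inv_mem hg) hg, inv_mul_cancel, φf_one]
  right_inv v := by
    rw [φf_comp hg (L.inv_mem hg), mul_inv_cancel, φf_one]

theorem φp_apply (g : Perm W) (hg : g ∈ L) (v : W) : φp g hg v = φf g (bb g) v := rfl

theorem φp_mul {g h : Perm W} (hg : g ∈ L) (hh : h ∈ L) :
    φp (g * h) (L.mul_mem hg hh) = φp g hg * φp h hh := by
  ext1 v
  rw [Perm.mul_apply, φp_apply, φp_apply, φp_apply, φf_comp hg hh]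

theorem φp_forward {g : Perm W} (hg : g ∈ L) {v w : W} (h : v <+: w) : φp g hg v <+: φp g hg w := by
  rw [φp_apply, φp_apply]
  match v, w with
  | [], w => exact List.nil_prefix
  | x :: v, [] => simp at h
  | [x], [x'] =>
    rw [List.cons_prefix_cons] at h
    rw [h.1]
  | [x], x' :: y' :: w =>
    rw [List.cons_prefix_cons] at h
    obtain ⟨w', hw⟩ := form hg y' x' w
    simp only [φf, hw, sw, h.1]
    exact ⟨_, rfl⟩
  | x :: y :: v, [x'] =>
    have := h.length_le
    simp at this
  | x :: y :: v, x' :: y' :: w =>
    rw [List.cons_prefix_cons, List.cons_prefix_cons] at h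
    obtain ⟨rfl, rfl, h3⟩ := h
    have h4 : g (y :: x :: v) <+: g (y :: x :: w) := by
      refine (hg.1 _ _).1 ?_
      rw [List.cons_prefix_cons, List.cons_prefix_cons]
      exact ⟨rfl, rfl, h3⟩
    obtain ⟨v', hv⟩ := form hg y x v
    obtain ⟨w', hw⟩ := form hg y x w
    rw [hv, hw, List.cons_prefix_cons, List.cons_prefix_cons] at h4
    simp only [φf, hv, hw, sw]
    rw [List.cons_prefix_cons, List.cons_prefix_cons]
    exact ⟨rfl, rfl, h4.2.2⟩

theorem φp_inv {g : Perm W} (hg : g ∈ L) : (φp g hg)⁻¹ = φp g⁻¹ (L.inv_mem hg) := by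
  ext1 v
  rfl

theorem φp_isAut {g : Perm W} (hg : g ∈ L) : IsAut (φp g hg) := by
  intro v w
  refine ⟨φp_forward hg, fun h => ?_⟩
  have := φp_forward (L.inv_mem hg) h
  rw [← φp_inv hg] at this
  rwa [show (φp g hg)⁻¹ (φp g hg v) = v from (φp g hg).symm_apply_apply v,
    show (φp g hg)⁻¹ (φp g hg w) = w from (φp g hg).symm_apply_apply w] at this

theorem φp_mem {g : Perm W} (hg : g ∈ L) : φp g hg ∈ L := by
  refine ⟨φp_isAut hg, bb g, aa g, fun x y => ?_⟩
  rw [φp_apply]
  simp [φf, lev2 hg, sw]

theorem bb_φp {g : Perm W} (hg : g ∈ L) : bb (φp g hg) = aa g := by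
  have : φp g hg [false, false] = [bb g, aa g] := by
    rw [φp_apply]
    simp [φf, lev2 hg, sw]
  simp [bb, this]

theorem φp_φp {g : Perm W} (hg : g ∈ L) : φp (φp g hg) (φp_mem hg) = g := by
  ext1 v
  rw [φp_apply, bb_φp hg]
  match v with
  | [] => simp [φf, lev0 hg]
  | [x] => simp [φf, lev1 hg]
  | x :: y :: w =>
    obtain ⟨w', hw⟩ := form hg x y w
    simp [φf, φp_apply, hw, sw]

/-- The automorphism of `L`. -/
def φ : L ≃* L where
  toFun g := ⟨φp g.1 g.2, φp_mem g.2⟩
  invFun g := ⟨φp g.1 g.2, φp_mem g.2⟩
  left_inv g := Subtype.ext (φp_φp g.2)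
  right_inv g := Subtype.ext (φp_φp g.2)
  map_mul' g h := Subtype.ext (φp_mul g.2 h.2)

theorem φ_coe (g : L) : ((φ g : L) : Perm W) = φp g.1 g.2 := rfl

/-- Level-constant translations. -/
def tr : List Bool → W → W
  | a :: c, x :: v => xor x a :: tr c v
  | _, v => v

theorem tr_tr (c : List Bool) (v : W) : tr c (tr c v) = v := by
  induction c generalizing v with
  | nil => cases v <;> rfl
  | cons a c ih =>
    cases v with
    | nil => rfl
    | cons x v => simp [tr, ih]

theorem tr_forward (c : List Bool) (v w : W) (h : v <+: w) : tr c v <+: tr c w := by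
  induction c generalizing v w with
  | nil => cases v <;> cases w <;> exact h
  | cons a c ih =>
    cases v with
    | nil => exact List.nil_prefix
    | cons x v =>
      cases w with
      | nil => simp at h
      | cons y w =>
        rw [List.cons_prefix_cons] at h
        simp only [tr]
        rw [List.cons_prefix_cons]
        exact ⟨by rw [h.1], ih v w h.2⟩

def trp (c : List Bool) : Perm W := ⟨tr c, tr c, tr_tr c, tr_tr c⟩

theorem trp_mem (c : List Bool) : trp c ∈ L := by
  refine ⟨fun v w => ⟨tr_forward c v w, fun h => ?_⟩, c.getD 0 false, c.getD 1 false, fun x y => ?_⟩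
  · have := tr_forward c _ _ h
    rwa [show tr c (trp c v) = v from tr_tr c v, show tr c (trp c w) = w from tr_tr c w] at this
  · show tr c [x, y] = _
    match c with
    | [] => simp [tr]
    | [a] => simp [tr]
    | a :: b :: c => simp [tr]

theorem tr_trans : ∀ v w : W, v.length = w.length → tr (List.zipWith xor v w) v = w
  | [], [], _ => rfl
  | x :: v, y :: w, h => by
    simp only [List.zipWith_cons_cons, tr]
    rw [tr_trans v w (by simpa using h)]
    simp
  | [], y :: w, h => by simp at h
  | x :: v, [], h => by simp at h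

theorem transitive (v w : W) (h : v.length = w.length) : ∃ g ∈ L, g v = w :=
  ⟨trp _, trp_mem _, tr_trans v w h⟩

/-- Elements of `L` supported below a vertex of level `n`. -/
def ristSet (n : ℕ) : Set (Perm W) :=
  {g | g ∈ L ∧ ∃ u : W, u.length = n ∧ ∀ v : W, ¬ u <+: v → g v = v}

theorem ristSet_anti {n k : ℕ} (h : n ≤ k) : ristSet k ⊆ ristSet n := by
  rintro g ⟨hg, u, hu, hs⟩
  refine ⟨hg, u.take n, by simp [hu, h], fun v hv => hs v (fun huv => hv ?_)⟩
  exact (List.take_prefix n u).trans huv

theorem take_apply {g : Perm W} (hg : IsAut g) {k : ℕ} (hfix : ∀ u : W, u.length = k → g u = u)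
    (v : W) : (g v).take k = v.take k := by
  by_cases hv : k ≤ v.length
  · have h1 : v.take k <+: v := List.take_prefix k v
    have h2 := (hg _ _).1 h1
    rw [hfix _ (by simp [hv])] at h2
    rw [List.prefix_iff_eq_take] at h2
    rw [List.length_take, Nat.min_eq_left hv] at h2
    exact h2.symm
  · push Not at hv
    have h0 : g v = v := by
      -- extend `v` to level `k`
      have h1 : v <+: v ++ List.replicate (k - v.length) false := List.prefix_append _ _
      have h2 := (hg _ _).1 h1
      rw [hfix (v ++ List.replicate (k - v.length) false) (by simp; omega)] at h2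
      have h3 := List.prefix_of_prefix_length_le h2 h1 (by rw [len_eq hg])
      exact h3.eq_of_length (len_eq hg v)
    rw [h0]

theorem mem_closure_of_fix {g : Perm W} (hg : g ∈ L) {k : ℕ} (hk : 2 ≤ k)
    (hfix : ∀ u : W, u.length = k → g u = u) : g ∈ Subgroup.closure (ristSet k) := by
  have hfin : {u : W | u.length = k}.Finite := List.finite_length_eq Bool k
  refine Q21.Blocks.mem_of_restr (fun v : W => v.take k) hfin.toFinset _ g
    (take_apply hg.1 hfix) ?_ ?_
  · intro v hv
    have hv' : v.length < k := by
      by_contra hcon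
      push Not at hcon
      exact hv (by simp [hcon])
    have := take_apply hg.1 hfix v
    rw [List.take_of_length_le (by rw [len_eq hg.1]; exact hv'.le),
      List.take_of_length_le hv'.le] at this
    exact this
  · intro u hu
    have hu' : u.length = k := by simpa using hu
    refine Subgroup.subset_closure ?_
    have key : ∀ v : W, Q21.Blocks.restr (fun v : W => v.take k) g (take_apply hg.1 hfix) u v
        = if v.take k = u then g v else v := fun v => rfl
    have hfw : ∀ (g : Perm W) (hg : g ∈ L) (hfix : ∀ u : W, u.length = k → g u = u) (v w : W),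
        v <+: w → (if v.take k = u then g v else v) <+: (if w.take k = u then g w else w) := by
      intro g hg hfix v w hvw
      by_cases hv : v.take k = u
      · have hlen : k ≤ v.length := by
          have := congrArg List.length hv
          rw [List.length_take, hu'] at this
          omega
        have hw : w.take k = u := by
          rw [← hv]
          rw [List.prefix_iff_eq_take] at hvw
          rw [hvw, List.take_take, Nat.min_eq_left hlen]
        rw [if_pos hv, if_pos hw]
        exact (hg.1 _ _).1 hvw
      · rw [if_neg hv]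
        split_ifs with hw
        · -- `v` is a prefix of `w`, shorter than `k`
          have hlen : v.length < k := by
            by_contra hcon
            push Not at hcon
            apply hv
            rw [← hw]
            rw [List.prefix_iff_eq_take] at hvw
            rw [hvw, List.take_take, Nat.min_eq_left hcon]
          have h1 := (hg.1 _ _).1 hvw
          have h2 : g v = v := by
            have := take_apply hg.1 hfix v
            rw [List.take_of_length_le (by rw [len_eq hg.1]; exact hlen.le),
              List.take_of_length_le hlen.le] at this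
            exact this
          rwa [h2] at h1
        · exact hvw
    have hfix' : ∀ u : W, u.length = k → g⁻¹ u = u := by
      intro u hu
      rw [Perm.inv_eq_iff_eq, hfix u hu]
    refine ⟨⟨fun v w => ?_, false, false, fun x y => ?_⟩, u, hu', fun v hv => ?_⟩
    · rw [key, key]
      refine ⟨hfw g hg hfix v w, fun h => ?_⟩
      have h1 := hfw g⁻¹ (L.inv_mem hg) hfix' _ _ h
      have h2 : ∀ v : W, (if (if v.take k = u then g v else v).take k = u then
          g⁻¹ (if v.take k = u then g v else v) else (if v.take k = u then g v else v)) = v := by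
        intro v
        by_cases hv : v.take k = u
        · rw [if_pos hv, if_pos (by rw [take_apply hg.1 hfix, hv])]
          exact g.symm_apply_apply v
        · rw [if_neg hv, if_neg hv]
      rwa [h2, h2] at h1
    · rw [key]
      have : g [x, y] = [x, y] := by
        have := take_apply hg.1 hfix [x, y]
        rw [List.take_of_length_le (by rw [len_eq hg.1]; exact hk),
          List.take_of_length_le (by exact hk)] at this
        exact this
      split_ifs <;> simp [this]
    · rw [key, if_neg]
      intro h
      exact hv (h ▸ List.take_prefix k v)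

/-- The action of `L` on a level. -/
def act (k : ℕ) : L →* Perm {v : W // v.length = k} where
  toFun g :=
    { toFun := fun v => ⟨g.1 v.1, (len_eq g.2.1 v.1).trans v.2⟩
      invFun := fun v => ⟨g.1⁻¹ v.1, (len_eq g.2.1.inv v.1).trans v.2⟩
      left_inv := fun v => Subtype.ext (g.1.symm_apply_apply v.1)
      right_inv := fun v => Subtype.ext (g.1.apply_symm_apply v.1) }
  map_one' := by ext v; rfl
  map_mul' g h := by ext v; rfl

theorem index_ne_zero (n : ℕ) : ((Subgroup.closure (ristSet n)).subgroupOf L).index ≠ 0 := by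
  set k := max n 2 with hk
  have hfin : Finite {v : W // v.length = k} := List.finite_length_eq Bool k
  have h1 : (act k).ker.FiniteIndex := inferInstance
  have h2 : (act k).ker ≤ (Subgroup.closure (ristSet n)).subgroupOf L := by
    intro g hg
    rw [Subgroup.mem_subgroupOf]
    refine Subgroup.closure_mono (ristSet_anti (le_max_left n 2))
      (mem_closure_of_fix g.2 (le_max_right n 2) ?_)
    intro u hu
    have h3 : act k g = 1 := hg
    have h4 := congrArg (fun p : Perm {v : W // v.length = k} => (p ⟨u, hu⟩).1) h3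
    exact h4
  have h5 := Subgroup.finiteIndex_of_le h2
  exact h5.index_ne_zero

/-- The element moving only the second letter. -/
theorem no_conj (σ : Perm W) (hσ : IsAut σ) :
    ¬ ∀ g : L, ((φ g : L) : Perm W) = σ * (g : Perm W) * σ⁻¹ := by
  intro h
  have h1 := h ⟨trp [false, true], trp_mem _⟩
  obtain ⟨z, hz⟩ := List.length_eq_one_iff.1 ((len_eq hσ [false]).trans rfl)
  have h2 : ((φ ⟨trp [false, true], trp_mem _⟩ : L) : Perm W) (σ [false]) = σ [false] := by
    rw [h1]
    simp only [Perm.mul_apply]
    rw [show σ⁻¹ (σ [false]) = [false] from σ.symm_apply_apply _]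
    rfl
  rw [φ_coe, φp_apply, hz] at h2
  have h3 : bb (trp [false, true]) = true := rfl
  simp [φf, h3] at h2

end Q21.Swap
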