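import Pool.Agent.Q2.TN.Stm

/-! Project TN, job M8 (helper21). -/

namespace Q21.TN_M8

open Subgroup Q2.TN
open scoped commutatorElement

lemma eq_one_of_coprime {H : Type} [Group H] {x : H} {a b : ℕ} (hab : a.Coprime b)
    (ha : x ^ a = 1) (hb : x ^ b = 1) : x = 1 := by
  have h1 : orderOf x ∣ a := orderOf_dvd_of_pow_eq_one ha
  have h2 : orderOf x ∣ b := orderOf_dvd_of_pow_eq_one hb
  have h3 : orderOf x ∣ 1 := by
    have := Nat.dvd_gcd h1 h2
    rwa [Nat.Coprime.gcd_eq_one hab] at this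
  exact orderOf_eq_one_iff.1 (Nat.dvd_one.1 h3)

theorem m8 (h7 : S_M7) : S_M8 := by
  intro p hp G _ _ P U _ hP hU hUP hC K hF
  obtain ⟨_, hKn, hKc, _, _, hPne, _, _, hlast⟩ := hF
  have hPK : ∃ g ∈ P, ∃ y : G, QuotientGroup.mk' U y ∈ K ∧
      QuotientGroup.mk' U g * QuotientGroup.mk' U y ≠
        QuotientGroup.mk' U y * QuotientGroup.mk' U g := by
    by_contra hcon
    push Not at hcon
    apply hPne
    rw [eq_bot_iff]
    intro x hx
    obtain ⟨g, hg, rfl⟩ := hx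
    have := hlast (QuotientGroup.mk' U g) ⟨g, hg, rfl⟩ (by
      intro x hx
      obtain ⟨y, rfl⟩ := QuotientGroup.mk'_surjective U x
      exact hcon g hg y hx)
    exact Subgroup.mem_bot.2 this
  obtain ⟨g, hg, y, hy, hne⟩ := hPK
  set K₀ : Subgroup G := K.comap (QuotientGroup.mk' U) with hK₀
  have hK₀n : K₀.Normal := hKn.comap _
  have hyK : y ∈ K₀ := hy
  have hc : ⁅y, g⁆ ∈ ⁅K₀, P⁆ := Subgroup.commutator_mem_commutator hyK hg
  have hcK : ⁅K₀, P⁆ ≤ K₀ := Subgroup.commutator_le_left K₀ P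
  set c := ⁅y, g⁆ with hcdef
  have hc1 : QuotientGroup.mk' U c ≠ 1 := by
    rw [hcdef, map_commutatorElement]
    intro h
    exact hne (commutatorElement_eq_one_iff_mul_comm.1 h).symm
  have hcn : (QuotientGroup.mk' U c) ^ Nat.card K = 1 := by
    have h1 : QuotientGroup.mk' U c ∈ K := hcK hc
    have h2 : (⟨QuotientGroup.mk' U c, h1⟩ : K) ^ Nat.card K = 1 := pow_card_eq_one'
    exact congrArg Subtype.val h2
  set n := Nat.card K with hn
  have hcU : c ^ n ∈ U := by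
    rw [← map_pow] at hcn
    exact (QuotientGroup.eq_one_iff (c ^ n)).1 hcn
  obtain ⟨k, hk⟩ := hU ⟨c ^ n, hcU⟩
  have hk' : (c ^ n) ^ p ^ k = 1 := congrArg Subtype.val hk
  set q := c ^ p ^ k with hq
  have hqn : q ^ n = 1 := by
    rw [hq, ← pow_mul, mul_comm, pow_mul]; exact hk'
  have hqc : q ∈ ⁅K₀, P⁆ := pow_mem hc _
  have hqK : QuotientGroup.mk' U q ∈ K := hcK hqc
  have hqU : q ∉ U := by
    intro h
    have h1 : (QuotientGroup.mk' U c) ^ p ^ k = 1 := by
      rw [← map_pow]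
      exact (QuotientGroup.eq_one_iff (c ^ p ^ k)).2 h
    exact hc1 (eq_one_of_coprime (hKc.pow_right k) hcn h1)
  have hqC : q ∉ centralizer (U : Set G) := fun h => hqU (hC h)
  have hex : ∃ u ∈ U, u * q ≠ q * u := by
    by_contra hcon
    push Not at hcon
    exact hqC (Subgroup.mem_centralizer_iff.2 (fun u hu => hcon u hu))
  obtain ⟨u, hu, huq⟩ := hex
  refine ⟨q, n, hqK, hKc, hqn, ?_⟩
  by_contra hcon
  push Not at hcon
  have hd : u * q * u⁻¹ * q⁻¹ ∈ superRes p G := by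
    unfold superRes
    rw [Subgroup.mem_sInf]
    rintro N ⟨hN, hNs⟩
    have := hN
    exact h7 p hp G P U K₀ N hP inferInstance hU hK₀n hNs q n hqc hKc hqn u hu
  set d := u * q * u⁻¹ * q⁻¹ with hd'
  have hcomm : q * d = d * q := hcon d hd
  have h1 : d * q = u * q * u⁻¹ := by rw [hd']; group
  have h2 : (d * q) ^ n = 1 := by
    rw [h1, conj_pow, hqn]; group
  have h3 : d ^ n = 1 := by
    have : Commute d q := hcomm.symm
    rw [this.mul_pow, hqn, mul_one] at h2
    exact h2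
  have hdU : d ∈ U := by
    rw [hd']
    have : u * q * u⁻¹ * q⁻¹ = u * (q * u⁻¹ * q⁻¹) := by group
    rw [this]
    exact U.mul_mem hu ((inferInstance : U.Normal).conj_mem _ (U.inv_mem hu) q)
  obtain ⟨j, hj⟩ := hU ⟨d, hdU⟩
  have hj' : d ^ p ^ j = 1 := congrArg Subtype.val hj
  have hd1 : d = 1 := eq_one_of_coprime (hKc.pow_right j) h3 hj'
  apply huq
  have : u * q * u⁻¹ = q := by rw [← h1, hd1, one_mul]
  calc u * q = u * q * u⁻¹ * u := by group
    _ = q * u := by rw [this]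

end Q21.TN_M8
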