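import Mathlib

set_option autoImplicit false

namespace Pool.Agent.Q21.TT

open Finset Equiv

variable {n a : ℕ}

/-- number of letters `p` in the word `w` -/
def cnt (w : Fin n → Fin a) (p : Fin a) : ℕ := (Finset.univ.filter (fun i => w i = p)).card

theorem update_swap {w : Fin n → Fin a} {i j : Fin n} (hij : i ≠ j) {p q : Fin a} (hi : w i = p) (hj : w j = q) :
    Function.update (Function.update w i q) j p = w ∘ swap i j := by
  funext k
  by_cases hkj : k = j
  · subst hkj
    simp [hi]
  · by_cases hki : k = i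
    · subst hki
      simp [Function.update_of_ne hkj, hj]
    · simp [Function.update_of_ne hkj, Function.update_of_ne hki, swap_apply_of_ne_of_ne hki hkj]

theorem sum_diag (f : (Fin n → Fin a) → ℝ) (p q : Fin a) (i : Fin n) :
    ∑ u : Fin n → Fin a, (if u i = q then f (Function.update u i p) ^ 2 else 0) =
      ∑ w : Fin n → Fin a, if w i = p then f w ^ 2 else 0 := by
  rw [← Finset.sum_filter, ← Finset.sum_filter]
  refine Finset.sum_nbij' (fun u => Function.update u i p) (fun w => Function.update w i q) ?_ ?_ ?_ ?_ ?_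
  · intro u hu; simp
  · intro w hw; simp
  · intro u hu
    have : u i = q := by simpa using hu
    rw [Function.update_idem, ← this, Function.update_eq_self]
  · intro w hw
    have : w i = p := by simpa using hw
    rw [Function.update_idem, ← this, Function.update_eq_self]
  · intro u hu; rfl

theorem sum_off (f : (Fin n → Fin a) → ℝ) (p q : Fin a) {i j : Fin n} (hij : i ≠ j) :
    ∑ u : Fin n → Fin a, (if u i = q ∧ u j = q then f (Function.update u i p) * f (Function.update u j p) else 0) =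
      ∑ w : Fin n → Fin a, if w i = p ∧ w j = q then f w * f (w ∘ swap i j) else 0 := by
  rw [← Finset.sum_filter, ← Finset.sum_filter]
  refine Finset.sum_nbij' (fun u => Function.update u i p) (fun w => Function.update w i q) ?_ ?_ ?_ ?_ ?_
  · intro u hu
    have : u i = q ∧ u j = q := by simpa using hu
    simp [Function.update_of_ne hij.symm, this.2]
  · intro w hw
    have : w i = p ∧ w j = q := by simpa using hw
    simp [Function.update_of_ne hij.symm, this.2]
  · intro u hu
    have : u i = q ∧ u j = q := by simpa using hu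
    rw [Function.update_idem]
    conv_lhs => rw [← this.1]
    rw [Function.update_eq_self]
  · intro w hw
    have : w i = p ∧ w j = q := by simpa using hw
    rw [Function.update_idem]
    conv_lhs => rw [← this.1]
    rw [Function.update_eq_self]
  · intro u hu
    have h : u i = q ∧ u j = q := by simpa using hu
    have h1 := update_swap (w := Function.update u i p) hij (p := p) (q := q) (by simp)
      (by rw [Function.update_of_ne hij.symm]; exact h.2)
    rw [Function.update_idem] at h1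
    have h2 : Function.update u i q = u := by
      conv_lhs => rw [← h.1]
      rw [Function.update_eq_self]
    rw [h2] at h1
    rw [← h1]

/-- exchange sum -/
noncomputable def X (f : (Fin n → Fin a) → ℝ) (p q : Fin a) : ℝ :=
  ∑ i : Fin n, ∑ j : Fin n, ∑ w : Fin n → Fin a,
    if i ≠ j ∧ w i = p ∧ w j = q then f w * f (w ∘ swap i j) else 0

theorem X_ge (f : (Fin n → Fin a) → ℝ) {p q : Fin a} :
    0 ≤ (∑ w : Fin n → Fin a, (cnt w p : ℝ) * f w ^ 2) + X f p q := by
  have h1 : (0 : ℝ) ≤ ∑ u : Fin n → Fin a, (∑ i : Fin n, if u i = q then f (Function.update u i p) else 0) ^ 2 :=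
    Finset.sum_nonneg (fun u _ => sq_nonneg _)
  have h2 : ∑ u : Fin n → Fin a, (∑ i : Fin n, if u i = q then f (Function.update u i p) else 0) ^ 2 =
      ∑ i : Fin n, ∑ j : Fin n, ∑ u : Fin n → Fin a,
        (if u i = q ∧ u j = q then f (Function.update u i p) * f (Function.update u j p) else 0) := by
    have h3 : ∀ u : Fin n → Fin a, (∑ i : Fin n, if u i = q then f (Function.update u i p) else 0) ^ 2 =
        ∑ i : Fin n, ∑ j : Fin n,
          (if u i = q ∧ u j = q then f (Function.update u i p) * f (Function.update u j p) else 0) := by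
      intro u
      rw [pow_two, Finset.sum_mul_sum]
      refine Finset.sum_congr rfl (fun i _ => Finset.sum_congr rfl (fun j _ => ?_))
      by_cases hi : u i = q <;> by_cases hj : u j = q <;> simp [hi, hj]
    rw [Finset.sum_congr rfl (fun u _ => h3 u), Finset.sum_comm]
    refine Finset.sum_congr rfl (fun i _ => ?_)
    rw [Finset.sum_comm]
  rw [h2] at h1
  have h4 : ∀ i : Fin n, ∑ j : Fin n, ∑ u : Fin n → Fin a,
        (if u i = q ∧ u j = q then f (Function.update u i p) * f (Function.update u j p) else 0) =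
      (∑ w : Fin n → Fin a, if w i = p then f w ^ 2 else 0) + ∑ j : Fin n, ∑ w : Fin n → Fin a,
        if i ≠ j ∧ w i = p ∧ w j = q then f w * f (w ∘ swap i j) else 0 := by
    intro i
    have h5 : ∀ j : Fin n, ∑ u : Fin n → Fin a,
        (if u i = q ∧ u j = q then f (Function.update u i p) * f (Function.update u j p) else 0) =
        (if j = i then (∑ w : Fin n → Fin a, if w i = p then f w ^ 2 else 0) else 0) +
          ∑ w : Fin n → Fin a, if i ≠ j ∧ w i = p ∧ w j = q then f w * f (w ∘ swap i j) else 0 := by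
      intro j
      by_cases hij : j = i
      · subst hij
        rw [if_pos rfl, ← sum_diag f p q j]
        simp [pow_two]
      · rw [if_neg hij, zero_add, sum_off f p q (Ne.symm hij)]
        simp [Ne.symm hij]
    rw [Finset.sum_congr rfl (fun j _ => h5 j), Finset.sum_add_distrib]
    congr 1
    simp
  rw [Finset.sum_congr rfl (fun i _ => h4 i), Finset.sum_add_distrib] at h1
  have h6 : ∑ i : Fin n, ∑ w : Fin n → Fin a, (if w i = p then f w ^ 2 else 0) =
      ∑ w : Fin n → Fin a, (cnt w p : ℝ) * f w ^ 2 := by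
    rw [Finset.sum_comm]
    refine Finset.sum_congr rfl (fun w _ => ?_)
    rw [← Finset.sum_filter, Finset.sum_const, nsmul_eq_mul]
    rfl
  rw [h6] at h1
  exact h1

theorem X_symm (f : (Fin n → Fin a) → ℝ) (p q : Fin a) : X f p q = X f q p := by
  unfold X
  rw [Finset.sum_comm]
  refine Finset.sum_congr rfl (fun i _ => Finset.sum_congr rfl (fun j _ => Finset.sum_congr rfl (fun w _ => ?_)))
  rw [swap_comm j i]
  by_cases h : i ≠ j ∧ w i = q ∧ w j = p
  · rw [if_pos h, if_pos ⟨h.1.symm, h.2.2, h.2.1⟩]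
  · rw [if_neg h, if_neg (fun h' => h ⟨h'.1.symm, h'.2.2, h'.2.1⟩)]

/-- the transposition operator, over ordered pairs -/
noncomputable def T2 (f : (Fin n → Fin a) → ℝ) (w : Fin n → Fin a) : ℝ :=
  ∑ i : Fin n, ∑ j : Fin n, if i ≠ j then f (w ∘ swap i j) else 0

theorem sum_X (f : (Fin n → Fin a) → ℝ) : ∑ p : Fin a, ∑ q : Fin a, X f p q = ∑ w : Fin n → Fin a, f w * T2 f w := by
  unfold X T2
  have h1 : ∀ p : Fin a, ∑ q : Fin a, ∑ i : Fin n, ∑ j : Fin n, ∑ w : Fin n → Fin a,
      (if i ≠ j ∧ w i = p ∧ w j = q then f w * f (w ∘ swap i j) else 0) =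
      ∑ i : Fin n, ∑ j : Fin n, ∑ w : Fin n → Fin a, if i ≠ j ∧ w i = p then f w * f (w ∘ swap i j) else 0 := by
    intro p
    rw [Finset.sum_comm]
    refine Finset.sum_congr rfl (fun i _ => ?_)
    rw [Finset.sum_comm]
    refine Finset.sum_congr rfl (fun j _ => ?_)
    rw [Finset.sum_comm]
    refine Finset.sum_congr rfl (fun w _ => ?_)
    by_cases hij : i ≠ j ∧ w i = p
    · simp [hij.1, hij.2]
    · rw [if_neg hij]
      refine Finset.sum_eq_zero (fun q _ => ?_)
      rw [if_neg]
      rintro ⟨h1, h2, _⟩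
      exact hij ⟨h1, h2⟩
  rw [Finset.sum_congr rfl (fun p _ => h1 p), Finset.sum_comm]
  have h2 : ∀ i : Fin n, ∑ p : Fin a, ∑ j : Fin n, ∑ w : Fin n → Fin a,
      (if i ≠ j ∧ w i = p then f w * f (w ∘ swap i j) else 0) =
      ∑ w : Fin n → Fin a, ∑ j : Fin n, f w * (if i ≠ j then f (w ∘ swap i j) else 0) := by
    intro i
    rw [Finset.sum_comm, Finset.sum_comm (s := (Finset.univ : Finset (Fin n → Fin a)))]
    refine Finset.sum_congr rfl (fun j _ => ?_)
    rw [Finset.sum_comm]
    refine Finset.sum_congr rfl (fun w _ => ?_)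
    by_cases hij : i ≠ j
    · simp [hij]
    · simp [hij]
  rw [Finset.sum_congr rfl (fun i _ => h2 i), Finset.sum_comm]
  refine Finset.sum_congr rfl (fun w _ => ?_)
  rw [Finset.mul_sum]
  refine Finset.sum_congr rfl (fun i _ => ?_)
  rw [Finset.mul_sum]

theorem X_diag (f : (Fin n → Fin a) → ℝ) (p : Fin a) :
    X f p p = ∑ w : Fin n → Fin a, ((cnt w p : ℝ) * ((cnt w p : ℝ) - 1)) * f w ^ 2 := by
  unfold X
  have h0 : ∀ i : Fin n, ∑ j : Fin n, ∑ w : Fin n → Fin a,
      (if i ≠ j ∧ w i = p ∧ w j = p then f w * f (w ∘ swap i j) else 0) =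
      ∑ w : Fin n → Fin a, ∑ j : Fin n, if i ≠ j ∧ w i = p ∧ w j = p then f w ^ 2 else 0 := by
    intro i
    rw [Finset.sum_comm]
    refine Finset.sum_congr rfl (fun w _ => Finset.sum_congr rfl (fun j _ => ?_))
    by_cases h : i ≠ j ∧ w i = p ∧ w j = p
    · rw [if_pos h, if_pos h]
      have : w ∘ swap i j = w := by
        rw [← update_swap h.1 h.2.1 h.2.2]
        have e1 : Function.update w i p = w := by
          conv_lhs => rw [← h.2.1]
          rw [Function.update_eq_self]
        rw [e1]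
        conv_lhs => rw [← h.2.2]
        rw [Function.update_eq_self]
      rw [this, pow_two]
    · rw [if_neg h, if_neg h]
  rw [Finset.sum_congr rfl (fun i _ => h0 i), Finset.sum_comm]
  refine Finset.sum_congr rfl (fun w _ => ?_)
  have h1 : ∀ i : Fin n, ∑ j : Fin n, (if i ≠ j ∧ w i = p ∧ w j = p then f w ^ 2 else 0) =
      if w i = p then ((cnt w p : ℝ) - 1) * f w ^ 2 else 0 := by
    intro i
    by_cases hi : w i = p
    · rw [if_pos hi]
      have h2 : ∀ j : Fin n, (if i ≠ j ∧ w i = p ∧ w j = p then f w ^ 2 else 0) =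
          (if w j = p then f w ^ 2 else 0) - (if i = j then f w ^ 2 else 0) := by
        intro j
        by_cases hij : i = j
        · subst hij; simp [hi]
        · by_cases hj : w j = p <;> simp [hij, hi, hj]
      rw [Finset.sum_congr rfl (fun j _ => h2 j), Finset.sum_sub_distrib, ← Finset.sum_filter,
        Finset.sum_const, nsmul_eq_mul, Finset.sum_ite_eq]
      simp only [mem_univ, if_true]
      unfold cnt
      ring
    · rw [if_neg hi]
      refine Finset.sum_eq_zero (fun j _ => ?_)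
      rw [if_neg]
      rintro ⟨_, h, _⟩
      exact hi h
  rw [Finset.sum_congr rfl (fun i _ => h1 i), ← Finset.sum_filter, Finset.sum_const, nsmul_eq_mul]
  unfold cnt
  ring

/-- twice the content sum of a composition -/
noncomputable def cc (μ : Fin a → ℕ) : ℝ := ∑ p : Fin a, ((μ p : ℝ) * ((μ p : ℝ) - 1) - 2 * (p.1 : ℝ) * (μ p : ℝ))

theorem form_ge (μ : Fin a → ℕ) (f : (Fin n → Fin a) → ℝ) (hf : ∀ w, f w ≠ 0 → ∀ p, cnt w p = μ p) :
    cc μ * ∑ w : Fin n → Fin a, f w ^ 2 ≤ ∑ w : Fin n → Fin a, f w * T2 f w := by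
  set F := ∑ w : Fin n → Fin a, f w ^ 2 with hF
  have hc : ∀ p, ∑ w : Fin n → Fin a, (cnt w p : ℝ) * f w ^ 2 = μ p * F := by
    intro p
    rw [hF, Finset.mul_sum]
    refine Finset.sum_congr rfl (fun w _ => ?_)
    by_cases hw : f w = 0
    · simp [hw]
    · rw [hf w hw p]
  have hd : ∀ p, X f p p = ((μ p : ℝ) * ((μ p : ℝ) - 1)) * F := by
    intro p
    rw [X_diag, hF, Finset.mul_sum]
    refine Finset.sum_congr rfl (fun w _ => ?_)
    by_cases hw : f w = 0
    · simp [hw]
    · rw [hf w hw p]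
  have hlow : ∀ p q : Fin a, (if p = q then ((μ p : ℝ) * ((μ p : ℝ) - 1)) * F else 0) +
      ((if p < q then -(μ q : ℝ) * F else 0) + (if q < p then -(μ p : ℝ) * F else 0)) ≤ X f p q := by
    intro p q
    rcases lt_trichotomy p q with h | h | h
    · rw [if_neg h.ne, if_pos h, if_neg h.asymm]
      have := X_ge f (p := q) (q := p)
      rw [hc, X_symm] at this
      linarith
    · subst h
      simp [hd]
    · rw [if_neg h.ne', if_neg h.asymm, if_pos h]
      have := X_ge f (p := p) (q := q)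
      rw [hc] at this
      linarith
  rw [← sum_X]
  refine le_trans (le_of_eq ?_) (Finset.sum_le_sum (fun p _ => Finset.sum_le_sum (fun q _ => hlow p q)))
  have e1 : ∀ p : Fin a, ∑ q : Fin a, (if p = q then ((μ p : ℝ) * ((μ p : ℝ) - 1)) * F else 0) =
      ((μ p : ℝ) * ((μ p : ℝ) - 1)) * F := by intro p; simp
  have e2 : ∀ p : Fin a, ∑ q : Fin a, (if q < p then -(μ p : ℝ) * F else 0) = -(p.1 : ℝ) * μ p * F := by
    intro p
    rw [← Finset.sum_filter, Finset.sum_const, nsmul_eq_mul]
    have : (Finset.univ.filter (fun q : Fin a => q < p)).card = p.1 := by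
      have e : (Finset.univ.filter (fun q : Fin a => q < p)) = Finset.Iio p := by ext q; simp
      rw [e, Fin.card_Iio]
    rw [this]; ring
  have e3 : ∑ p : Fin a, ∑ q : Fin a, (if p < q then -(μ q : ℝ) * F else 0) = ∑ p : Fin a, -(p.1 : ℝ) * μ p * F := by
    rw [Finset.sum_comm]
    exact Finset.sum_congr rfl (fun p _ => e2 p)
  simp only [Finset.sum_add_distrib]
  rw [Finset.sum_congr rfl (fun p _ => e1 p), e3, Finset.sum_congr rfl (fun p _ => e2 p)]
  unfold cc
  rw [Finset.sum_mul, ← Finset.sum_add_distrib, ← Finset.sum_add_distrib]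
  refine Finset.sum_congr rfl (fun p _ => ?_)
  ring

theorem eq_zero_of_T2 (μ : Fin a → ℕ) (f : (Fin n → Fin a) → ℝ) (hf : ∀ w, f w ≠ 0 → ∀ p, cnt w p = μ p)
    {κ : ℝ} (hκ : κ < cc μ) (hT : ∀ w, f w ≠ 0 → T2 f w = κ * f w) : ∀ w, f w = 0 := by
  have h1 := form_ge μ f hf
  have h2 : ∑ w : Fin n → Fin a, f w * T2 f w = κ * ∑ w : Fin n → Fin a, f w ^ 2 := by
    rw [Finset.mul_sum]
    refine Finset.sum_congr rfl (fun w _ => ?_)
    by_cases hw : f w = 0
    · simp [hw]
    · rw [hT w hw]; ring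
  rw [h2] at h1
  have h3 : 0 ≤ ∑ w : Fin n → Fin a, f w ^ 2 := Finset.sum_nonneg (fun w _ => sq_nonneg _)
  have h4 : ∑ w : Fin n → Fin a, f w ^ 2 = 0 := by nlinarith
  intro w
  have := (Finset.sum_eq_zero_iff_of_nonneg (fun w _ => sq_nonneg (f w))).1 h4 w (mem_univ _)
  exact pow_eq_zero_iff (two_ne_zero) |>.1 this

/-- the action on words -/
def act (σ : Perm (Fin n)) (w : Fin n → Fin a) : Fin n → Fin a := w ∘ ⇑σ⁻¹

theorem act_mul (σ τ : Perm (Fin n)) (w : Fin n → Fin a) : act (σ * τ) w = act σ (act τ w) := by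
  unfold act
  funext i
  simp [mul_inv_rev]

theorem act_eq_iff (σ : Perm (Fin n)) (w w' : Fin n → Fin a) : act σ w = w' ↔ act σ⁻¹ w' = w := by
  constructor
  · rintro rfl
    rw [← act_mul]; simp [act]
  · rintro rfl
    rw [← act_mul]; simp [act]

theorem cnt_act (σ : Perm (Fin n)) (w : Fin n → Fin a) (p : Fin a) : cnt (act σ w) p = cnt w p := by
  unfold cnt act
  apply Finset.card_bij (fun i _ => σ⁻¹ i)
  · intro i hi; simpa using hi
  · intro i _ j _ h; exact (σ⁻¹).injective h
  · intro i hi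
    refine ⟨σ i, by simpa using hi, by simp⟩

theorem comp_swap (w : Fin n → Fin a) (i j : Fin n) : w ∘ swap i j = act (swap i j) w := by
  unfold act
  rw [swap_inv]

/-- the vector of a finite set of permutations -/
noncomputable def vec (Y : Finset (Perm (Fin n))) (w0 w : Fin n → Fin a) : ℝ :=
  ∑ y ∈ Y, if act y w0 = w then 1 else 0

theorem T2_vec (Y : Finset (Perm (Fin n))) (w0 : Fin n → Fin a) (g : Perm (Fin n) → ℝ)
    (hg : ∀ σ, ∑ i : Fin n, ∑ j : Fin n, ∑ y ∈ Y, (if i ≠ j ∧ swap i j * y = σ then (1 : ℝ) else 0) = g σ)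
    (w : Fin n → Fin a) :
    T2 (vec Y w0) w = ∑ σ : Perm (Fin n), g σ * (if act σ w0 = w then 1 else 0) := by
  have h1 : T2 (vec Y w0) w = ∑ i : Fin n, ∑ j : Fin n, ∑ y ∈ Y, ∑ σ : Perm (Fin n),
      (if i ≠ j ∧ swap i j * y = σ then (1 : ℝ) else 0) * (if act σ w0 = w then 1 else 0) := by
    unfold T2 vec
    refine Finset.sum_congr rfl (fun i _ => Finset.sum_congr rfl (fun j _ => ?_))
    by_cases hij : i ≠ j
    · rw [if_pos hij]
      refine Finset.sum_congr rfl (fun y _ => ?_)
      rw [Finset.sum_eq_single (swap i j * y)]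
      · have : (act y w0 = w ∘ swap i j) ↔ (act (swap i j * y) w0 = w) := by
          rw [comp_swap, act_mul]
          constructor
          · intro h
            rw [h, ← act_mul, swap_mul_self]
            simp [act]
          · intro h
            rw [← h, ← act_mul (swap i j) (swap i j), swap_mul_self]
            simp [act]
        simp [hij, this]
      · intro σ _ hσ
        rw [if_neg (fun h => hσ h.2.symm), zero_mul]
      · intro h; exact absurd (mem_univ _) h
    · rw [if_neg hij]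
      symm
      refine Finset.sum_eq_zero (fun y _ => Finset.sum_eq_zero (fun σ _ => ?_))
      rw [if_neg (fun h => hij h.1), zero_mul]
  rw [h1]
  symm
  have h2 : ∀ σ : Perm (Fin n), g σ * (if act σ w0 = w then (1 : ℝ) else 0) =
      ∑ i : Fin n, ∑ j : Fin n, ∑ y ∈ Y,
      (if i ≠ j ∧ swap i j * y = σ then (1 : ℝ) else 0) * (if act σ w0 = w then 1 else 0) := by
    intro σ
    rw [← hg σ, Finset.sum_mul]
    refine Finset.sum_congr rfl (fun i _ => ?_)
    rw [Finset.sum_mul]
    refine Finset.sum_congr rfl (fun j _ => ?_)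
    rw [Finset.sum_mul]
  rw [Finset.sum_congr rfl (fun σ _ => h2 σ), Finset.sum_comm]
  refine Finset.sum_congr rfl (fun i _ => ?_)
  rw [Finset.sum_comm]
  refine Finset.sum_congr rfl (fun j _ => ?_)
  rw [Finset.sum_comm]

theorem swap_pairs {i j x y : Fin n} (hij : i ≠ j) (hxy : x ≠ y) :
    swap i j = swap x y ↔ (i = x ∧ j = y) ∨ (i = y ∧ j = x) := by
  constructor
  · intro h
    have h1 : swap x y i = j := by rw [← h]; simp
    by_cases hx : i = x
    · subst hx; left; exact ⟨rfl, by simpa using h1.symm⟩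
    · by_cases hy : i = y
      · subst hy; right; exact ⟨rfl, by simpa using h1.symm⟩
      · rw [swap_apply_of_ne_of_ne hx hy] at h1
        exact absurd h1 hij
  · rintro (⟨rfl, rfl⟩ | ⟨rfl, rfl⟩)
    · rfl
    · exact swap_comm _ _

theorem sum_swap_pairs {t : Perm (Fin n)} (ht : t.IsSwap) :
    ∑ i : Fin n, ∑ j : Fin n, (if i ≠ j ∧ swap i j = t then (1 : ℝ) else 0) = 2 := by
  obtain ⟨x, y, hxy, rfl⟩ := ht
  have h : ∀ i j : Fin n, (if i ≠ j ∧ swap i j = swap x y then (1 : ℝ) else 0) =
      (if i = x then (if j = y then 1 else 0) else 0) + (if i = y then (if j = x then 1 else 0) else 0) := by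
    intro i j
    by_cases hij : i = j
    · subst hij
      by_cases h1 : i = x
      · subst h1
        simp [hxy]
      · simp [h1]
    · have hiff : (i ≠ j ∧ swap i j = swap x y) ↔ ((i = x ∧ j = y) ∨ (i = y ∧ j = x)) :=
        ⟨fun h => (swap_pairs hij hxy).1 h.2, fun h => ⟨hij, (swap_pairs hij hxy).2 h⟩⟩
      rw [if_congr hiff rfl rfl]
      by_cases h1 : i = x
      · subst h1
        by_cases h2 : j = y
        · subst h2; simp [hij]
        · simp [h2, hxy]
      · by_cases h2 : i = y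
        · subst h2
          by_cases h3 : j = x
          · subst h3; simp [h1]
          · simp [h1, h3]
        · simp [h1, h2]
  simp only [h, Finset.sum_add_distrib]
  simp
  norm_num

open Classical in
/-- indicator of the orbit of a word -/
noncomputable def indO (w0 w : Fin n → Fin a) : ℝ := if ∃ τ, act τ w0 = w then 1 else 0

theorem T2_indO (w0 w : Fin n → Fin a) : T2 (indO w0) w = ((n : ℝ) * ((n : ℝ) - 1)) * indO w0 w := by
  have h1 : ∀ i j : Fin n, indO w0 (w ∘ swap i j) = indO w0 w := by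
    intro i j
    unfold indO
    have : (∃ τ, act τ w0 = w ∘ swap i j) ↔ ∃ τ, act τ w0 = w := by
      rw [comp_swap]
      constructor
      · rintro ⟨τ, hτ⟩
        refine ⟨swap i j * τ, ?_⟩
        rw [act_mul, hτ, ← act_mul, swap_mul_self]
        simp [act]
      · rintro ⟨τ, hτ⟩
        exact ⟨swap i j * τ, by rw [act_mul, hτ]⟩
    simp only [this]
  unfold T2
  simp only [h1]
  have h2 : ∀ i : Fin n, ∑ j : Fin n, (if i ≠ j then indO w0 w else 0) = ((n : ℝ) - 1) * indO w0 w := by
    intro i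
    have h3 : ∀ j : Fin n, (if i ≠ j then indO w0 w else 0) = indO w0 w - (if i = j then indO w0 w else 0) := by
      intro j
      by_cases h : i = j <;> simp [h]
    rw [Finset.sum_congr rfl (fun j _ => h3 j), Finset.sum_sub_distrib]
    simp
    ring
  rw [Finset.sum_congr rfl (fun i _ => h2 i)]
  simp
  ring

theorem T2_sub (f g : (Fin n → Fin a) → ℝ) (c : ℝ) (w : Fin n → Fin a) :
    T2 (fun w => f w - c * g w) w = T2 f w - c * T2 g w := by
  unfold T2
  rw [Finset.mul_sum, ← Finset.sum_sub_distrib]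
  refine Finset.sum_congr rfl (fun i _ => ?_)
  rw [Finset.mul_sum, ← Finset.sum_sub_distrib]
  refine Finset.sum_congr rfl (fun j _ => ?_)
  by_cases h : i ≠ j
  · simp [h]
  · simp [h]

/-- number of permutations carrying one word to another -/
noncomputable def SS (w0 w : Fin n → Fin a) : ℝ := ∑ σ : Perm (Fin n), if act σ w0 = w then 1 else 0

theorem SS_eq (w0 w : Fin n → Fin a) : SS w0 w = SS w0 w0 * indO w0 w := by
  unfold indO
  by_cases h : ∃ τ, act τ w0 = w
  · rw [if_pos h, mul_one]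
    obtain ⟨τ, rfl⟩ := h
    unfold SS
    refine Fintype.sum_equiv (Equiv.mulLeft τ⁻¹) _ _ (fun σ => ?_)
    have : act σ w0 = act τ w0 ↔ act (τ⁻¹ * σ) w0 = w0 := by
      rw [act_mul]
      constructor
      · intro h
        rw [h, ← act_mul]; simp [act]
      · intro h
        rw [act_eq_iff, inv_inv] at h
        exact h.symm
    exact if_congr this rfl rfl
  · rw [if_neg h, mul_zero]
    unfold SS
    refine Finset.sum_eq_zero (fun σ _ => ?_)
    rw [if_neg]
    intro hσ
    exact h ⟨σ, hσ⟩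

theorem SS_card (w0 : Fin n → Fin a) (μ : Fin a → ℕ) (hw : ∀ p, cnt w0 p = μ p) :
    SS w0 w0 = ((∏ p : Fin a, (μ p).factorial : ℕ) : ℝ) := by
  classical
  have h1 := DomMulAct.stabilizer_card (α := Fin n) (ι := Fin a) w0
  have h2 : ∀ p : Fin a, Fintype.card {i : Fin n // w0 i = p} = μ p := by
    intro p
    rw [← hw p, Fintype.card_subtype]
    rfl
  simp only [h2] at h1
  rw [← h1]
  unfold SS
  rw [Finset.sum_boole, Fintype.card_subtype]
  congr 2
  ext σ
  simp only [mem_filter, mem_univ, true_and]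
  rw [act_eq_iff]
  unfold act
  rw [inv_inv]

theorem vec_support (Y : Finset (Perm (Fin n))) (w0 w : Fin n → Fin a) (h : ¬ ∃ τ, act τ w0 = w) :
    vec Y w0 w = 0 := by
  unfold vec
  refine Finset.sum_eq_zero (fun y _ => ?_)
  rw [if_neg]
  intro hy
  exact h ⟨y, hy⟩

theorem vec_nat (Y : Finset (Perm (Fin n))) (w0 w : Fin n → Fin a) : ∃ m : ℕ, vec Y w0 w = m := by
  refine ⟨(Y.filter (fun y => act y w0 = w)).card, ?_⟩
  unfold vec
  rw [Finset.sum_boole]

/-- a word with prescribed numbers of letters -/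
theorem exists_word (μ : Fin a → ℕ) (hμ : ∑ p, μ p = n) : ∃ w0 : Fin n → Fin a, ∀ p, cnt w0 p = μ p := by
  classical
  have h1 : Fintype.card (Fin n) = Fintype.card (Σ p : Fin a, Fin (μ p)) := by simp [hμ]
  let e := Fintype.equivOfCardEq h1
  refine ⟨fun i => (e i).1, fun p => ?_⟩
  unfold cnt
  have h2 : (Finset.univ.filter (fun i : Fin n => (e i).1 = p)).card =
      (Finset.univ : Finset (Fin (μ p))).card := by
    symm
    apply Finset.card_bij (fun k _ => e.symm ⟨p, k⟩)
    · intro k _; simp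
    · intro k _ k' _ h
      have := e.symm.injective h
      simpa using this
    · intro i hi
      have hi' : (e i).1 = p := by simpa using hi
      subst hi'
      exact ⟨(e i).2, mem_univ _, by simp⟩
  rw [h2]; simp

/-- the general step -/
theorem step (Y : Finset (Perm (Fin n))) (μ : Fin a → ℕ) (w0 : Fin n → Fin a) (hw : ∀ p, cnt w0 p = μ p)
    {κ c : ℝ} (hκ : κ < cc μ) (hT : ∀ w, T2 (vec Y w0) w = κ * vec Y w0 w +
      (c * ((n : ℝ) * ((n : ℝ) - 1) - κ)) * indO w0 w) : vec Y w0 w0 = c := by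
  have h := eq_zero_of_T2 μ (fun w => vec Y w0 w - c * indO w0 w) ?_ hκ ?_ w0
  · have h1 : indO w0 w0 = 1 := by
      unfold indO
      rw [if_pos ⟨1, by simp [act]⟩]
    simp only [h1] at h
    linarith
  · intro w hne p
    by_cases hO : ∃ τ, act τ w0 = w
    · obtain ⟨τ, rfl⟩ := hO
      rw [cnt_act, hw]
    · exfalso
      apply hne
      have : indO w0 w = 0 := by unfold indO; rw [if_neg hO]
      simp only [vec_support Y w0 w hO, this]
      ring
  · intro w _
    rw [T2_sub, hT, T2_indO]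
    ring

theorem exists_two (μ : Fin a → ℕ) (hc : 0 < cc μ) : ∃ p, 2 ≤ μ p := by
  by_contra h
  push Not at h
  have : cc μ ≤ 0 := by
    unfold cc
    apply Finset.sum_nonpos
    intro p _
    have h1 : μ p = 0 ∨ μ p = 1 := by have := h p; omega
    rcases h1 with h1 | h1
    · rw [h1]; simp
    · rw [h1]
      have : (0 : ℝ) ≤ (p.1 : ℝ) := Nat.cast_nonneg _
      push_cast
      linarith
  linarith

/-- tilings by the transpositions -/
theorem swap_tile (Y : Set (Perm (Fin n)))
    (hY : ∀ σ : Perm (Fin n), ∃! p : Perm (Fin n) × Perm (Fin n), p.1.IsSwap ∧ p.2 ∈ Y ∧ p.1 * p.2 = σ)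
    (μ : Fin a → ℕ) (hμ : ∑ p, μ p = n) (hc : 0 < cc μ) : n * (n - 1) ∣ ∏ p : Fin a, (μ p).factorial := by
  classical
  obtain ⟨w0, hw⟩ := exists_word μ hμ
  obtain ⟨p, hp⟩ := exists_two μ hc
  -- an odd stabilising transposition
  obtain ⟨ε, hε1, hε2⟩ : ∃ ε : Perm (Fin n), Perm.sign ε = -1 ∧ act ε w0 = w0 := by
    have h2 : 1 < (Finset.univ.filter (fun i => w0 i = p)).card := by
      have := hw p
      unfold cnt at this
      omega
    obtain ⟨i, hi, j, hj, hij⟩ := Finset.one_lt_card.1 h2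
    have hi' : w0 i = p := by simpa using hi
    have hj' : w0 j = p := by simpa using hj
    refine ⟨swap i j, Perm.sign_swap hij, ?_⟩
    rw [← comp_swap, ← update_swap hij hi' hj']
    have e1 : Function.update w0 i p = w0 := by
      conv_lhs => rw [← hi']
      rw [Function.update_eq_self]
    rw [e1]
    conv_lhs => rw [← hj']
    rw [Function.update_eq_self]
  have hn2 : 2 ≤ n := by
    rw [← hμ]
    exact hp.trans (Finset.single_le_sum (f := μ) (fun _ _ => Nat.zero_le _) (mem_univ p))
  -- even part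
  set Y' : Finset (Perm (Fin n)) := Finset.univ.filter (fun y => y ∈ Y ∧ Perm.sign y = 1) with hY'
  have hg : ∀ σ : Perm (Fin n), ∑ i : Fin n, ∑ j : Fin n, ∑ y ∈ Y',
      (if i ≠ j ∧ swap i j * y = σ then (1 : ℝ) else 0) = if Perm.sign σ = -1 then 2 else 0 := by
    intro σ
    by_cases hσ : Perm.sign σ = -1
    · rw [if_pos hσ]
      obtain ⟨⟨t, y0⟩, ⟨ht, hy0, hty⟩, huniq⟩ := hY σ
      simp only at ht hy0 hty
      have hy0' : y0 ∈ Y' := by
        rw [hY', mem_filter]
        refine ⟨mem_univ _, hy0, ?_⟩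
        obtain ⟨x, y, hxy, rfl⟩ := ht
        rw [← hty, Perm.sign_mul, Perm.sign_swap hxy] at hσ
        simpa using hσ
      rw [← sum_swap_pairs ht]
      refine Finset.sum_congr rfl (fun i _ => Finset.sum_congr rfl (fun j _ => ?_))
      by_cases hij : i ≠ j ∧ swap i j = t
      · rw [if_pos hij, Finset.sum_eq_single y0]
        · rw [if_pos ⟨hij.1, by rw [hij.2]; exact hty⟩]
        · intro y hy hne
          rw [if_neg]
          rintro ⟨_, h3⟩
          apply hne
          rw [hij.2, ← hty] at h3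
          exact mul_left_cancel h3
        · intro h; exact absurd hy0' h
      · rw [if_neg hij]
        refine Finset.sum_eq_zero (fun y hy => ?_)
        rw [if_neg]
        rintro ⟨h3, h4⟩
        apply hij
        have hyY : y ∈ Y := ((mem_filter.1 hy).2).1
        have := huniq (swap i j, y) ⟨⟨i, j, h3, rfl⟩, hyY, h4⟩
        exact ⟨h3, congrArg Prod.fst this⟩
    · rw [if_neg hσ]
      refine Finset.sum_eq_zero (fun i _ => Finset.sum_eq_zero (fun j _ => Finset.sum_eq_zero (fun y hy => ?_)))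
      rw [if_neg]
      rintro ⟨h3, h4⟩
      apply hσ
      have := ((mem_filter.1 hy).2).2
      rw [← h4, Perm.sign_mul, Perm.sign_swap h3, this, mul_one]
  set s : ℕ := ∏ p : Fin a, (μ p).factorial with hs
  have hodd : ∀ w, ∑ σ : Perm (Fin n), (if Perm.sign σ = -1 then (2 : ℝ) else 0) * (if act σ w0 = w then 1 else 0) =
      SS w0 w := by
    intro w
    have h1 : ∑ σ : Perm (Fin n), (if Perm.sign σ = -1 then (1 : ℝ) else 0) * (if act σ w0 = w then 1 else 0) =
        ∑ σ : Perm (Fin n), (if Perm.sign σ = -1 then (0 : ℝ) else 1) * (if act σ w0 = w then 1 else 0) := by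
      refine Fintype.sum_equiv (Equiv.mulRight ε) _ _ (fun σ => ?_)
      have e1 : act (σ * ε) w0 = act σ w0 := by rw [act_mul, hε2]
      have e2 : Perm.sign (σ * ε) = - Perm.sign σ := by rw [Perm.sign_mul, hε1]; simp
      simp only [Equiv.coe_mulRight, e1, e2]
      rcases Int.units_eq_one_or (Perm.sign σ) with h | h
      · rw [h]; simp
      · rw [h]
        simp
    have h2 : SS w0 w = ∑ σ : Perm (Fin n), (if Perm.sign σ = -1 then (1 : ℝ) else 0) *
        (if act σ w0 = w then 1 else 0) +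
        ∑ σ : Perm (Fin n), (if Perm.sign σ = -1 then (0 : ℝ) else 1) * (if act σ w0 = w then 1 else 0) := by
      unfold SS
      rw [← Finset.sum_add_distrib]
      refine Finset.sum_congr rfl (fun σ _ => ?_)
      by_cases h : Perm.sign σ = -1 <;> simp [h]
    rw [h2, ← h1, ← Finset.sum_add_distrib]
    refine Finset.sum_congr rfl (fun σ _ => ?_)
    by_cases h : Perm.sign σ = -1
    · simp only [h, if_true]; ring
    · simp only [h, if_false]; ring
  have hSS := SS_card w0 μ hw
  have hn : (0 : ℝ) < (n : ℝ) * ((n : ℝ) - 1) := by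
    have : (2 : ℝ) ≤ n := by exact_mod_cast hn2
    nlinarith
  have hstep := step Y' μ w0 hw (κ := 0) (c := (s : ℝ) / ((n : ℝ) * ((n : ℝ) - 1))) hc (by
    intro w
    rw [T2_vec Y' w0 _ hg, hodd, SS_eq, hSS, zero_mul, zero_add, sub_zero, div_mul_cancel₀ _ hn.ne'])
  obtain ⟨m, hm⟩ := vec_nat Y' w0 w0
  rw [hm, eq_div_iff hn.ne'] at hstep
  refine ⟨m, ?_⟩
  have h3 : ((n * (n - 1) : ℕ) : ℝ) = (n : ℝ) * ((n : ℝ) - 1) := by
    rw [Nat.cast_mul, Nat.cast_sub (by omega)]
    simp
  have h4 : ((s : ℕ) : ℝ) = ((n * (n - 1) * m : ℕ) : ℝ) := by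
    rw [Nat.cast_mul, h3, ← hstep]; ring
  exact_mod_cast h4

/-- tilings by the identity and the transpositions -/
theorem id_tile (Y : Set (Perm (Fin n)))
    (hY : ∀ σ : Perm (Fin n), ∃! p : Perm (Fin n) × Perm (Fin n), (p.1 = 1 ∨ p.1.IsSwap) ∧ p.2 ∈ Y ∧ p.1 * p.2 = σ)
    (μ : Fin a → ℕ) (hμ : ∑ p, μ p = n) (hc : 0 ≤ cc μ) : 1 + n * (n - 1) / 2 ∣ ∏ p : Fin a, (μ p).factorial := by
  classical
  obtain ⟨w0, hw⟩ := exists_word μ hμ
  set Y' : Finset (Perm (Fin n)) := Finset.univ.filter (fun y => y ∈ Y) with hY'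
  have hswap1 : ∀ i j : Fin n, i ≠ j → swap i j ≠ 1 := by
    intro i j hij h
    exact hij ((swap_eq_one_iff).1 h)
  have hg : ∀ σ : Perm (Fin n), ∑ i : Fin n, ∑ j : Fin n, ∑ y ∈ Y',
      (if i ≠ j ∧ swap i j * y = σ then (1 : ℝ) else 0) = 2 - 2 * (if σ ∈ Y' then 1 else 0) := by
    intro σ
    obtain ⟨⟨t, y0⟩, ⟨ht, hy0, hty⟩, huniq⟩ := hY σ
    simp only at ht hy0 hty
    have hy0' : y0 ∈ Y' := mem_filter.2 ⟨mem_univ _, hy0⟩
    by_cases hσ : σ ∈ Y'
    · rw [if_pos hσ]
      have hσY : σ ∈ Y := (mem_filter.1 hσ).2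
      have h1 := huniq (1, σ) ⟨Or.inl rfl, hσY, one_mul _⟩
      have ht1 : t = 1 := (congrArg Prod.fst h1).symm
      rw [mul_one, sub_self]
      refine Finset.sum_eq_zero (fun i _ => Finset.sum_eq_zero (fun j _ => Finset.sum_eq_zero (fun y hy => ?_)))
      rw [if_neg]
      rintro ⟨h3, h4⟩
      have h5 := huniq (swap i j, y) ⟨Or.inr ⟨i, j, h3, rfl⟩, (mem_filter.1 hy).2, h4⟩
      have h6 : swap i j = t := congrArg Prod.fst h5
      exact hswap1 i j h3 (h6.trans ht1)
    · rw [if_neg hσ, mul_zero, sub_zero]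
      have ht' : t.IsSwap := by
        rcases ht with h | h
        · exfalso
          rw [h, one_mul] at hty
          rw [hty] at hy0'
          exact hσ hy0'
        · exact h
      rw [← sum_swap_pairs ht']
      refine Finset.sum_congr rfl (fun i _ => Finset.sum_congr rfl (fun j _ => ?_))
      by_cases hij : i ≠ j ∧ swap i j = t
      · rw [if_pos hij, Finset.sum_eq_single y0]
        · rw [if_pos ⟨hij.1, by rw [hij.2]; exact hty⟩]
        · intro y hy hne
          rw [if_neg]
          rintro ⟨_, h3⟩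
          apply hne
          rw [hij.2, ← hty] at h3
          exact mul_left_cancel h3
        · intro h; exact absurd hy0' h
      · rw [if_neg hij]
        refine Finset.sum_eq_zero (fun y hy => ?_)
        rw [if_neg]
        rintro ⟨h3, h4⟩
        apply hij
        have := huniq (swap i j, y) ⟨Or.inr ⟨i, j, h3, rfl⟩, (mem_filter.1 hy).2, h4⟩
        exact ⟨h3, congrArg Prod.fst this⟩
  set s : ℕ := ∏ p : Fin a, (μ p).factorial with hs
  have hsum : ∀ w, ∑ σ : Perm (Fin n), (2 - 2 * (if σ ∈ Y' then (1 : ℝ) else 0)) * (if act σ w0 = w then 1 else 0) =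
      2 * SS w0 w - 2 * vec Y' w0 w := by
    intro w
    unfold SS vec
    have h1 : ∑ y ∈ Y', (if act y w0 = w then (1 : ℝ) else 0) =
        ∑ σ : Perm (Fin n), (if σ ∈ Y' then (1 : ℝ) else 0) * (if act σ w0 = w then 1 else 0) := by
      rw [← Finset.sum_filter_add_sum_filter_not Finset.univ (fun σ => σ ∈ Y')]
      have e1 : Finset.univ.filter (fun σ => σ ∈ Y') = Y' := by ext; simp
      rw [e1]
      have e2 : ∑ σ ∈ Y', (if σ ∈ Y' then (1 : ℝ) else 0) * (if act σ w0 = w then 1 else 0) =
          ∑ y ∈ Y', (if act y w0 = w then (1 : ℝ) else 0) :=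
        Finset.sum_congr rfl (fun σ hσ => by rw [if_pos hσ, one_mul])
      rw [e2, Finset.sum_eq_zero (s := Finset.univ.filter (fun σ => ¬ σ ∈ Y')), add_zero]
      intro σ hσ
      rw [if_neg (mem_filter.1 hσ).2, zero_mul]
    rw [h1, Finset.mul_sum, Finset.mul_sum, ← Finset.sum_sub_distrib]
    exact Finset.sum_congr rfl (fun σ _ => by ring)
  have hSS := SS_card w0 μ hw
  have hn : (0 : ℝ) < (n : ℝ) * ((n : ℝ) - 1) + 2 := by
    have : (0 : ℝ) ≤ (n : ℝ) * ((n : ℝ) - 1) := by
      rcases Nat.eq_zero_or_pos n with h | h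
      · rw [h]; simp
      · have : (1 : ℝ) ≤ n := by exact_mod_cast h
        nlinarith
    linarith
  have hstep := step Y' μ w0 hw (κ := -2) (c := 2 * (s : ℝ) / ((n : ℝ) * ((n : ℝ) - 1) + 2)) (by linarith) (by
    intro w
    rw [T2_vec Y' w0 _ hg, hsum, SS_eq, hSS, sub_neg_eq_add, div_mul_cancel₀ _ hn.ne']
    ring)
  obtain ⟨m, hm⟩ := vec_nat Y' w0 w0
  rw [hm, eq_div_iff hn.ne'] at hstep
  refine ⟨m, ?_⟩
  have h2 : 2 ∣ n * (n - 1) := (Nat.even_mul_pred_self n).two_dvd
  obtain ⟨k, hk⟩ := h2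
  have h3 : ((n * (n - 1) : ℕ) : ℝ) = (n : ℝ) * ((n : ℝ) - 1) := by
    rcases Nat.eq_zero_or_pos n with h | h
    · rw [h]; simp
    · rw [Nat.cast_mul, Nat.cast_sub (by omega)]
      simp
  rw [hk, Nat.mul_div_cancel_left _ (by norm_num)]
  rw [hk] at h3
  push_cast at h3
  have h4 : ((s : ℕ) : ℝ) = (((1 + k) * m : ℕ) : ℝ) := by
    push_cast
    rw [← h3] at hstep
    linarith
  exact_mod_cast h4

end Pool.Agent.Q21.TT
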