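import Mathlib

set_option autoImplicit false

namespace Pool.Agent.Q21.TT

/-- Every permutation `g` of `n` points has exactly one factorisation `g = t * y` with `t ∈ T`, `y ∈ Y`. -/
def IsTiling {n : ℕ} (T Y : Set (Equiv.Perm (Fin n))) : Prop :=
  ∀ g : Equiv.Perm (Fin n), ∃! p : Equiv.Perm (Fin n) × Equiv.Perm (Fin n), p.1 ∈ T ∧ p.2 ∈ Y ∧ p.1 * p.2 = g

/-- `T` tiles the symmetric group on `n` points. -/
def Tiles {n : ℕ} (T : Set (Equiv.Perm (Fin n))) : Prop := ∃ Y : Set (Equiv.Perm (Fin n)), IsTiling T Y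

/-- `T_n^*`: the set of all transpositions of `n` points. -/
def Tstar (n : ℕ) : Set (Equiv.Perm (Fin n)) := {t | t.IsSwap}

/-- `T_n`: the identity and all transpositions of `n` points. -/
def Tid (n : ℕ) : Set (Equiv.Perm (Fin n)) := {t | t = 1 ∨ t.IsSwap}

/-- The sum of the contents `j - i` of the cells `(i, j)`, `j < μ i`, of the diagram with rows `μ 0, μ 1, ...`. -/
def content {a : ℕ} (μ : Fin a → ℕ) : ℤ := ∑ i : Fin a, ∑ j ∈ Finset.range (μ i), ((j : ℤ) - (i.1 : ℤ))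

end Pool.Agent.Q21.TT
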