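import Pool.Agent.Q21.TT
import Pool.Agent.Q21.TTD

set_option autoImplicit false

namespace Pool.Agent.Q21.TT

open Finset Equiv

theorem cc_eq {a : ℕ} (μ : Fin a → ℕ) : cc μ = 2 * (content μ : ℝ) := by
  unfold cc content
  push_cast
  rw [Finset.mul_sum]
  refine Finset.sum_congr rfl (fun i _ => ?_)
  have h1 : ∀ m : ℕ, (∑ j ∈ Finset.range m, ((j : ℝ) - (i.1 : ℝ))) * 2 = (m : ℝ) * ((m : ℝ) - 1) - 2 * (i.1 : ℝ) * m := by
    intro m
    induction m with
    | zero => simp
    | succ m ih =>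
      rw [Finset.sum_range_succ, add_mul, ih]
      push_cast
      ring
  rw [← h1, mul_comm]

theorem star_dvd {n a : ℕ} (h : Tiles (Tstar n)) (μ : Fin a → ℕ) (hμ : ∑ p, μ p = n) (hc : 0 < content μ) :
    n * (n - 1) ∣ ∏ p : Fin a, (μ p).factorial := by
  obtain ⟨Y, hY⟩ := h
  refine swap_tile Y hY μ hμ ?_
  rw [cc_eq]
  have : (0 : ℝ) < (content μ : ℝ) := by exact_mod_cast hc
  linarith

theorem id_dvd {n a : ℕ} (h : Tiles (Tid n)) (μ : Fin a → ℕ) (hμ : ∑ p, μ p = n) (hc : 0 ≤ content μ) :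
    1 + n * (n - 1) / 2 ∣ ∏ p : Fin a, (μ p).factorial := by
  obtain ⟨Y, hY⟩ := h
  refine id_tile Y hY μ hμ ?_
  rw [cc_eq]
  have : (0 : ℝ) ≤ (content μ : ℝ) := by exact_mod_cast hc
  linarith

/-- rows of length `q`, and the rest -/
def rows (n q : ℕ) : Fin (n / q + 1) → ℕ := fun i => if i.1 < n / q then q else n % q

theorem rows_sum (n q : ℕ) : ∑ i, rows n q i = n := by
  rw [Fin.sum_univ_castSucc]
  have h1 : ∀ i : Fin (n / q), rows n q i.castSucc = q := by
    intro i; unfold rows; simp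
  have h2 : rows n q (Fin.last _) = n % q := by unfold rows; simp
  rw [Finset.sum_congr rfl (fun i _ => h1 i), h2]
  simp
  exact Nat.div_add_mod' n q

theorem rows_cc (n q : ℕ) : cc (rows n q) = ((n / q : ℕ) : ℝ) * q * ((q : ℝ) - ((n / q : ℕ) : ℝ)) +
    ((n % q : ℕ) : ℝ) * (((n % q : ℕ) : ℝ) - 1 - 2 * ((n / q : ℕ) : ℝ)) := by
  unfold cc
  rw [Fin.sum_univ_castSucc]
  have h1 : ∀ i : Fin (n / q), rows n q i.castSucc = q := by
    intro i; unfold rows; simp
  have h2 : rows n q (Fin.last _) = n % q := by unfold rows; simp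
  simp only [h1, h2]
  have h3 : ∀ m : ℕ, ∑ i : Fin m, ((q : ℝ) * ((q : ℝ) - 1) - 2 * (i.1 : ℝ) * q) = (m : ℝ) * q * ((q : ℝ) - m) := by
    intro m
    induction m with
    | zero => simp
    | succ m ih =>
      rw [Fin.sum_univ_castSucc]
      simp only [Fin.val_castSucc, Fin.val_last]
      rw [ih]
      push_cast
      ring
  have h4 : ∀ i : Fin (n / q), (i.castSucc : Fin (n / q + 1)).1 = i.1 := fun i => rfl
  simp only [h4, Fin.val_last]
  rw [h3]
  ring

theorem rows_lt {n q : ℕ} (hq : 0 < q) (i : Fin (n / q + 1)) : rows n q i ≤ q := by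
  unfold rows
  by_cases h : i.1 < n / q
  · rw [if_pos h]
  · rw [if_neg h]; exact (Nat.mod_lt _ hq).le

theorem not_dvd_rows {n q : ℕ} (hq : 0 < q) (hp : (q + 1).Prime) : ¬ (q + 1) ∣ ∏ i, (rows n q i).factorial := by
  intro h
  rw [Prime.dvd_finsetProd_iff hp.prime] at h
  obtain ⟨i, _, hi⟩ := h
  rw [hp.dvd_factorial] at hi
  have := rows_lt hq i (n := n)
  omega

theorem rows_pos {n q : ℕ} (hn : 2 ≤ n) (hq : 0 < q) (h : n + 2 ≤ q ^ 2) : 0 < cc (rows n q) := by
  rw [rows_cc]
  have hdm := Nat.div_add_mod' n q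
  have hmod := Nat.mod_lt n hq
  generalize n / q = A at *
  generalize n % q = r at *
  subst hdm
  rcases Nat.eq_zero_or_pos A with hA | hA
  · subst hA
    have h2 : (2 : ℝ) ≤ (r : ℝ) := by
      have : 2 ≤ r := by omega
      exact_mod_cast this
    push_cast
    nlinarith
  · have h1 : A < q := by
      by_contra hc
      push Not at hc
      have : q * q ≤ A * q := Nat.mul_le_mul_right _ hc
      nlinarith
    have hr : (r : ℝ) + 1 ≤ q := by exact_mod_cast hmod
    have hr0 : (0 : ℝ) ≤ r := Nat.cast_nonneg _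
    have hA' : (1 : ℝ) ≤ A := by exact_mod_cast hA
    rcases Nat.lt_or_ge (A + 1) q with h2 | h2
    · have h3 : (A : ℝ) + 2 ≤ q := by exact_mod_cast h2
      have h4 : 2 * ((A : ℝ) * q) ≤ (A : ℝ) * q * ((q : ℝ) - A) := by nlinarith [mul_pos (show (0:ℝ) < A by linarith) (show (0:ℝ) < q by linarith)]
      have h5 : -(2 * (A : ℝ) * r) ≤ (r : ℝ) * ((r : ℝ) - 1 - 2 * A) := by
        rcases Nat.eq_zero_or_pos r with h0 | h0
        · subst h0; simp
        · have : (1 : ℝ) ≤ r := by exact_mod_cast h0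
          nlinarith
      nlinarith
    · have hAq : A + 1 = q := by omega
      have hr2 : r + 2 ≤ q := by
        subst hAq
        nlinarith
      have e1 : (q : ℝ) = A + 1 := by exact_mod_cast hAq.symm
      have hr2' : (r : ℝ) + 1 ≤ A := by
        have : r + 1 ≤ A := by omega
        exact_mod_cast this
      rw [e1]
      nlinarith

theorem rows_nonneg {n q : ℕ} (hq : 0 < q) (h : n ≤ q ^ 2) : 0 ≤ cc (rows n q) := by
  rw [rows_cc]
  have hdm := Nat.div_add_mod' n q
  have hmod := Nat.mod_lt n hq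
  generalize n / q = A at *
  generalize n % q = r at *
  subst hdm
  have hr : (r : ℝ) + 1 ≤ q := by exact_mod_cast hmod
  have hr0 : (0 : ℝ) ≤ r := Nat.cast_nonneg _
  have hA' : (0 : ℝ) ≤ A := Nat.cast_nonneg _
  have h5 : -(2 * (A : ℝ) * r) ≤ (r : ℝ) * ((r : ℝ) - 1 - 2 * A) := by
    rcases Nat.eq_zero_or_pos r with h0 | h0
    · subst h0; simp
    · have : (1 : ℝ) ≤ r := by exact_mod_cast h0
      nlinarith
  rcases Nat.lt_or_ge (A + 1) q with h2 | h2
  · have h3 : (A : ℝ) + 2 ≤ q := by exact_mod_cast h2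
    have h4 : 2 * ((A : ℝ) * q) ≤ (A : ℝ) * q * ((q : ℝ) - A) := by
      have : (0 : ℝ) ≤ (A : ℝ) * q := by positivity
      nlinarith
    nlinarith
  · rcases Nat.lt_or_ge A q with h3 | h3
    · have hAq : A + 1 = q := by omega
      have e1 : (q : ℝ) = A + 1 := by exact_mod_cast hAq.symm
      have hr2' : (r : ℝ) ≤ A := by
        have : r ≤ A := by omega
        exact_mod_cast this
      rw [e1]
      nlinarith
    · have h4 : A = q := by
        have h6 : A * q ≤ q * q := by nlinarith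
        have := Nat.le_of_mul_le_mul_right h6 hq
        omega
      have h7 : r = 0 := by
        subst h4
        nlinarith
      subst h4 h7
      simp

end Pool.Agent.Q21.TT
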