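import Mathlib
import Pool.Agent.Q21.Blocks

set_option autoImplicit false

namespace Q21.TreeAut

open Equiv

abbrev V : Type := List Bool

/-- Automorphisms of the rooted binary tree whose vertices are the lists of Booleans, the parent of
a vertex being its tail. -/
def G : Subgroup (Perm V) where
  carrier := {g | ∀ v : V, (g v).length = v.length ∧ (g v).tail = g v.tail}
  mul_mem' := by
    intro g h hg hh v
    rw [Perm.mul_apply]
    exact ⟨(hg _).1.trans (hh _).1, by rw [(hg _).2, (hh _).2]; rfl⟩
  one_mem' := fun v => ⟨rfl, rfl⟩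
  inv_mem' := by
    intro g hg v
    have e : g (g⁻¹ v) = v := g.apply_symm_apply v
    refine ⟨?_, ?_⟩
    · have := (hg (g⁻¹ v)).1
      rw [e] at this
      exact this.symm
    · rw [Perm.eq_inv_iff_eq, ← (hg _).2, e]

theorem len (g : G) (v : V) : (g.1 v).length = v.length := (g.2 v).1
theorem tail (g : G) (v : V) : (g.1 v).tail = g.1 v.tail := (g.2 v).2

theorem iter (g : G) (k : ℕ) (v : V) : List.tail^[k] (g.1 v) = g.1 (List.tail^[k] v) := by
  induction k generalizing v with
  | zero => rfl
  | succ k ih => rw [Function.iterate_succ_apply, Function.iterate_succ_apply, tail, ih]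

theorem nilv (g : G) : g.1 [] = [] := List.length_eq_zero_iff.1 (len g [])

/-- The label of an automorphism at a vertex. -/
def lab (g : G) (u : V) : Bool := (g.1 (false :: u)).headD false

theorem cons_false (g : G) (u : V) : g.1 (false :: u) = lab g u :: g.1 u := by
  have h1 := len g (false :: u)
  have h2 := tail g (false :: u)
  cases h : g.1 (false :: u) with
  | nil => rw [h] at h1; simp at h1
  | cons x w =>
    rw [h] at h2
    simp only [List.tail_cons] at h2
    rw [lab, h, h2]
    rfl

theorem cons_true (g : G) (u : V) : g.1 (true :: u) = (!lab g u) :: g.1 u := by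
  have h1 := len g (true :: u)
  have h2 := tail g (true :: u)
  cases h : g.1 (true :: u) with
  | nil => rw [h] at h1; simp at h1
  | cons x w =>
    rw [h] at h2
    simp only [List.tail_cons] at h2
    subst h2
    have h3 : x ≠ lab g u := by
      intro h4
      rw [h4, ← cons_false] at h
      have := g.1.injective h
      simp at this
    cases x <;> cases h5 : lab g u <;> simp_all

theorem cons (g : G) (x : Bool) (u : V) : g.1 (x :: u) = xor x (lab g u) :: g.1 u := by
  cases x
  · rw [cons_false]; simp
  · rw [cons_true]; simp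

theorem lab_mul (g h : G) (u : V) : lab (g * h) u = xor (lab h u) (lab g (h.1 u)) := by
  have h1 : (g * h).1 (false :: u) = xor (lab h u) (lab g (h.1 u)) :: g.1 (h.1 u) := by
    show g.1 (h.1 (false :: u)) = _
    rw [cons_false, cons]
  rw [lab, h1]
  rfl

/-- The vertices of level `n`. -/
noncomputable def lv (n : ℕ) : Finset V := (List.finite_length_eq Bool n).toFinset

theorem mem_lv {n : ℕ} {v : V} : v ∈ lv n ↔ v.length = n := by
  simp [lv]

/-- The integer modulo two attached to a Boolean. -/
def tz (b : Bool) : ZMod 2 := if b then 1 else 0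

theorem tz_xor : ∀ a b : Bool, tz (xor a b) = tz a + tz b := by decide

/-- The sum of the labels at level `n`. -/
noncomputable def s (n : ℕ) (g : G) : ZMod 2 := ∑ u ∈ lv n, tz (lab g u)

theorem s_mul (n : ℕ) (g h : G) : s n (g * h) = s n g + s n h := by
  have h1 : s n (g * h) = ∑ u ∈ lv n, (tz (lab h u) + tz (lab g (h.1 u))) :=
    Finset.sum_congr rfl fun u _ => by rw [lab_mul, tz_xor]
  rw [h1, Finset.sum_add_distrib]
  have h2 : ∑ u ∈ lv n, tz (lab g (h.1 u)) = s n g := by
    refine Finset.sum_equiv h.1 (fun u => ?_) (fun u _ => rfl)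
    rw [mem_lv, mem_lv, len]
  rw [h2, add_comm]
  rfl

theorem s_one (n : ℕ) : s n 1 = 0 := by
  have h := s_mul n 1 1
  rw [mul_one] at h
  simpa using h

theorem s_inv (n : ℕ) (g : G) : s n g⁻¹ = - s n g := by
  have h := s_mul n g⁻¹ g
  rw [inv_mul_cancel, s_one] at h
  exact eq_neg_of_add_eq_zero_left h.symm

/-- The subgroup defined by an ultrafilter. -/
def K (U : Ultrafilter ℕ) : Subgroup G where
  carrier := {g | ∀ᶠ n in (U : Filter ℕ), s n g = 0}
  mul_mem' := by
    intro g h hg hh
    filter_upwards [hg, hh] with n h1 h2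
    rw [s_mul, h1, h2, add_zero]
  one_mem' := by
    refine Filter.Eventually.of_forall fun n => s_one n
  inv_mem' := by
    intro g hg
    filter_upwards [hg] with n h1
    rw [s_inv, h1, neg_zero]

theorem mem_K {U : Ultrafilter ℕ} {g : G} : g ∈ K U ↔ ∀ᶠ n in (U : Filter ℕ), s n g = 0 := Iff.rfl

/-- The action of a portrait. -/
def act (p : V → Bool) : V → V
  | [] => []
  | x :: u => xor x (p u) :: act p u

def ract (p : V → Bool) : V → V
  | [] => []
  | y :: w => xor y (p (ract p w)) :: ract p w

theorem ract_act (p : V → Bool) (v : V) : ract p (act p v) = v := by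
  induction v with
  | nil => rfl
  | cons x u ih => simp [act, ract, ih]

theorem act_ract (p : V → Bool) (v : V) : act p (ract p v) = v := by
  induction v with
  | nil => rfl
  | cons x u ih => simp [act, ract, ih]

theorem act_len (p : V → Bool) (v : V) : (act p v).length = v.length := by
  induction v with
  | nil => rfl
  | cons x u ih => simp [act, ih]

/-- The automorphism with a given portrait. -/
def ofP (p : V → Bool) : G :=
  ⟨⟨act p, ract p, ract_act p, act_ract p⟩, fun v => ⟨act_len p v, by cases v <;> rfl⟩⟩

theorem ofP_apply (p : V → Bool) (v : V) : (ofP p).1 v = act p v := rfl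

theorem lab_ofP (p : V → Bool) (u : V) : lab (ofP p) u = p u := by
  rw [lab, ofP_apply]
  simp [act]

theorem act_congr {p q : V → Bool} (v : V) (h : ∀ u : V, u.length < v.length → p u = q u) :
    act p v = act q v := by
  induction v with
  | nil => rfl
  | cons x u ih =>
    simp only [act]
    rw [h u (by simp), ih (fun w hw => h w (by simp; omega))]

theorem act_false (v : V) : act (fun _ => false) v = v := by
  induction v with
  | nil => rfl
  | cons x u ih => simp [act, ih]

theorem exists_trans : ∀ v w : V, v.length = w.length →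
    ∃ c : ℕ → Bool, act (fun u => c u.length) v = w
  | [], [], _ => ⟨fun _ => false, rfl⟩
  | x :: v, y :: w, h => by
    obtain ⟨c, hc⟩ := exists_trans v w (by simpa using h)
    refine ⟨Function.update c v.length (xor x y), ?_⟩
    have h1 : act (fun u => Function.update c v.length (xor x y) u.length) v = w := by
      rw [← hc]
      refine act_congr v fun u hu => ?_
      rw [Function.update_of_ne (by omega)]
    simp only [act, h1, Function.update_self]
    simp
  | [], y :: w, h => by simp at h
  | x :: v, [], h => by simp at h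

theorem transitive (v w : V) (h : v.length = w.length) : ∃ g : G, g.1 v = w := by
  obtain ⟨c, hc⟩ := exists_trans v w h
  exact ⟨ofP _, hc⟩

/-- Portraits supported on the leftmost ray. -/
noncomputable def δ (A : Set ℕ) : G := by
  classical
  exact ofP (fun u => decide (u = List.replicate u.length false ∧ u.length ∈ A))

theorem s_δ_mem {A : Set ℕ} {n : ℕ} (h : n ∈ A) : s n (δ A) = 1 := by
  classical
  have h1 : s n (δ A) = tz (lab (δ A) (List.replicate n false)) := by
    refine Finset.sum_eq_single (List.replicate n false) (fun u hu hne => ?_) (fun hu => ?_)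
    · rw [δ, lab_ofP]
      rw [mem_lv] at hu
      have : ¬ (u = List.replicate u.length false ∧ u.length ∈ A) := by
        rw [hu]
        exact fun h => hne h.1
      simp [this, tz]
    · exact absurd (mem_lv.2 (by simp)) hu
  rw [h1, δ, lab_ofP]
  simp [tz, h]

theorem s_δ_notMem {A : Set ℕ} {n : ℕ} (h : n ∉ A) : s n (δ A) = 0 := by
  classical
  refine Finset.sum_eq_zero fun u hu => ?_
  rw [mem_lv] at hu
  rw [δ, lab_ofP]
  simp [tz, hu, h]

/-- The pointwise stabiliser of the first levels. -/
def St (i : ℕ) : Subgroup G where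
  carrier := {g | ∀ v : V, v.length ≤ i → g.1 v = v}
  mul_mem' := by
    intro g h hg hh v hv
    show g.1 (h.1 v) = v
    rw [hh v hv, hg v hv]
  one_mem' := fun v _ => rfl
  inv_mem' := by
    intro g hg v hv
    show (g.1)⁻¹ v = v
    rw [Perm.inv_eq_iff_eq, hg v hv]

theorem mem_St {i : ℕ} {g : G} : g ∈ St i ↔ ∀ v : V, v.length ≤ i → g.1 v = v := Iff.rfl

theorem St_anti {i j : ℕ} (h : i ≤ j) : St j ≤ St i := fun _ hg v hv => hg v (hv.trans h)

theorem St_normal (i : ℕ) : (St i).Normal where
  conj_mem := by
    intro g hg h v hv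
    show h.1 (g.1 ((h.1)⁻¹ v)) = v
    rw [hg _ (by rw [show ((h.1)⁻¹ v).length = v.length from len h⁻¹ v]; exact hv)]
    exact h.1.apply_symm_apply v

theorem K_normal (U : Ultrafilter ℕ) : (K U).Normal where
  conj_mem := by
    intro g hg h
    rw [mem_K] at hg ⊢
    filter_upwards [hg] with n h1
    rw [s_mul, s_mul, s_inv, h1]
    ring

theorem K_finiteIndex (U : Ultrafilter ℕ) : (K U).FiniteIndex := by
  have h2 : (K U).index = 2 := by
    rw [Subgroup.index_eq_two_iff]
    refine ⟨δ Set.univ, fun b => ?_⟩
    have h1 : b * δ Set.univ ∈ K U ↔ ∀ᶠ n in (U : Filter ℕ), ¬ s n b = 0 := by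
      rw [mem_K]
      refine Filter.eventually_congr (Filter.Eventually.of_forall fun n => ?_)
      rw [s_mul, s_δ_mem (Set.mem_univ n)]
      have : ∀ z : ZMod 2, z + 1 = 0 ↔ ¬ z = 0 := by decide
      exact this _
    rw [h1, Ultrafilter.eventually_not, ← mem_K]
    by_cases hb : b ∈ K U
    · exact Or.inr ⟨hb, fun h => h hb⟩
    · exact Or.inl ⟨hb, hb⟩
  exact ⟨by rw [h2]; norm_num⟩

/-- The action on a level. -/
def actLev (k : ℕ) : G →* Perm {v : V // v.length = k} where
  toFun g :=
    { toFun := fun v => ⟨g.1 v.1, (len g v.1).trans v.2⟩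
      invFun := fun v => ⟨(g.1)⁻¹ v.1, (len g⁻¹ v.1).trans v.2⟩
      left_inv := fun v => Subtype.ext (g.1.symm_apply_apply v.1)
      right_inv := fun v => Subtype.ext (g.1.apply_symm_apply v.1) }
  map_one' := by ext v; rfl
  map_mul' g h := by ext v; rfl

theorem ker_le (k : ℕ) : (actLev k).ker ≤ St k := by
  intro g hg v hv
  have h1 : v = List.tail^[k - v.length] (List.replicate (k - v.length) false ++ v) := by
    rw [List.tail_iterate]; simp
  have h3 : actLev k g = 1 := hg
  have hlen : (List.replicate (k - v.length) false ++ v).length = k := by simp; omega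
  have h4 := congrArg (fun p : Perm {v : V // v.length = k} =>
    (p ⟨List.replicate (k - v.length) false ++ v, hlen⟩).1) h3
  have h5 : g.1 (List.replicate (k - v.length) false ++ v) =
    List.replicate (k - v.length) false ++ v := h4
  rw [h1, ← iter, h5]

theorem St_finiteIndex (i : ℕ) : (St i).FiniteIndex := by
  have hfin : Finite {v : V // v.length = i} := List.finite_length_eq Bool i
  have h1 : (actLev i).ker.FiniteIndex := inferInstance
  exact Subgroup.finiteIndex_of_le (ker_le i)

/-- Elements supported below a vertex of level `n`. -/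
def R (n : ℕ) : Set G :=
  {g : G | ∃ v : V, v.length = n ∧ ∀ w : V, (∀ k : ℕ, List.tail^[k] w ≠ v) → g.1 w = w}

/-- The ancestor at level `n`. -/
def anc (n : ℕ) (v : V) : V := v.drop (v.length - n)

theorem anc_length (n : ℕ) (v : V) : (anc n v).length = min n v.length := by
  rw [anc, List.length_drop]; omega

theorem anc_apply {g : G} {n : ℕ} (hg : g ∈ St n) (v : V) : anc n (g.1 v) = anc n v := by
  rw [anc, anc, len, ← List.tail_iterate, iter, List.tail_iterate]
  exact hg _ (by rw [List.length_drop]; omega)

theorem anc_of_le {n : ℕ} {v : V} (h : v.length ≤ n) : anc n v = v := by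
  rw [anc, Nat.sub_eq_zero_of_le h, List.drop_zero]

theorem anc_tail {n : ℕ} {v : V} (h : n < v.length) : anc n v.tail = anc n v := by
  cases v with
  | nil => simp at h
  | cons x v =>
    simp only [List.length_cons] at h
    rw [anc, anc, List.tail_cons, List.length_cons, Nat.succ_sub (by omega), List.drop_succ_cons]

theorem mem_closure_R {g : G} {n : ℕ} (hg : g ∈ St n) : g ∈ Subgroup.closure (R n) := by
  have hmem : g.1 ∈ (Subgroup.closure (R n)).map G.subtype := by
    refine Q21.Blocks.mem_of_restr (anc n) (lv n) _ g.1 (anc_apply hg) ?_ ?_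
    · intro v hv
      have : v.length < n := by
        by_contra hcon
        push Not at hcon
        exact hv (mem_lv.2 (by rw [anc_length, Nat.min_eq_left hcon]))
      exact hg v this.le
    · intro u hu
      rw [mem_lv] at hu
      have key : ∀ v : V, Q21.Blocks.restr (anc n) g.1 (anc_apply hg) u v
        = if anc n v = u then g.1 v else v := fun v => rfl
      have hG : Q21.Blocks.restr (anc n) g.1 (anc_apply hg) u ∈ G := by
        intro v
        rw [key, key]
        refine ⟨?_, ?_⟩
        · split_ifs
          · exact len g v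
          · rfl
        · by_cases hv : n < v.length
          · rw [anc_tail hv]
            split_ifs
            · exact tail g v
            · rfl
          · push Not at hv
            rw [hg v hv, hg v.tail (by rw [List.length_tail]; omega)]
            simp
      refine ⟨⟨_, hG⟩, Subgroup.subset_closure ⟨u, hu, fun w hw => ?_⟩, rfl⟩
      show Q21.Blocks.restr (anc n) g.1 (anc_apply hg) u w = w
      rw [key, if_neg]
      intro h
      refine hw (w.length - n) ?_
      rw [List.tail_iterate]
      exact h
  obtain ⟨g', hg', he⟩ := hmem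
  have : g' = g := Subtype.ext he
  rwa [this] at hg'

theorem closure_R_finiteIndex (n : ℕ) : (Subgroup.closure (R n)).FiniteIndex := by
  have := St_finiteIndex n
  exact Subgroup.finiteIndex_of_le (H := St n) (fun g hg => mem_closure_R hg)

/-- Disjoint infinite sets of natural numbers. -/
def A (a : ℕ) : Set ℕ := {n | (Nat.unpair n).1 = a}

theorem A_infinite (a : ℕ) : (A a).Infinite := by
  refine Set.infinite_of_injective_forall_mem (f := fun b : ℕ => Nat.pair a b) ?_ ?_
  · intro b c h
    have := congrArg (fun n => (Nat.unpair n).2) h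
    simpa using this
  · intro b
    simp [A]

instance neBot (a : ℕ) : (Filter.cofinite ⊓ Filter.principal (A a)).NeBot := by
  rw [Filter.inf_principal_neBot_iff]
  intro S hS
  rw [Filter.mem_cofinite] at hS
  by_contra hne
  rw [Set.not_nonempty_iff_eq_empty] at hne
  refine A_infinite a (hS.subset fun x hx hxS => ?_)
  have : x ∈ S ∩ A a := ⟨hxS, hx⟩
  rw [hne] at this
  exact this

noncomputable def U (a : ℕ) : Ultrafilter ℕ := Ultrafilter.of (Filter.cofinite ⊓ Filter.principal (A a))

theorem A_mem_U (a : ℕ) : ∀ᶠ n in (U a : Filter ℕ), n ∈ A a :=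
  (Ultrafilter.of_le _).trans inf_le_right (Filter.mem_principal_self _)

theorem large_mem_U (a j : ℕ) : ∀ᶠ n in (U a : Filter ℕ), j ≤ n := by
  refine (Ultrafilter.of_le _).trans inf_le_left ?_
  rw [Filter.mem_cofinite]
  refine (Set.finite_lt_nat j).subset fun n hn => ?_
  simpa using hn

/-- The sequences of normal subgroups. -/
noncomputable def M (a i : ℕ) : Subgroup G := St i ⊓ K (U a)

theorem M_sep {a b : ℕ} (hab : a ≠ b) (j : ℕ) : ¬ M b j ≤ M a 0 := by
  classical
  intro h
  have h1 : δ {n | n ∈ A a ∧ j ≤ n} ∈ M b j := by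
    refine ⟨fun v hv => ?_, ?_⟩
    · rw [δ, ofP_apply]
      rw [act_congr (q := fun _ => false) v, act_false]
      intro u hu
      have : ¬ (u = List.replicate u.length false ∧ u.length ∈ {n | n ∈ A a ∧ j ≤ n}) := by
        rintro ⟨-, -, h2⟩
        omega
      rw [decide_eq_false_iff_not]
      exact this
    · show _ ∈ K (U b)
      rw [mem_K]
      filter_upwards [A_mem_U b] with n hn
      refine s_δ_notMem ?_
      rintro ⟨h1, -⟩
      exact hab ((h1 : (Nat.unpair n).1 = a).symm.trans hn)
  have h2 := (h h1).2
  have h3 : ∀ᶠ n in (U a : Filter ℕ), s n (δ {n | n ∈ A a ∧ j ≤ n}) = 0 := h2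
  have h4 : ∀ᶠ n in (U a : Filter ℕ), False := by
    filter_upwards [h3, A_mem_U a, large_mem_U a j] with n h5 h6 h7
    rw [s_δ_mem (show n ∈ {n | n ∈ A a ∧ j ≤ n} from ⟨h6, h7⟩)] at h5
    exact absurd h5 (by decide)
  exact absurd (Filter.eventually_false_iff_eq_bot.1 h4) (U a).neBot.ne

end Q21.TreeAut
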